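import Pool.Agent.CYU.ExDat

/-!
# The pair lemma

`Bi.main`: a class function on the pairs of points of two coverings of order `3` or `4`, of the types `χ` and `χ⁻¹`,
`χ` injective, is zero if `e ≤ n` for both coverings.
-/

set_option autoImplicit false

noncomputable section

namespace Pool.Agent.CYU

open Pool.Agent.ZCyc Pool.Agent.Dess Pool.Agent.TInc

variable {k : Type} [Field k] [IsAlgClosed k] [CharZero k] {m : ℕ} [NeZero m]
  {V : Type} [AddCommGroup V] [Module k V] {χ : Mu k m →* kˣ} {W W' : Cov k m}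
  (G : Bi χ χ W W' V)

theorem Bi.main (hm : m = 3 ∨ m = 4) (hχ : Function.Injective χ) (hn : W.e ≤ W.n)
    (hn' : W'.e ≤ W'.n) (z : Pt W k) (z' : Pt W' k) : G.F z z' = 0 := by
  obtain ⟨j, ν, hex⟩ : ∃ j ν, Ex m j ν := by
    rcases hm with rfl | rfl
    · exact ⟨3, 1, Or.inl ⟨rfl, rfl, rfl⟩⟩
    · exact ⟨2, 2, Or.inr ⟨rfl, rfl, rfl⟩⟩
  by_cases hz : z.w = 0
  · exact G.zero1 hex.two_le.1 hχ hz z'
  · obtain ⟨K, hK, ⟨D⟩⟩ := exists_dat hex hn hz
    exact glob G hex hχ hn' hz hK D z'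

end Pool.Agent.CYU
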