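import Pool.Agent.CYU.RootA

/-!
# Homogeneous evaluation of polynomials in one variable

`hev P n s t` is the value at `(s, t)` of the form of degree `n` which belongs to the polynomial `P`
of degree at most `n`.
-/

set_option autoImplicit false

noncomputable section

namespace Pool.Agent.CYU

open Pool.Agent.ZCyc Pool.Agent.Dess Pool.Agent.TInc Polynomial

/-- the value at `(s, t)` of the form of degree `n` which belongs to `P` -/
def hev {M : Type*} [Field M] (P : M[X]) (n : ℕ) (s t : M) : M :=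
  ∑ i ∈ Finset.range (n + 1), P.coeff i * s ^ i * t ^ (n - i)

section alg

variable {M : Type*} [Field M]

theorem hev_ne {P : M[X]} {n : ℕ} (hP : P.natDegree ≤ n) (s : M) {t : M} (ht : t ≠ 0) :
    hev P n s t = t ^ n * P.eval (s / t) := by
  rw [hev, eval_eq_sum_range' (lt_of_le_of_lt hP (Nat.lt_succ_self n)), Finset.mul_sum]
  refine Finset.sum_congr rfl fun i hi => ?_
  have hi' : i ≤ n := by
    rw [Finset.mem_range] at hi
    omega
  have h1 : t ^ n = t ^ (n - i) * t ^ i := by
    rw [← pow_add, Nat.sub_add_cancel hi']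
  rw [h1, div_pow]
  field_simp

theorem hev_t_zero (P : M[X]) (n : ℕ) (s : M) : hev P n s 0 = P.coeff n * s ^ n := by
  rw [hev, Finset.sum_eq_single n]
  · rw [Nat.sub_self, pow_zero, mul_one]
  · intro i hi hin
    rw [Finset.mem_range] at hi
    have h1 : n - i ≠ 0 := by omega
    rw [zero_pow h1, mul_zero]
  · intro h
    exact absurd (Finset.mem_range.2 (Nat.lt_succ_self n)) h

theorem hev_one {P : M[X]} {n : ℕ} (hP : P.natDegree ≤ n) (s : M) :
    hev P n s 1 = P.eval s := by
  rw [hev_ne hP s one_ne_zero, one_pow, one_mul, div_one]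

theorem hev_s_zero (P : M[X]) (n : ℕ) (t : M) : hev P n 0 t = P.coeff 0 * t ^ n := by
  rw [hev, Finset.sum_eq_single 0]
  · rw [pow_zero, mul_one, Nat.sub_zero]
  · intro i _ hi
    rw [zero_pow hi, mul_zero, zero_mul]
  · intro h
    exact absurd (Finset.mem_range.2 (Nat.succ_pos n)) h

theorem hev_add (P Q : M[X]) (n : ℕ) (s t : M) :
    hev (P + Q) n s t = hev P n s t + hev Q n s t := by
  rw [hev, hev, hev, ← Finset.sum_add_distrib]
  refine Finset.sum_congr rfl fun i _ => ?_
  rw [coeff_add]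
  ring

theorem hev_sub (P Q : M[X]) (n : ℕ) (s t : M) :
    hev (P - Q) n s t = hev P n s t - hev Q n s t := by
  rw [hev, hev, hev, ← Finset.sum_sub_distrib]
  refine Finset.sum_congr rfl fun i _ => ?_
  rw [coeff_sub]
  ring

theorem hev_neg (P : M[X]) (n : ℕ) (s t : M) : hev (-P) n s t = -hev P n s t := by
  rw [hev, hev, ← Finset.sum_neg_distrib]
  refine Finset.sum_congr rfl fun i _ => ?_
  rw [coeff_neg]
  ring

theorem hev_zero (n : ℕ) (s t : M) : hev (0 : M[X]) n s t = 0 := by
  rw [hev]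
  refine Finset.sum_eq_zero fun i _ => ?_
  rw [coeff_zero, zero_mul, zero_mul]

theorem hev_C_mul (c : M) (P : M[X]) (n : ℕ) (s t : M) :
    hev (C c * P) n s t = c * hev P n s t := by
  rw [hev, hev, Finset.mul_sum]
  refine Finset.sum_congr rfl fun i _ => ?_
  rw [coeff_C_mul]
  ring

theorem hev_C (c : M) (n : ℕ) (s t : M) : hev (C c) n s t = c * t ^ n := by
  rw [hev, Finset.sum_eq_single 0]
  · rw [coeff_C_zero, pow_zero, mul_one, Nat.sub_zero]
  · intro i _ hi
    rw [coeff_C_of_ne_zero hi, zero_mul, zero_mul]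
  · intro h
    exact absurd (Finset.mem_range.2 (Nat.succ_pos n)) h

theorem hev_X_pow (n : ℕ) (s t : M) : hev ((X : M[X]) ^ n) n s t = s ^ n := by
  rw [hev, Finset.sum_eq_single n]
  · rw [coeff_X_pow_self, one_mul, Nat.sub_self, pow_zero, mul_one]
  · intro i _ hi
    rw [coeff_X_pow, if_neg hi, zero_mul, zero_mul]
  · intro h
    exact absurd (Finset.mem_range.2 (Nat.lt_succ_self n)) h

theorem hev_mul {P Q : M[X]} {a b : ℕ} (hP : P.natDegree ≤ a) (hQ : Q.natDegree ≤ b) (s t : M) :
    hev (P * Q) (a + b) s t = hev P a s t * hev Q b s t := by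
  by_cases ht : t = 0
  · subst ht
    rw [hev_t_zero, hev_t_zero, hev_t_zero, coeff_mul_add_eq_of_natDegree_le hP hQ, pow_add]
    ring
  · rw [hev_ne (natDegree_mul_le_of_le hP hQ) s ht, hev_ne hP s ht, hev_ne hQ s ht, eval_mul,
      pow_add]
    ring

theorem hev_pow {P : M[X]} {a : ℕ} (hP : P.natDegree ≤ a) (n : ℕ) (s t : M) :
    hev (P ^ n) (n * a) s t = hev P a s t ^ n := by
  induction n with
  | zero =>
    rw [pow_zero, pow_zero, zero_mul, ← C_1, hev_C, pow_zero, mul_one]
  | succ n ih =>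
    rw [pow_succ, pow_succ, Nat.succ_mul, hev_mul (natDegree_pow_le_of_le n hP) hP, ih]

theorem hev_prod {ι : Type*} (S : Finset ι) {P : ι → M[X]} {a : ι → ℕ}
    (hP : ∀ i ∈ S, (P i).natDegree ≤ a i) (s t : M) :
    hev (∏ i ∈ S, P i) (∑ i ∈ S, a i) s t = ∏ i ∈ S, hev (P i) (a i) s t := by
  classical
  induction S using Finset.induction_on with
  | empty =>
    rw [Finset.prod_empty, Finset.sum_empty, Finset.prod_empty, ← C_1, hev_C, pow_zero, mul_one]
  | insert i S hi ih =>
    rw [Finset.prod_insert hi, Finset.sum_insert hi, Finset.prod_insert hi,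
      hev_mul (hP i (Finset.mem_insert_self i S))
        ((natDegree_prod_le S P).trans
          (Finset.sum_le_sum fun j hj => hP j (Finset.mem_insert_of_mem hj))),
      ih fun j hj => hP j (Finset.mem_insert_of_mem hj)]

theorem hev_sum {ι : Type*} (S : Finset ι) (P : ι → M[X]) (n : ℕ) (s t : M) :
    hev (∑ i ∈ S, P i) n s t = ∑ i ∈ S, hev (P i) n s t := by
  classical
  induction S using Finset.induction_on with
  | empty => rw [Finset.sum_empty, Finset.sum_empty, hev_zero]
  | insert i S hi ih => rw [Finset.sum_insert hi, Finset.sum_insert hi, hev_add, ih]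

/-- homotheties -/
theorem hev_smul (P : M[X]) (n : ℕ) (c s t : M) :
    hev P n (c * s) (c * t) = c ^ n * hev P n s t := by
  rw [hev, hev, Finset.mul_sum]
  refine Finset.sum_congr rfl fun i hi => ?_
  rw [Finset.mem_range] at hi
  have h1 : c ^ n = c ^ i * c ^ (n - i) := by
    rw [← pow_add]
    congr 1
    omega
  rw [h1]
  ring

/-- scaling of the variable -/
theorem hev_comp (P : M[X]) (n : ℕ) (l s t : M) :
    hev (P.comp (C l * X)) n s t = hev P n (l * s) t := by
  rw [hev, hev]
  refine Finset.sum_congr rfl fun i _ => ?_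
  rw [comp_C_mul_X_coeff]
  ring

theorem hev_map {M' : Type*} [Field M'] (φ : M →+* M') (P : M[X]) (n : ℕ) (s t : M) :
    hev (P.map φ) n (φ s) (φ t) = φ (hev P n s t) := by
  rw [hev, hev, map_sum]
  refine Finset.sum_congr rfl fun i _ => ?_
  rw [coeff_map, map_mul, map_mul, map_pow, map_pow]

/-- a linear polynomial -/
theorem hev_lin (a b : M) (s t : M) : hev (C a + C b * X) 1 s t = a * t + b * s := by
  rw [hev, Finset.sum_range_succ, Finset.sum_range_one]
  simp

end alg

variable {k : Type} [Field k]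

section places

variable {M : Type} [Field M] [Algebra k M] {v : Place k M}

theorem at_hev {P : M[X]} {p : k[X]} (h : Red v P p) (n : ℕ) {s t : M} {s₀ t₀ : k}
    (hs : v.At s s₀) (ht : v.At t t₀) : v.At (hev P n s t) (hev p n s₀ t₀) :=
  Place.At.sum fun i _ => ((h i).mul (hs.pow i)).mul (ht.pow (n - i))

theorem hev_mem {P : M[X]} (h : ∀ i, P.coeff i ∈ v.ring) (n : ℕ) {s t : M}
    (hs : s ∈ v.ring) (ht : t ∈ v.ring) : hev P n s t ∈ v.ring :=
  v.ring.sum_mem fun i _ => v.ring.mul_mem _ _ (v.ring.mul_mem _ _ (h i)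
    (pow_mem hs i)) (pow_mem ht (n - i))

theorem hev_vanishes {P : M[X]} (h : ∀ i, v.Vanishes (P.coeff i)) (n : ℕ) {s t : M}
    (hs : s ∈ v.ring) (ht : t ∈ v.ring) : v.Vanishes (hev P n s t) := by
  have h1 : v.At (hev P n s t) (∑ i ∈ Finset.range (n + 1), (0 : k)) := by
    refine Place.At.sum fun i _ => ?_
    rw [Place.at_zero_iff, mul_assoc]
    exact (h i).mul v (v.ring.mul_mem _ _ (pow_mem hs i) (pow_mem ht (n - i)))
  rw [Finset.sum_const_zero, Place.at_zero_iff] at h1
  exact h1

end places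

/-- The values of a form on a line: `f(t x₀ + s x₁)`. -/
theorem aeval_line {ι : Type} [Fintype ι] {M : Type} [Field M] [Algebra k M]
    {f : MvPolynomial ι k} {d : ℕ} (hf : f.IsHomogeneous d) (x₀ x₁ : ι → M) (s t : M) :
    MvPolynomial.aeval (fun i => x₀ i * t + x₁ i * s) f =
      hev (MvPolynomial.aeval (fun i => C (x₀ i) + C (x₁ i) * X) f) d s t := by
  have h1 : MvPolynomial.aeval (fun i => C (x₀ i) + C (x₁ i) * X) f =
      ∑ m ∈ f.support, C (algebraMap k M (f.coeff m)) *
        ∏ i ∈ Finset.univ, (C (x₀ i) + C (x₁ i) * X) ^ m i := by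
    rw [MvPolynomial.aeval_def, MvPolynomial.eval₂_eq']
    rfl
  have h2 : MvPolynomial.aeval (fun i => x₀ i * t + x₁ i * s) f =
      ∑ m ∈ f.support, algebraMap k M (f.coeff m) *
        ∏ i ∈ Finset.univ, (x₀ i * t + x₁ i * s) ^ m i := by
    rw [MvPolynomial.aeval_def, MvPolynomial.eval₂_eq']
  rw [h1, h2, hev_sum]
  refine Finset.sum_congr rfl fun m hm => ?_
  have hd : ∑ i, m i = d := by
    have h3 := hf (MvPolynomial.mem_support_iff.1 hm)
    rw [← h3, Finsupp.weight_apply, Finsupp.sum_fintype]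
    · simp
    · simp
  rw [hev_C_mul]
  congr 1
  have h4 : ∀ i ∈ (Finset.univ : Finset ι),
      ((C (x₀ i) + C (x₁ i) * X : M[X]) ^ m i).natDegree ≤ m i * 1 := fun i _ =>
    natDegree_pow_le_of_le _ (by compute_degree)
  have h5 := hev_prod (Finset.univ : Finset ι) h4 s t
  simp only [mul_one] at h5
  rw [hd] at h5
  rw [h5]
  refine Finset.prod_congr rfl fun i _ => ?_
  have h6 := hev_pow (P := C (x₀ i) + C (x₁ i) * X) (a := 1) (by compute_degree) (m i) s t
  rw [mul_one] at h6
  rw [h6, hev_lin]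

theorem natDegree_aeval_line {ι : Type} [Fintype ι] {M : Type} [Field M] [Algebra k M]
    {f : MvPolynomial ι k} {d : ℕ} (hf : f.IsHomogeneous d) (x₀ x₁ : ι → M) :
    (MvPolynomial.aeval (fun i => C (x₀ i) + C (x₁ i) * X) f).natDegree ≤ d := by
  rw [MvPolynomial.aeval_def, MvPolynomial.eval₂_eq']
  refine natDegree_sum_le_of_forall_le _ _ fun m hm => ?_
  have hd : ∑ i, m i = d := by
    have h3 := hf (MvPolynomial.mem_support_iff.1 hm)
    rw [← h3, Finsupp.weight_apply, Finsupp.sum_fintype]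
    · simp
    · simp
  refine (natDegree_C_mul_le _ _).trans ?_
  rw [← hd]
  refine (natDegree_prod_le _ _).trans (Finset.sum_le_sum fun i _ => ?_)
  have := natDegree_pow_le_of_le (p := C (x₀ i) + C (x₁ i) * X) (m := 1) (m i)
    (by compute_degree)
  simpa using this

end Pool.Agent.CYU
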