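import Pool.Agent.CYU.HomA
import Pool.Agent.ZIso.Krull

/-!
# Lines `p(T)` with `f(p(T)) = A(T) ^ i + B(T) ^ j + c T ^ D`

Unknowns: the coordinates `x1 l`, `l ≠ i₀`, and the coefficients of `A` and `B` with the indices
`1, …, a` and `1, …, b`. Equations: the coefficients of `T ^ l`, `1 ≤ l < D`, in
`f(z + x1 T) - A ^ i - B ^ j` are zero. All of them vanish at the origin (constant polynomials).
-/

set_option autoImplicit false

noncomputable section

namespace Pool.Agent.CYU

open Pool.Agent.ZCyc Pool.Agent.Dess Pool.Agent.TInc Polynomial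

section

variable {k : Type} [Field k] {n a b : ℕ} (i₀ : Fin (n + 1))

/-- the unknowns -/
abbrev Unk (n a b : ℕ) (i₀ : Fin (n + 1)) : Type := {l : Fin (n + 1) // l ≠ i₀} ⊕ (Fin a ⊕ Fin b)

variable {R : Type} [CommRing R]

open Classical in
/-- the direction -/
def unkX (y : Unk n a b i₀ → R) : Fin (n + 1) → R :=
  fun l => if h : l = i₀ then 0 else y (Sum.inl ⟨l, h⟩)

/-- the polynomial with constant coefficient `a0` and the other coefficients given -/
def unkP {d : ℕ} (a0 : R) (y : Fin d → R) : R[X] := C a0 + ∑ l : Fin d, C (y l) * X ^ (l.1 + 1)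

/-- the polynomial whose coefficients have to vanish -/
def unkG (f : MvPolynomial (Fin (n + 1)) k) (z : Fin (n + 1) → k) (i j : ℕ) (φ : k →+* R)
    (a0 b0 : R) (y : Unk n a b i₀ → R) : R[X] :=
  MvPolynomial.eval₂ (C.comp φ) (fun l => C (φ (z l)) + C (unkX i₀ y l) * X) f -
    unkP a0 (fun l => y (Sum.inr (Sum.inl l))) ^ i -
    unkP b0 (fun l => y (Sum.inr (Sum.inr l))) ^ j

theorem unkP_map {S : Type} [CommRing S] (θ : R →+* S) {d : ℕ} (a0 : R) (y : Fin d → R) :
    (unkP a0 y).map θ = unkP (θ a0) (fun l => θ (y l)) := by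
  rw [unkP, unkP, Polynomial.map_add, map_C, Polynomial.map_sum]
  congr 1
  refine Finset.sum_congr rfl fun l _ => ?_
  rw [Polynomial.map_mul, map_C, Polynomial.map_pow, map_X]

theorem unkG_map {S : Type} [CommRing S] (θ : R →+* S) (f : MvPolynomial (Fin (n + 1)) k)
    (z : Fin (n + 1) → k) (i j : ℕ) (φ : k →+* R) (a0 b0 : R) (y : Unk n a b i₀ → R) :
    (unkG i₀ f z i j φ a0 b0 y).map θ =
      unkG i₀ f z i j (θ.comp φ) (θ a0) (θ b0) (fun l => θ (y l)) := by
  rw [unkG, unkG, Polynomial.map_sub, Polynomial.map_sub, Polynomial.map_pow,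
    Polynomial.map_pow, unkP_map, unkP_map]
  congr 2
  have h1 := MvPolynomial.eval₂_comp_left (mapRingHom θ) (C.comp φ)
    (fun l => C (φ (z l)) + C (unkX i₀ y l) * X) f
  rw [coe_mapRingHom] at h1
  rw [h1]
  congr 1
  · ext t
    simp
  · funext l
    rw [Function.comp_apply, Polynomial.map_add, map_C, Polynomial.map_mul, map_C, map_X]
    congr 3
    unfold unkX
    split_ifs
    · exact map_zero θ
    · rfl

theorem unkP_coeff_zero {d : ℕ} (a0 : R) (y : Fin d → R) : (unkP a0 y).coeff 0 = a0 := by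
  rw [unkP, coeff_add, coeff_C_zero, finsetSum_coeff]
  simp [coeff_X_pow]

theorem unkP_coeff_succ {d : ℕ} (a0 : R) (y : Fin d → R) (l : Fin d) :
    (unkP a0 y).coeff (l.1 + 1) = y l := by
  rw [unkP, coeff_add, coeff_C_succ, zero_add, finsetSum_coeff, Finset.sum_eq_single l]
  · rw [coeff_C_mul, coeff_X_pow_self, mul_one]
  · intro l' _ hl
    rw [coeff_C_mul, coeff_X_pow, if_neg, mul_zero]
    intro h
    exact hl (Fin.ext (by omega))
  · intro h
    exact absurd (Finset.mem_univ l) h

theorem unkP_natDegree {d : ℕ} (a0 : R) (y : Fin d → R) : (unkP a0 y).natDegree ≤ d := by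
  rw [unkP]
  refine (natDegree_add_le _ _).trans (max_le ?_ ?_)
  · rw [natDegree_C]
    exact Nat.zero_le d
  · refine natDegree_sum_le_of_forall_le _ _ fun l _ => ?_
    refine (natDegree_C_mul_X_pow_le _ _).trans ?_
    have := l.2
    omega

theorem unkP_zero {d : ℕ} (a0 : R) : unkP a0 (fun _ : Fin d => (0 : R)) = C a0 := by
  rw [unkP]
  simp

end

variable {k : Type} [Field k]

theorem exists_line {K : Type} [Field K] [Algebra k K] [IsAlgClosed K] {n a b D i j : ℕ}
    (hD : 0 < D) {f : MvPolynomial (Fin (n + 1)) k} (hf : f.IsHomogeneous D)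
    (z : Fin (n + 1) → k) (i₀ : Fin (n + 1)) (hia : i * a = D) (hjb : j * b = D)
    (hn : D ≤ n + a + b) {a0 b0 : K}
    (h0 : a0 ^ i + b0 ^ j = algebraMap k K (MvPolynomial.aeval z f)) :
    ∃ (x1 : Fin (n + 1) → K) (A B : K[X]) (c : K), x1 i₀ = 0 ∧ A.natDegree ≤ a ∧
      B.natDegree ≤ b ∧ A.coeff 0 = a0 ∧ B.coeff 0 = b0 ∧
      MvPolynomial.aeval (fun l => C (algebraMap k K (z l)) + C (x1 l) * X) f =
        A ^ i + B ^ j + C c * X ^ D ∧
      (x1 ≠ 0 ∨ A.natDegree ≠ 0 ∨ B.natDegree ≠ 0) := by
  classical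
  -- the equations
  let ι := Unk n a b i₀
  let G : (MvPolynomial ι K)[X] := unkG i₀ f z i j
    (MvPolynomial.C.comp (algebraMap k K)) (MvPolynomial.C a0) (MvPolynomial.C b0)
    (fun l => MvPolynomial.X l)
  have hGx : ∀ x : ι → K, G.map (MvPolynomial.eval x) =
      unkG i₀ f z i j (algebraMap k K) a0 b0 x := by
    intro x
    have h1 := unkG_map i₀ (MvPolynomial.eval x) f z i j
      (MvPolynomial.C.comp (algebraMap k K)) (MvPolynomial.C a0) (MvPolynomial.C b0)
      (fun l => MvPolynomial.X l)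
    have h2 : (MvPolynomial.eval x).comp (MvPolynomial.C.comp (algebraMap k K)) =
        algebraMap k K := by
      ext t
      simp
    rw [h2] at h1
    simpa using h1
  have haev : ∀ x : ι → K, MvPolynomial.eval₂ (C.comp (algebraMap k K))
      (fun l => C (algebraMap k K (z l)) + C (unkX i₀ x l) * X) f =
      MvPolynomial.aeval (fun l => C (algebraMap k K (z l)) + C (unkX i₀ x l) * X) f := by
    intro x
    rfl
  have hconst : MvPolynomial.aeval (fun l => (C (algebraMap k K (z l)) : K[X])) f =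
      C (algebraMap k K (MvPolynomial.aeval z f)) := by
    have h1 := MvPolynomial.aeval_algebraMap_apply (B := K[X]) z f
    exact h1
  have hzero : ∀ l : Fin (D - 1), MvPolynomial.eval (0 : ι → K) (G.coeff (l.1 + 1)) = 0 := by
    intro l
    rw [← coeff_map, hGx, unkG, haev]
    have e1 : unkX i₀ (0 : ι → K) = 0 := by
      funext l
      unfold unkX
      split_ifs <;> rfl
    have e2 : ∀ c0 : K, ∀ d : ℕ, unkP c0 (fun _ : Fin d => (0 : K)) = C c0 :=
      fun c0 d => unkP_zero c0
    have e3 : (fun l => C (algebraMap k K (z l)) + C (unkX i₀ (0 : ι → K) l) * X) =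
        fun l => (C (algebraMap k K (z l)) : K[X]) := by
      funext l
      rw [e1, Pi.zero_apply, C_0, zero_mul, add_zero]
    rw [e3, hconst]
    simp only [Pi.zero_apply]
    rw [e2, e2, ← C_pow, ← C_pow, ← C_sub, ← C_sub, coeff_C_succ]
  have hcard : Fintype.card (Fin (D - 1)) < Fintype.card ι := by
    have h1 : Fintype.card {l : Fin (n + 1) // l ≠ i₀} = n := by
      rw [Fintype.card_subtype_compl, Fintype.card_fin, Fintype.card_unique]
      rfl
    rw [Fintype.card_fin, Fintype.card_sum, Fintype.card_sum, h1, Fintype.card_fin,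
      Fintype.card_fin]
    omega
  obtain ⟨x, hx0, hx⟩ := ZIso.exists_ne_zero hcard (fun l => G.coeff (l.1 + 1)) hzero
  set A : K[X] := unkP a0 (fun l => x (Sum.inr (Sum.inl l))) with hA
  set B : K[X] := unkP b0 (fun l => x (Sum.inr (Sum.inr l))) with hB
  set x1 : Fin (n + 1) → K := unkX i₀ x with hx1
  set P : K[X] := MvPolynomial.aeval (fun l => C (algebraMap k K (z l)) + C (x1 l) * X) f with hP
  have hG : G.map (MvPolynomial.eval x) = P - A ^ i - B ^ j := by
    rw [hGx, unkG, haev]
  have hdeg : (P - A ^ i - B ^ j).natDegree ≤ D := by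
    refine (natDegree_sub_le _ _).trans (max_le ((natDegree_sub_le _ _).trans (max_le ?_ ?_)) ?_)
    · exact natDegree_aeval_line hf _ _
    · rw [← hia]
      exact natDegree_pow_le_of_le i (unkP_natDegree _ _)
    · rw [← hjb]
      exact natDegree_pow_le_of_le j (unkP_natDegree _ _)
  have hP0 : P.coeff 0 = algebraMap k K (MvPolynomial.aeval z f) := by
    rw [coeff_zero_eq_eval_zero, hP, ← coe_evalRingHom]
    have h1 := MvPolynomial.eval₂_comp_left (evalRingHom (0 : K)) (algebraMap k K[X])
      (fun l => C (algebraMap k K (z l)) + C (x1 l) * X) f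
    rw [MvPolynomial.aeval_def, h1]
    have h2 : (fun l => algebraMap k K (z l)) =
        (evalRingHom (0 : K)) ∘ (fun l => C (algebraMap k K (z l)) + C (x1 l) * X) := by
      funext l
      simp
    have h3 : (evalRingHom (0 : K)).comp (algebraMap k K[X]) = algebraMap k K := by
      ext t
      simp [Polynomial.algebraMap_apply]
    rw [← h2, h3]
    have h4 := MvPolynomial.aeval_algebraMap_apply (B := K) z f
    rw [MvPolynomial.aeval_def] at h4
    exact h4
  have hcoef : ∀ l, l ≠ D → (P - A ^ i - B ^ j).coeff l = 0 := by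
    intro l hl
    rcases Nat.eq_zero_or_pos l with rfl | hl0
    · rw [coeff_sub, coeff_sub, hP0, coeff_zero_eq_eval_zero (A ^ i),
        coeff_zero_eq_eval_zero (B ^ j), eval_pow, eval_pow, ← coeff_zero_eq_eval_zero,
        ← coeff_zero_eq_eval_zero, hA, hB, unkP_coeff_zero, unkP_coeff_zero, ← h0]
      ring
    · by_cases hlD : l < D
      · have h1 := hx ⟨l - 1, by omega⟩
        simp only at h1
        rw [Nat.sub_add_cancel hl0, ← coeff_map, hG] at h1
        exact h1
      · exact coeff_eq_zero_of_natDegree_lt (by omega)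
  refine ⟨x1, A, B, (P - A ^ i - B ^ j).coeff D, ?_, unkP_natDegree _ _, unkP_natDegree _ _,
    unkP_coeff_zero _ _, unkP_coeff_zero _ _, ?_, ?_⟩
  · rw [hx1]
    simp [unkX]
  · have h1 : P - A ^ i - B ^ j = C ((P - A ^ i - B ^ j).coeff D) * X ^ D := by
      ext l
      rw [coeff_C_mul, coeff_X_pow]
      split_ifs with hl
      · rw [hl, mul_one]
      · rw [mul_zero]
        exact hcoef l hl
    rw [← h1]
    ring
  · obtain ⟨l, hl⟩ := Function.ne_iff.1 hx0
    rw [Pi.zero_apply] at hl
    rcases l with l | l | l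
    · left
      intro h
      apply hl
      have h1 := congrFun h l.1
      rw [hx1] at h1
      unfold unkX at h1
      rw [dif_neg l.2] at h1
      exact h1
    · right
      left
      intro h
      apply hl
      have h1 : A.coeff (l.1 + 1) = 0 := coeff_eq_zero_of_natDegree_lt (by omega)
      rwa [hA, unkP_coeff_succ] at h1
    · right
      right
      intro h
      apply hl
      have h1 : B.coeff (l.1 + 1) = 0 := coeff_eq_zero_of_natDegree_lt (by omega)
      rwa [hB, unkP_coeff_succ] at h1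

end Pool.Agent.CYU
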