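import Pool.Agent.CYU.Defs
import Pool.Agent.GT.Fld

/-!
# Points, their values, homotheties

`exists_val`: there is `c ∈ K`, `c ≠ 0`, such that the coordinates `c P.x i` are regular at `v` and not all
vanish (`c⁻¹` is a coordinate with the smallest order). `(c ^ e P.w) ^ m = f(c P.x)` (`aeval_hom`) is
regular, so `c ^ e P.w` is (valuation rings are integrally closed).
`val_unique`: if `c`, `c'` are the factors, then `c' / c` is a unit at `v` (one of the coordinates `p.x i` is not
zero, and `q.x j ≠ 0` for some `j`), and its value is the factor.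
`Bi.scale1`: `rel` for any curve `K`, the constant points `p.base K`, `p'.base K`, and a function `g` with
`ord v₀ g ≠ 0` for a place `v₀`; take the values `p` everywhere, and then the values `p` but `p.scale c` at `v₀`;
subtract: `ord v₀ g • (F (p.scale c) p' - F p p') = 0`.
`Bi.zero1`: if `p.w = 0` then `p.tw a = p` for all `a`, so `(1 - χ a) F p p' = 0`, with `χ a ≠ 1` for some `a`.
-/

set_option autoImplicit false

noncomputable section

namespace Pool.Agent.CYU

open Pool.Agent.ZCyc Pool.Agent.Dess Pool.Agent.TInc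

variable {k : Type} [Field k] {m m' : ℕ}

section basic

variable {W : Cov k m} {K : Type} [Field K] [Algebra k K]

/-- two factors of a vector differ by a unit -/
theorem ratio_at {v : Place k K} {ι : Type} {x : ι → K} {l l' : K} {y y' : ι → k}
    (hy : y ≠ 0) (hy' : y' ≠ 0) (h : ∀ i, v.At (l * x i) (y i))
    (h' : ∀ i, v.At (l' * x i) (y' i)) :
    ∃ c : k, c ≠ 0 ∧ l ≠ 0 ∧ v.At (l' / l) c ∧ y' = c • y := by
  obtain ⟨i, hi⟩ : ∃ i, y i ≠ 0 := by
    by_contra h
    push Not at h
    exact hy (funext h)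
  have hne : l * x i ≠ 0 := by
    intro h0
    have h1 := h i
    rw [h0] at h1
    have h2 := Place.at_const (v := v) (0 : k)
    rw [map_zero] at h2
    exact hi (Place.At.unique h1 h2)
  have hl : l ≠ 0 := left_ne_zero_of_mul hne
  have hxi : x i ≠ 0 := right_ne_zero_of_mul hne
  have h1 : v.At (l' * x i / (l * x i)) (y' i / y i) := (h' i).div (h i) hi
  rw [mul_div_mul_right _ _ hxi] at h1
  have h2 : ∀ j, y' j = y' i / y i * y j := by
    intro j
    have h3 := h1.mul (h j)
    have h4 : l' / l * (l * x j) = l' * x j := by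
      field_simp
    rw [h4] at h3
    exact Place.At.unique (h' j) h3
  refine ⟨y' i / y i, ?_, hl, h1, funext h2⟩
  intro h0
  apply hy'
  funext j
  rw [h2 j, h0, zero_mul]
  rfl

theorem mu_one (K : Type) [Field K] [Algebra k K] : mu K (1 : Mu k m) = 1 := by
  simp [mu]

theorem mu_mul (K : Type) [Field K] [Algebra k K] (a b : Mu k m) :
    mu K (a * b) = mu K a * mu K b := by
  simp [mu]

theorem mu_ne (K : Type) [Field K] [Algebra k K] (a : Mu k m) : mu K a ≠ 0 := by
  rw [mu]
  simp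

theorem mu_map (K : Type) [Field K] [Algebra k K] (a : Mu k m) :
    mu K a = algebraMap k K (mu k a) := rfl

theorem at_mu (v : Place k K) (a : Mu k m) : v.At (mu K a) (mu k a) := Place.at_const _

theorem mu_inj (K : Type) [Field K] [Algebra k K] {a b : Mu k m} (h : mu K a = mu K b) :
    a = b := by
  have h1 := (algebraMap k K).injective h
  exact Subtype.ext (Units.ext h1)

/-- the values of a form at values -/
theorem at_aeval {v : Place k K} {ι : Type} (g : MvPolynomial ι k) {x : ι → K} {y : ι → k}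
    (h : ∀ i, v.At (x i) (y i)) :
    v.At (MvPolynomial.aeval x g) (MvPolynomial.aeval y g) := by
  rw [MvPolynomial.aeval_def, MvPolynomial.aeval_def, MvPolynomial.eval₂_eq,
    MvPolynomial.eval₂_eq]
  refine Place.At.sum fun d _ => ?_
  exact (Place.at_const _).mul (Place.At.prod fun i _ => (h i).pow _)

theorem Pt.tw_one (P : Pt W K) : P.tw (1 : Mu k m) = P := by
  ext
  · rfl
  · show mu K (1 : Mu k m) * P.w = P.w
    rw [mu_one, one_mul]

theorem Pt.tw_tw (a b : Mu k m) (P : Pt W K) : (P.tw a).tw b = P.tw (a * b) := by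
  ext
  · rfl
  · show mu K b * (mu K a * P.w) = mu K (a * b) * P.w
    rw [mu_mul]
    ring

theorem Pt.tw_of_zero (a : Mu k m) {P : Pt W K} (h : P.w = 0) : P.tw a = P := by
  ext
  · rfl
  · show mu K a * P.w = P.w
    rw [h, mul_zero]

theorem Pt.tw_scale (a : Mu k m) (c : K) (hc : c ≠ 0) (P : Pt W K) :
    (P.scale c hc).tw a = (P.tw a).scale c hc := by
  ext
  · rfl
  · show mu K a * (c ^ W.e * P.w) = c ^ W.e * (mu K a * P.w)
    ring

theorem isVal_tw {v : Place k K} {P : Pt W K} {p : Pt W k} (h : IsVal v P p) (a : Mu k m) :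
    IsVal v (P.tw a) (p.tw a) := by
  obtain ⟨c, h1, h2⟩ := h
  refine ⟨c, h1, ?_⟩
  have h3 := (at_mu v a).mul h2
  have e : c ^ W.e * (P.tw a).w = mu K a * (c ^ W.e * P.w) := by
    show c ^ W.e * (mu K a * P.w) = mu K a * (c ^ W.e * P.w)
    ring
  rw [e]
  exact h3

theorem isVal_base (v : Place k K) (p : Pt W k) : IsVal v (p.base K) p := by
  refine ⟨1, fun i => ?_, ?_⟩
  · rw [one_mul]
    exact Place.at_const _
  · rw [one_pow, one_mul]
    exact Place.at_const _

/-- the value may be multiplied by a homothety -/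
theorem isVal_scale {v : Place k K} {P : Pt W K} {p : Pt W k} (h : IsVal v P p) (c : k)
    (hc : c ≠ 0) : IsVal v P (p.scale c hc) := by
  obtain ⟨l, h1, h2⟩ := h
  refine ⟨algebraMap k K c * l, fun i => ?_, ?_⟩
  · rw [mul_assoc]
    exact (Place.at_const c).mul (h1 i)
  · rw [mul_pow, mul_assoc, ← map_pow]
    exact (Place.at_const (c ^ W.e)).mul h2

theorem val_unique {v : Place k K} {P : Pt W K} {p q : Pt W k} (h : IsVal v P p)
    (h' : IsVal v P q) : ∃ (c : k) (hc : c ≠ 0), q = p.scale c hc := by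
  obtain ⟨l, h1, h2⟩ := h
  obtain ⟨l', h1', h2'⟩ := h'
  obtain ⟨c, hc, hl, h3, h4⟩ := ratio_at p.ne q.ne h1 h1'
  refine ⟨c, hc, ?_⟩
  ext
  · exact congrFun h4 _
  · have h5 := (h3.pow W.e).mul h2
    have e : (l' / l) ^ W.e * (l ^ W.e * P.w) = l' ^ W.e * P.w := by
      rw [div_pow]
      field_simp
    rw [e] at h5
    exact h2'.unique h5

/-- Two `m`-th roots of the same number differ by a root of unity. -/
theorem exists_mu [NeZero m] {a b : k} (h : a ^ m = b ^ m) : ∃ c : Mu k m, a = mu k c * b := by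
  by_cases hb : b = 0
  · subst hb
    rw [zero_pow (NeZero.ne m)] at h
    refine ⟨1, ?_⟩
    rw [mul_zero]
    exact pow_eq_zero_iff (NeZero.ne m) |>.1 h
  · have h1 : (a / b) ^ m = 1 := by
      rw [div_pow, h, div_self (pow_ne_zero m hb)]
    refine ⟨rootsOfUnity.mkOfPowEq (a / b) h1, ?_⟩
    have h2 : mu k (rootsOfUnity.mkOfPowEq (a / b) h1) = a / b :=
      rootsOfUnity.coe_mkOfPowEq h1
    rw [h2, div_mul_cancel₀ _ hb]

/-- Two points over `k` with the same coordinates `x` differ by a root of unity. -/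
theorem exists_tw [NeZero m] {p q : Pt W k} (h : p.x = q.x) : ∃ a : Mu k m, q = p.tw a := by
  have h1 : q.w ^ m = p.w ^ m := by
    rw [p.on, q.on, h]
  obtain ⟨a, ha⟩ := exists_mu h1
  refine ⟨a, ?_⟩
  ext
  · rw [← h]
    rfl
  · exact ha

end basic

variable [IsAlgClosed k] [CharZero k] [NeZero m] [NeZero m']

omit [NeZero m'] in
theorem card_mu : Fintype.card (Mu k m) = m := by
  obtain ⟨ζ, hζ⟩ := HasEnoughRootsOfUnity.exists_primitiveRoot k m
  rw [Fintype.card_eq_nat_card]
  have h1 := hζ.card_rootsOfUnity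
  exact h1

omit [NeZero m'] in
/-- the sum of the values of an injective character -/
theorem sum_chi (hm : 2 ≤ m) {χ : Mu k m →* kˣ} (hχ : Function.Injective χ) :
    ∑ a, ((χ a : kˣ) : k) = 0 := by
  obtain ⟨b, hb⟩ : ∃ b : Mu k m, b ≠ 1 := by
    have h1 : 1 < Fintype.card (Mu k m) := by
      rw [card_mu]
      omega
    have := Fintype.one_lt_card_iff_nontrivial.1 h1
    exact exists_ne 1
  have h2 : ((χ b : kˣ) : k) ≠ 1 := by
    intro h
    apply hb
    apply hχ
    rw [map_one]
    exact Units.ext h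
  have h3 : ((χ b : kˣ) : k) * ∑ a, ((χ a : kˣ) : k) = ∑ a, ((χ a : kˣ) : k) := by
    rw [Finset.mul_sum]
    refine Fintype.sum_equiv (Equiv.mulLeft b) _ _ fun a => ?_
    simp
  have h4 : (((χ b : kˣ) : k) - 1) * ∑ a, ((χ a : kˣ) : k) = 0 := by
    rw [sub_mul, one_mul, h3, sub_self]
  rcases mul_eq_zero.1 h4 with h5 | h5
  · exact absurd (sub_eq_zero.1 h5) h2
  · exact h5

omit [NeZero m] [NeZero m'] [IsAlgClosed k] [CharZero k] in
/-- Valuation rings are integrally closed. -/
theorem mem_of_pow {K : Type} [Field K] [Algebra k K] (v : Place k K) {x : K} {n : ℕ}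
    (hn : n ≠ 0) (h : x ^ n ∈ v.ring) : x ∈ v.ring := by
  rcases v.ring.mem_or_inv_mem x with h1 | h1
  · exact h1
  · by_cases hx : x = 0
    · rw [hx]
      exact zero_mem _
    · obtain ⟨n, rfl⟩ := Nat.exists_eq_succ_of_ne_zero hn
      have h2 := mul_mem h (pow_mem h1 n)
      have e : x ^ (n + 1) * x⁻¹ ^ n = x := by
        rw [pow_succ, mul_assoc, mul_comm x, ← mul_assoc, ← mul_pow, mul_inv_cancel₀ hx, one_pow,
          one_mul]
      rwa [Nat.succ_eq_add_one, e] at h2

omit [NeZero m'] in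
theorem exists_val {W : Cov k m} {K : Type} [Field K] [Algebra k K] (hK : IsCurve k K)
    (v : Place k K) (P : Pt W K) : ∃ p, IsVal v P p := by
  have := GT.hasRes_of_isCurve hK
  obtain ⟨l, y, hl, hy, h⟩ := GT.exists_scale v P.x P.ne
  have h1 : (l ^ W.e * P.w) ^ m = MvPolynomial.aeval (l • P.x) W.f := by
    rw [aeval_hom W.hom, ← P.on, mul_pow, ← pow_mul, mul_comm W.e m]
  have h2 : v.At ((l ^ W.e * P.w) ^ m) (MvPolynomial.aeval y W.f) := by
    rw [h1]
    exact at_aeval W.f h
  obtain ⟨c, hc⟩ := exists_at hK v (mem_of_pow v (NeZero.ne m) h2.mem)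
  exact ⟨⟨y, c, hy, (hc.pow m).unique h2⟩, l, h, hc⟩

/-- a function with a zero -/
theorem exists_ord_ne : ∃ (K : Type) (_ : Field K) (_ : Algebra k K) (_ : IsCurve k K)
    (v : Place k K) (g : K), g ≠ 0 ∧ ord v g ≠ 0 := by
  obtain ⟨K, _, hK, _, ht, _⟩ := GT.exists_field (k := k) (m := 0) (X := ∅)
    (fun f hf => absurd hf (Set.notMem_empty f)) ∅ (J := Empty) (fun j => j.elim)
  obtain ⟨t, ht, _⟩ := id hK
  have h1 : ∃ v : Place k K, t ∉ v.ring := by
    by_contra h
    push Not at h
    obtain ⟨a, ha⟩ := const_of_regular hK h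
    exact ht (ha ▸ isAlgebraic_algebraMap a)
  obtain ⟨v, hv⟩ := h1
  have ht0 : t ≠ 0 := by
    rintro rfl
    exact hv (zero_mem _)
  refine ⟨K, inferInstance, inferInstance, hK, v, t, ht0, ?_⟩
  rw [mem_iff_ord hK ht0] at hv
  omega

variable {V : Type} [AddCommGroup V] [Module k V] {χ : Mu k m →* kˣ} {χ' : Mu k m' →* kˣ}
  {W : Cov k m} {W' : Cov k m'} (G : Bi χ χ' W W' V)

omit [NeZero m] [NeZero m'] in
theorem Bi.scale1 (c : k) (hc : c ≠ 0) (p : Pt W k) (p' : Pt W' k) :
    G.F (p.scale c hc) p' = G.F p p' := by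
  classical
  obtain ⟨K, _, _, hK, v₀, g, hg, hg0⟩ := exists_ord_ne (k := k)
  have h1 := G.rel K hK (p.base K) (p'.base K) (fun _ => p) (fun _ => p')
    (fun v => isVal_base v p) (fun v => isVal_base v p') g hg
  have h2 := G.rel K hK (p.base K) (p'.base K) (fun v => if v = v₀ then p.scale c hc else p)
    (fun _ => p') (fun v => by
      split_ifs
      · exact isVal_scale (isVal_base v p) c hc
      · exact isVal_base v p) (fun v => isVal_base v p') g hg
  have h3 : ((dv hK g).sum fun v a => a • G.F (if v = v₀ then p.scale c hc else p) p') -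
      ((dv hK g).sum fun _ a => a • G.F p p') =
      ord v₀ g • (G.F (p.scale c hc) p' - G.F p p') := by
    rw [Finsupp.sum, Finsupp.sum, ← Finset.sum_sub_distrib, Finset.sum_eq_single v₀]
    · rw [if_pos rfl, smul_sub]
      rfl
    · intro v _ hv
      rw [if_neg hv, sub_self]
    · intro h
      rw [Finsupp.notMem_support_iff] at h
      rw [h, zero_smul, zero_smul, sub_self]
  rw [h1, h2, sub_zero] at h3
  have h4 : ((ord v₀ g : ℤ) : k) • (G.F (p.scale c hc) p' - G.F p p') = 0 := by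
    rw [Int.cast_smul_eq_zsmul]
    exact h3.symm
  rcases smul_eq_zero.1 h4 with h5 | h5
  · exact absurd (Int.cast_eq_zero.1 h5) hg0
  · exact sub_eq_zero.1 h5

omit [NeZero m] [NeZero m'] in
theorem Bi.scale2 (c : k) (hc : c ≠ 0) (p : Pt W k) (p' : Pt W' k) :
    G.F p (p'.scale c hc) = G.F p p' :=
  G.flip.scale1 c hc p' p

omit [NeZero m'] in
/-- an injective character is not trivial -/
theorem exists_chi (hm : 2 ≤ m) (hχ : Function.Injective χ) :
    ∃ a : Mu k m, ((χ a : kˣ) : k) ≠ 1 := by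
  obtain ⟨b, hb⟩ : ∃ b : Mu k m, b ≠ 1 := by
    have h1 : 1 < Fintype.card (Mu k m) := by
      rw [card_mu]
      omega
    have := Fintype.one_lt_card_iff_nontrivial.1 h1
    exact exists_ne 1
  refine ⟨b, fun h => hb (hχ ?_)⟩
  rw [map_one]
  exact Units.ext h

omit [NeZero m'] in
theorem Bi.zero1 (hm : 2 ≤ m) (hχ : Function.Injective χ) {p : Pt W k} (h : p.w = 0)
    (p' : Pt W' k) : G.F p p' = 0 := by
  obtain ⟨a, ha⟩ := exists_chi hm hχ
  have h1 := G.eq1 a p p'
  rw [Pt.tw_of_zero a h] at h1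
  have h2 : (((χ a : kˣ) : k) - 1) • G.F p p' = 0 := by
    rw [sub_smul, one_smul, ← h1, sub_self]
  rcases smul_eq_zero.1 h2 with h3 | h3
  · exact absurd (sub_eq_zero.1 h3) ha
  · exact h3

omit [NeZero m] [IsAlgClosed k] [CharZero k] in
theorem inv_inj (hχ : Function.Injective χ) : Function.Injective (χ⁻¹ : Mu k m →* kˣ) := by
  intro a b h
  apply hχ
  have h1 : (χ a)⁻¹ = (χ b)⁻¹ := h
  exact inv_injective h1

omit [NeZero m] in
theorem Bi.zero2 (hm : 2 ≤ m') (hχ : Function.Injective χ') (p : Pt W k) {p' : Pt W' k}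
    (h : p'.w = 0) : G.F p p' = 0 :=
  G.flip.zero1 hm (inv_inj hχ) h p

omit [NeZero m] in
/-- the same factor in both variables -/
theorem Bi.diag {W W' : Cov k m} (G : Bi χ χ W W' V) (a : Mu k m) (p : Pt W k) (p' : Pt W' k) :
    G.F (p.tw a) (p'.tw a) = G.F p p' := by
  rw [G.eq1, G.eq2, smul_smul, map_inv]
  simp

end Pool.Agent.CYU
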