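import Pool.Agent.CYU.PolA
import Pool.Agent.CYU.HomA
import Pool.Agent.CYU.PtA
import Pool.Agent.CYU.KruA

/-!
# Families: lines `p(T)` with `f(p(T)) = A(T) ^ m + B(T) ^ j + c T ^ (m e)`

Proof of `exists_fam`. Unknowns: the coordinates `x1 i`, `i ≠ i₀`, and the coefficients of `A`
with the indices `1, …, e` and of `B` with the indices `1, …, ν e`: `n + e + ν e` unknowns. `f(z.x
+ x1 T)` is a polynomial in `T` of degree at most `m e`, its coefficients are polynomials in the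
unknowns. Equations: the coefficients of `T ^ i`, `1 ≤ i < m e`, in `f(z.x + x1 T) - A ^ m - B ^
j` are zero: `m e - 1 < n + e + ν e` equations, all of them vanish at the origin.
`ZIso.exists_ne_zero`. The coefficient of `T ^ 0` is `f(z.x) - a0 ^ m - b0 ^ j = 0`, and `c` is
the coefficient of `T ^ (m e)`. (As a polynomial identity over the polynomial ring in the
unknowns, or with `MvPolynomial.aeval` into `K[X]`.)

`Fam.heval`: the homogeneous form of `eq` (`m = j ν`); for `t ≠ 0` it is `t ^ (m e)` times `eq` at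
`s / t`, for `t = 0` the coefficient of `T ^ (m e)` in `eq`.
`Fam.x1_ne`: if `c = 0` then `x1 ≠ 0`: otherwise `A ^ m + B ^ j = f(z.x) = z.w ^ m` is constant,
not zero, so `A` and `B` are constant (`const_of`), contradiction to `nt`.
`exists_ct`: if `c ≠ 0` take `c`, otherwise `x1 i ≠ 0` for some `i` and `c' = x1 i ^ (m e)`.
-/

set_option autoImplicit false

noncomputable section

namespace Pool.Agent.CYU

open Pool.Agent.ZCyc Pool.Agent.Dess Pool.Agent.TInc Polynomial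

variable {k : Type} [Field k] {m : ℕ}

/-- A line `p(T) = z.x + x1 T` through the point `z.x`, `x1 i₀ = 0`, and polynomials `A`, `B` of
degree at most `e`, `ν e`, with `f(p(T)) = A(T) ^ m + B(T) ^ j + c T ^ (m e)`, not all constant. -/
structure Fam (W : Cov k m) (j ν : ℕ) (z : Pt W k) (K : Type) [Field K] [Algebra k K] where
  i₀ : Fin (W.n + 1)
  hi₀ : z.x i₀ ≠ 0
  x1 : Fin (W.n + 1) → K
  h1 : x1 i₀ = 0
  A : K[X]
  B : K[X]
  degA : A.natDegree ≤ W.e
  degB : B.natDegree ≤ ν * W.e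
  c : K
  eq : MvPolynomial.aeval (fun i => C (algebraMap k K (z.x i)) + C (x1 i) * X) W.f =
    A ^ m + B ^ j + C c * X ^ (m * W.e)
  nt : x1 ≠ 0 ∨ A.natDegree ≠ 0 ∨ B.natDegree ≠ 0

variable {W : Cov k m} {j ν : ℕ} {z : Pt W k} {K : Type} [Field K] [Algebra k K]

/-- the point of the line with the parameter `(s : t)` -/
def Fam.p (Φ : Fam W j ν z K) (s t : K) : Fin (W.n + 1) → K := fun i =>
  algebraMap k K (z.x i) * t + Φ.x1 i * s

/-- the form which belongs to `A` -/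
def Fam.a (Φ : Fam W j ν z K) (s t : K) : K := hev Φ.A W.e s t

/-- the form which belongs to `B` -/
def Fam.b (Φ : Fam W j ν z K) (s t : K) : K := hev Φ.B (ν * W.e) s t

/-- the polynomial whose roots are the `s` with `B(s) = κ A(s) ^ ν` -/
def Fam.Q (Φ : Fam W j ν z K) (κ : K) : K[X] := Φ.B - C κ * Φ.A ^ ν

theorem Fam.heval (hex : Ex m j ν) (Φ : Fam W j ν z K) (s t : K) :
    MvPolynomial.aeval (Φ.p s t) W.f =
      Φ.a s t ^ m + Φ.b s t ^ j + Φ.c * s ^ (m * W.e) := by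
  have h1 := aeval_line W.hom (fun i => algebraMap k K (z.x i)) Φ.x1 s t
  have h2 : MvPolynomial.aeval (Φ.p s t) W.f =
      hev (Φ.A ^ m + Φ.B ^ j + C Φ.c * X ^ (m * W.e)) (m * W.e) s t := by
    rw [← Φ.eq, ← h1]
    rfl
  have h3 : ∀ w : ℕ, j * (ν * w) = m * w := fun w => by
    rw [hex.mul]
    ring
  have h4 := hev_pow Φ.degB j s t
  rw [h3] at h4
  rw [h2, hev_add, hev_add, hev_C_mul, hev_X_pow, hev_pow Φ.degA m s t, h4]
  rfl

theorem Fam.p_i₀ (Φ : Fam W j ν z K) (s t : K) :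
    Φ.p s t Φ.i₀ = algebraMap k K (z.x Φ.i₀) * t := by
  unfold Fam.p
  rw [Φ.h1, zero_mul, add_zero]

theorem Fam.p_ne (Φ : Fam W j ν z K) {s t : K} (ht : t ≠ 0) : Φ.p s t ≠ 0 := by
  intro h
  have h1 := congrFun h Φ.i₀
  rw [Φ.p_i₀, Pi.zero_apply, mul_eq_zero, map_eq_zero] at h1
  rcases h1 with h1 | h1
  · exact Φ.hi₀ h1
  · exact ht h1

theorem aeval_const (z : Pt W k) :
    MvPolynomial.aeval (fun i => (C (algebraMap k K (z.x i)) : K[X])) W.f =
      C (algebraMap k K (z.w ^ m)) := by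
  rw [z.on]
  exact MvPolynomial.aeval_algebraMap_apply (B := K[X]) z.x W.f

theorem Fam.base [NeZero m] (Φ : Fam W j ν z K) : Φ.A.coeff 0 ^ m + Φ.B.coeff 0 ^ j =
    algebraMap k K (z.w ^ m) := by
  have h0 : ∀ P : K[X], (evalRingHom (0 : K)) P = P.coeff 0 := fun P => by
    rw [coe_evalRingHom, coeff_zero_eq_eval_zero]
  have h1 : (evalRingHom (0 : K)) (MvPolynomial.aeval
      (fun i => C (algebraMap k K (z.x i)) + C (Φ.x1 i) * X) W.f) =
      algebraMap k K (z.w ^ m) := by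
    have h2 := MvPolynomial.eval₂_comp_left (evalRingHom (0 : K)) (algebraMap k K[X])
      (fun l => C (algebraMap k K (z.x l)) + C (Φ.x1 l) * X) W.f
    rw [MvPolynomial.aeval_def, h2, z.on]
    have h3 : (fun l => algebraMap k K (z.x l)) =
        (evalRingHom (0 : K)) ∘ (fun l => C (algebraMap k K (z.x l)) + C (Φ.x1 l) * X) := by
      funext l
      simp
    have h4 : (evalRingHom (0 : K)).comp (algebraMap k K[X]) = algebraMap k K := by
      ext t
      simp [Polynomial.algebraMap_apply]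
    rw [← h3, h4]
    have h5 := MvPolynomial.aeval_algebraMap_apply (B := K) z.x W.f
    rw [MvPolynomial.aeval_def] at h5
    exact h5
  have hme : m * W.e ≠ 0 := mul_ne_zero (NeZero.ne m) W.pos.ne'
  rw [Φ.eq, map_add, map_add, map_pow, map_pow, map_mul, map_pow, h0, h0] at h1
  rw [← h1]
  simp [hme]

theorem Fam.q_deg (Φ : Fam W j ν z K) (κ : K) : (Φ.Q κ).natDegree ≤ ν * W.e := by
  refine (natDegree_sub_le _ _).trans (max_le Φ.degB ((natDegree_C_mul_le _ _).trans ?_))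
  exact natDegree_pow_le_of_le ν Φ.degA

/-- the form which belongs to `Q` -/
theorem Fam.q_hev (hex : Ex m j ν) (Φ : Fam W j ν z K) (κ s t : K) :
    hev (Φ.Q κ) (ν * W.e) s t = Φ.b s t - κ * Φ.a s t ^ ν := by
  rw [Fam.Q, hev_sub, hev_C_mul, hev_pow Φ.degA]
  rfl

theorem Fam.om_pow (hex : Ex m j ν) (Φ : Fam W j ν z K) {κ θ : K} (hθ : θ ^ m = 1 + κ ^ j)
    {s t : K} (h : Φ.b s t = κ * Φ.a s t ^ ν) :
    (θ * Φ.a s t) ^ m = Φ.a s t ^ m + Φ.b s t ^ j := by
  have h1 : (Φ.a s t ^ ν) ^ j = Φ.a s t ^ m := by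
    rw [← pow_mul, mul_comm ν j, ← hex.mul]
  rw [h, mul_pow, mul_pow, hθ, h1]
  ring

/-- at the roots of `Q` -/
theorem Fam.root (hex : Ex m j ν) (Φ : Fam W j ν z K) {κ : K} (h : Φ.Q κ ≠ 0) :
    (∀ s ∈ (Φ.Q κ).roots, Φ.b s 1 = κ * Φ.a s 1 ^ ν) ∧
      ((Φ.Q κ).natDegree < ν * W.e → Φ.b 1 0 = κ * Φ.a 1 0 ^ ν) := by
  constructor
  · intro s hs
    have h1 : (Φ.Q κ).eval s = 0 := (mem_roots h).1 hs
    have h2 := Φ.q_hev hex κ s 1
    rw [hev_one (Φ.q_deg κ), h1] at h2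
    exact (sub_eq_zero.1 h2.symm)
  · intro hd
    have h2 := Φ.q_hev hex κ 1 0
    rw [hev_t_zero, coeff_eq_zero_of_natDegree_lt hd, zero_mul] at h2
    exact (sub_eq_zero.1 h2.symm)

/-- the number `c'` which replaces `c` -/
def Ct (Φ : Fam W j ν z K) (c' : K) : Prop :=
  c' ≠ 0 ∧ (c' = Φ.c ∨ (Φ.c = 0 ∧ ∃ i, c' = Φ.x1 i ^ (m * W.e)))

theorem Fam.x1_ne [CharZero k] (hex : Ex m j ν) (hz : z.w ≠ 0) (Φ : Fam W j ν z K) (h : Φ.c = 0) :
    Φ.x1 ≠ 0 := by
  intro hx
  have : CharZero K := charZero_of_injective_algebraMap (algebraMap k K).injective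
  have h1 := Φ.eq
  have h2 : (fun i => C (algebraMap k K (z.x i)) + C (Φ.x1 i) * X) =
      fun i => (C (algebraMap k K (z.x i)) : K[X]) := by
    funext i
    rw [hx, Pi.zero_apply, C_0, zero_mul, add_zero]
  rw [h2, aeval_const, h, C_0, zero_mul, add_zero] at h1
  have h3 : algebraMap k K (z.w ^ m) ≠ 0 := by
    rw [Ne, map_eq_zero]
    exact pow_ne_zero m hz
  have hmj : 0 < m ∧ 0 < j ∧ m + j + 1 ≤ m * j := by
    rcases hex with ⟨rfl, rfl, rfl⟩ | ⟨rfl, rfl, rfl⟩ <;> decide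
  obtain ⟨h4, h5⟩ := const_of hmj.1 hmj.2.1 hmj.2.2 h3 h1.symm
  rcases Φ.nt with h6 | h6 | h6
  · exact h6 hx
  · exact h6 h4
  · exact h6 h5

theorem exists_ct [CharZero k] (hex : Ex m j ν) (hz : z.w ≠ 0) (Φ : Fam W j ν z K) :
    ∃ c', Ct Φ c' := by
  by_cases h : Φ.c = 0
  · obtain ⟨i, hi⟩ := Function.ne_iff.1 (Φ.x1_ne hex hz h)
    exact ⟨Φ.x1 i ^ (m * W.e), pow_ne_zero _ hi, Or.inr ⟨h, i, rfl⟩⟩
  · exact ⟨Φ.c, h, Or.inl rfl⟩

theorem exists_fam [IsAlgClosed k] [CharZero k] [IsAlgClosed K] (hex : Ex m j ν)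
    (hn : W.e ≤ W.n) (z : Pt W k) {a0 b0 : K} (h : a0 ^ m + b0 ^ j = algebraMap k K (z.w ^ m)) :
    ∃ Φ : Fam W j ν z K, Φ.A.coeff 0 = a0 ∧ Φ.B.coeff 0 = b0 := by
  obtain ⟨i₀, hi₀⟩ := Function.ne_iff.1 z.ne
  obtain ⟨hm, -, -, hν⟩ := hex.two_le
  have hjb : ∀ w : ℕ, j * (ν * w) = m * w := fun w => by
    rw [hex.mul]
    ring
  have hcount : m * W.e ≤ W.n + W.e + ν * W.e := by
    calc m * W.e ≤ (ν + 2) * W.e := Nat.mul_le_mul_right _ hν
      _ = W.e + W.e + ν * W.e := by ring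
      _ ≤ W.n + W.e + ν * W.e := by omega
  obtain ⟨x1, A, B, c, h1, h2, h3, h4, h5, h6, h7⟩ := exists_line (K := K)
    (Nat.mul_pos (by omega) W.pos) W.hom z.x i₀ rfl (hjb W.e) hcount (by rw [h, z.on])
  exact ⟨⟨i₀, hi₀, x1, h1, A, B, h2, h3, c, h6, h7⟩, h4, h5⟩

/-- the same family over a larger field -/
def Fam.map {L : Type} [Field L] [Algebra k L] (Φ : Fam W j ν z K) (φ : K →ₐ[k] L) :
    Fam W j ν z L where
  i₀ := Φ.i₀
  hi₀ := Φ.hi₀
  x1 i := φ (Φ.x1 i)
  h1 := by rw [Φ.h1, map_zero]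
  A := Φ.A.map φ
  B := Φ.B.map φ
  degA := Polynomial.natDegree_map_le.trans Φ.degA
  degB := Polynomial.natDegree_map_le.trans Φ.degB
  c := φ Φ.c
  eq := by
    have h1 := congrArg (Polynomial.mapAlgHom φ) Φ.eq
    have h2 : Polynomial.mapAlgHom φ (MvPolynomial.aeval
        (fun i => C (algebraMap k K (z.x i)) + C (Φ.x1 i) * X) W.f) =
        MvPolynomial.aeval (fun i => C (algebraMap k L (z.x i)) + C (φ (Φ.x1 i)) * X) W.f := by
      have h3 := MvPolynomial.comp_aeval_apply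
        (f := fun i => C (algebraMap k K (z.x i)) + C (Φ.x1 i) * X)
        (φ := Polynomial.mapAlgHom φ) W.f
      rw [h3]
      congr 2
      funext i
      simp
    rw [h2] at h1
    rw [h1]
    simp
  nt := by
    rcases Φ.nt with h | h | h
    · left
      intro h0
      apply h
      funext i
      have h1 := congrFun h0 i
      simpa using h1
    · right
      left
      rwa [natDegree_map_eq_of_injective (φ : K →+* L).injective]
    · right
      right
      rwa [natDegree_map_eq_of_injective (φ : K →+* L).injective]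

theorem Fam.map_ab {L : Type} [Field L] [Algebra k L] (Φ : Fam W j ν z K) (φ : K →ₐ[k] L)
    (s t : K) :
    (Φ.map φ).a (φ s) (φ t) = φ (Φ.a s t) ∧ (Φ.map φ).b (φ s) (φ t) = φ (Φ.b s t) :=
  ⟨hev_map φ.toRingHom Φ.A W.e s t, hev_map φ.toRingHom Φ.B (ν * W.e) s t⟩

theorem Ct.map {L : Type} [Field L] [Algebra k L] {Φ : Fam W j ν z K} (φ : K →ₐ[k] L) {c' : K}
    (h : Ct Φ c') : Ct (Φ.map φ) (φ c') := by
  refine ⟨?_, ?_⟩
  · rw [Ne, map_eq_zero]
    exact h.1
  · rcases h.2 with h1 | ⟨h1, i, h2⟩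
    · left
      rw [h1]
      rfl
    · right
      refine ⟨?_, i, ?_⟩
      · change φ Φ.c = 0
        rw [h1, map_zero]
      · rw [h2, map_pow]
        rfl

/-- If all coefficients of the family are in the intermediate field `E` then the family is defined
over `E`. -/
theorem Fam.restr {E : IntermediateField k K} (Φ : Fam W j ν z K) (hx : ∀ i, Φ.x1 i ∈ E)
    (hA : ∀ i, Φ.A.coeff i ∈ E) (hB : ∀ i, Φ.B.coeff i ∈ E) (hc : Φ.c ∈ E) :
    ∃ Ψ : Fam W j ν z E, (∀ i, (Ψ.x1 i : K) = Φ.x1 i) ∧ (∀ i, (Ψ.A.coeff i : K) = Φ.A.coeff i) ∧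
      (∀ i, (Ψ.B.coeff i : K) = Φ.B.coeff i) ∧ (Ψ.c : K) = Φ.c := by
  have hlift : ∀ P : K[X], (∀ i, P.coeff i ∈ E) → ∃ P' : E[X], P'.map (algebraMap E K) = P := by
    intro P hP
    have h1 : P ∈ Polynomial.lifts (algebraMap E K) := by
      rw [Polynomial.lifts_iff_coeff_lifts]
      intro n
      exact ⟨⟨P.coeff n, hP n⟩, rfl⟩
    exact (Polynomial.mem_lifts P).1 h1
  obtain ⟨A', hA'⟩ := hlift Φ.A hA
  obtain ⟨B', hB'⟩ := hlift Φ.B hB
  have hinj : Function.Injective (algebraMap E K) := (algebraMap E K).injective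
  have hdA : A'.natDegree = Φ.A.natDegree := by
    rw [← hA', natDegree_map_eq_of_injective hinj]
  have hdB : B'.natDegree = Φ.B.natDegree := by
    rw [← hB', natDegree_map_eq_of_injective hinj]
  refine ⟨⟨Φ.i₀, Φ.hi₀, fun i => ⟨Φ.x1 i, hx i⟩, ?_, A', B', ?_, ?_, ⟨Φ.c, hc⟩, ?_, ?_⟩,
    fun i => rfl, fun i => ?_, fun i => ?_, rfl⟩
  · exact Subtype.ext Φ.h1
  · rw [hdA]
    exact Φ.degA
  · rw [hdB]
    exact Φ.degB
  · apply Polynomial.map_injective _ hinj
    have h2 : Polynomial.mapAlgHom (E.val) (MvPolynomial.aeval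
        (fun i => C (algebraMap k E (z.x i)) + C (⟨Φ.x1 i, hx i⟩ : E) * X) W.f) =
        MvPolynomial.aeval (fun i => C (algebraMap k K (z.x i)) + C (Φ.x1 i) * X) W.f := by
      have h3 := MvPolynomial.comp_aeval_apply
        (f := fun i => C (algebraMap k E (z.x i)) + C (⟨Φ.x1 i, hx i⟩ : E) * X)
        (φ := Polynomial.mapAlgHom E.val) W.f
      rw [h3]
      congr 2
      funext i
      simp
    have h4 : (MvPolynomial.aeval
        (fun i => C (algebraMap k E (z.x i)) + C (⟨Φ.x1 i, hx i⟩ : E) * X) W.f).map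
        (algebraMap E K) =
        MvPolynomial.aeval (fun i => C (algebraMap k K (z.x i)) + C (Φ.x1 i) * X) W.f := h2
    rw [h4, Φ.eq, Polynomial.map_add, Polynomial.map_add, Polynomial.map_pow,
      Polynomial.map_pow, Polynomial.map_mul, Polynomial.map_pow, map_X, map_C, hA', hB']
    rfl
  · rcases Φ.nt with h | h | h
    · left
      intro h0
      apply h
      funext i
      have h1 := congrFun h0 i
      exact congrArg Subtype.val h1
    · right
      left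
      rwa [hdA]
    · right
      right
      rwa [hdB]
  · have h1 := congrArg (fun P : K[X] => P.coeff i) hA'
    simp only [coeff_map] at h1
    exact h1
  · have h1 := congrArg (fun P : K[X] => P.coeff i) hB'
    simp only [coeff_map] at h1
    exact h1

end Pool.Agent.CYU
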