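import Pool.Agent.CYU.CtrA
import Pool.Agent.CYU.FamA
import Pool.Agent.GT.Fld

/-!
# Contributions for families with constant coefficients

`Φ` is a family over `k`, `s ∈ K` is not constant, `Φ.map (Algebra.ofId k K)` the same family over `K`. Let
`X = (Φ.map _).p s 1`, `X i = z.x i + x1 i s`.
`over_not`: if `s` has a value `τ ≠ 0` at `v` then `X` is regular with a value `≠ 0` (the coordinate `i₀` is the constant
`z.x i₀ ≠ 0`) and `ord (c' s ^ (m e)) = 0`: `not_spec`. If `s` is not regular at `v`, `ord s = - h`, `h > 0`, and `l` is a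
factor in `Spec`: `l (z.x i₀)` is regular, so `l` is; `l X` has a value `≠ 0` while `X / s` is
regular, so `ord l ≤ h`; `ord (l ^ (m e) c' s ^ (m e)) = m e (ord l - h) ≤ 0`, contradiction.
`over_zero`: `s` vanishes at `v`: `X` has the value `z.x`, `l = 1`, `ord (c' s ^ (m e)) = m e ord s > 0`.
`over_fin`: the sum is `(n * ∑ ord v s) • x`, over the places where `s` vanishes; the sum of the orders is the
degree of the field extension (`deg_zeros'`), positive; `V` is a vector space over `k`.
`exists_curve`: a field generated over `k` by finitely many elements of `Om k`, which contains `tt k`, is the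
function field of a curve (`GT/Fld.lean`, `fld_isCurve`).
-/

set_option autoImplicit false

noncomputable section

namespace Pool.Agent.CYU

open Pool.Agent.ZCyc Pool.Agent.Dess Pool.Agent.TInc Polynomial
open Pool.Agent.VFP (Om tt)

variable {k : Type} [Field k] [IsAlgClosed k] [CharZero k] {m : ℕ} [NeZero m] {j ν : ℕ}
  {V : Type} [AddCommGroup V] [Module k V] {W : Cov k m} {K : Type} [Field K] [Algebra k K]

omit [IsAlgClosed k] [CharZero k] [NeZero m] in
private lemma over_p {z : Pt W k} (Φ : Fam W j ν z k) (s : K) (i : Fin (W.n + 1)) :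
    (Φ.map (Algebra.ofId k K)).p s 1 i = algebraMap k K (z.x i) + algebraMap k K (Φ.x1 i) * s := by
  show algebraMap k K (z.x i) * 1 + algebraMap k K (Φ.x1 i) * s = _
  rw [mul_one]

omit [NeZero m] in
private lemma over_ord (hK : IsCurve k K) {v : Place k K} {s : K} (hs : s ≠ 0) {c' : k}
    (hc' : c' ≠ 0) (N : ℕ) : ord v (algebraMap k K c' * s ^ N) = N * ord v s := by
  have h1 : algebraMap k K c' ≠ 0 := by
    rw [Ne, map_eq_zero]
    exact hc'
  rw [ord_mul hK v h1 (pow_ne_zero _ hs), ord_const hK, ord_pow hK, zero_add]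

omit [Module k V] in
theorem over_not (hK : IsCurve k K) {z : Pt W k} (Φ : Fam W j ν z k) {v : Place k K} {s : K}
    (hs : ¬ v.Vanishes s) (ω : K) {c' : k} (hc' : c' ≠ 0) (g : Pt W k → V) :
    ctr g v ((Φ.map (Algebra.ofId k K)).p s 1) ω (algebraMap k K c' * s ^ (m * W.e)) = 0 := by
  have hs0 : s ≠ 0 := by
    rintro rfl
    exact hs v.vanishes_zero
  have hle : ord v s ≤ 0 := by
    by_contra hcon
    exact hs ((vanishes_iff_ord hK hs0).2 (not_le.1 hcon))
  have hN : (0 : ℤ) ≤ (m * W.e : ℕ) := Int.natCast_nonneg _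
  apply ctr_zero
  by_cases hreg : s ∈ v.ring
  · obtain ⟨τ, hτ⟩ := exists_at hK v hreg
    refine not_spec hK (l := 1) (ξ := fun i => z.x i + Φ.x1 i * τ) (fun i => ?_) ?_ (Or.inr ?_)
    · rw [one_mul, over_p]
      exact (Place.at_const _).add ((Place.at_const _).mul hτ)
    · intro h
      apply Φ.hi₀
      have h1 := congrFun h Φ.i₀
      simpa [Φ.h1] using h1
    · rw [one_pow, one_mul, over_ord hK hs0 hc']
      exact mul_nonpos_of_nonneg_of_nonpos hN hle
  · have hinv : v.At s⁻¹ 0 := by
      rw [Place.at_zero_iff, Place.vanishes_iff_or, inv_inv]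
      exact Or.inr hreg
    by_cases hx : Φ.x1 = 0
    · refine not_spec hK (l := 1) (ξ := z.x) (fun i => ?_) z.ne (Or.inr ?_)
      · rw [one_mul, over_p, hx, Pi.zero_apply, _root_.map_zero, zero_mul, add_zero]
        exact Place.at_const _
      · rw [one_pow, one_mul, over_ord hK hs0 hc']
        exact mul_nonpos_of_nonneg_of_nonpos hN hle
    · refine not_spec hK (l := s⁻¹) (ξ := Φ.x1) (fun i => ?_) hx (Or.inr ?_)
      · have e : s⁻¹ * (Φ.map (Algebra.ofId k K)).p s 1 i =
            s⁻¹ * algebraMap k K (z.x i) + algebraMap k K (Φ.x1 i) := by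
          rw [over_p]
          field_simp
        rw [e]
        have h2 := (hinv.mul (Place.at_const (z.x i))).add (Place.at_const (v := v) (Φ.x1 i))
        rwa [zero_mul, zero_add] at h2
      · have h1 : algebraMap k K c' ≠ 0 := by
          rw [Ne, map_eq_zero]
          exact hc'
        rw [ord_mul hK v (pow_ne_zero _ (inv_ne_zero hs0)) (mul_ne_zero h1 (pow_ne_zero _ hs0)),
          over_ord hK hs0 hc', ord_pow hK, ord_inv hK]
        apply le_of_eq
        ring

theorem over_zero (hK : IsCurve k K) {z : Pt W k} (hz : z.w ≠ 0) (Φ : Fam W j ν z k)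
    {v : Place k K} {s : K} (hs : v.Vanishes s) (hs0 : s ≠ 0) {ω : K} {a : Mu k m}
    (hω : v.At ω (mu k a * z.w)) {c' : k} (hc' : c' ≠ 0) {g : Pt W k → V} (hg : Inv g) :
    ctr g v ((Φ.map (Algebra.ofId k K)).p s 1) ω (algebraMap k K c' * s ^ (m * W.e)) =
      (m * W.e * ord v s) • g (z.tw a) := by
  have hat : ∀ i, v.At (1 * (Φ.map (Algebra.ofId k K)).p s 1 i) (z.x i) := by
    intro i
    rw [one_mul, over_p]
    have h2 := (Place.at_const (v := v) (z.x i)).add
      ((Place.at_const (Φ.x1 i)).mul (Place.at_zero_iff.2 hs))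
    rwa [mul_zero, add_zero] at h2
  have hpos : 0 < ord v s := (vanishes_iff_ord hK hs0).1 hs
  have hN : 0 < m * W.e := Nat.mul_pos (Nat.pos_of_ne_zero (NeZero.ne m)) W.pos
  have hord : ord v (1 ^ (m * W.e) * (algebraMap k K c' * s ^ (m * W.e))) =
      m * W.e * ord v s := by
    rw [one_pow, one_mul, over_ord hK hs0 hc']
    push_cast
    ring
  have hne : (z.tw a).w ≠ 0 := by
    show mu k a * z.w ≠ 0
    refine mul_ne_zero ?_ hz
    intro h
    have h1 := mu_pow k a
    rw [h, zero_pow (NeZero.ne m)] at h1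
    exact zero_ne_one h1
  have hspec : Spec v ((Φ.map (Algebra.ofId k K)).p s 1) ω (algebraMap k K c' * s ^ (m * W.e))
      (m * W.e * ord v s) (z.tw a) := by
    refine ⟨1, hat, ?_, hne, ?_, hord⟩
    · rw [one_pow, one_mul]
      exact hω
    · have h3 : (0 : ℤ) < (m : ℤ) * W.e := by exact_mod_cast hN
      exact mul_pos h3 hpos
  exact ctr_eq hK hg hspec

theorem over_fin (hK : IsCurve k K) {s : K} (hs : Transcendental k s) {n : ℕ}
    (hn : 0 < n) {F : Place k K → V} {x : V} (h0 : ∀ v, ¬ v.Vanishes s → F v = 0)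
    (h1 : ∀ v, v.Vanishes s → F v = (n * ord v s) • x) (hsum : ∑ᶠ v, F v = 0) : x = 0 := by
  have hs0 : s ≠ 0 := by
    rintro rfl
    exact hs isAlgebraic_zero
  have hfin : {v : Place k K | v.Vanishes s}.Finite := by
    apply (finite_ord hK s).subset
    intro v hv
    exact ((vanishes_iff_ord hK hs0).1 hv).ne'
  have hex : ∃ v : Place k K, v.Vanishes s := by
    by_contra hcon
    push Not at hcon
    obtain ⟨a, ha⟩ := const_of_regular hK (f := s⁻¹) (fun v => by
      by_contra h
      exact hcon v ((Place.vanishes_iff_or _ _).2 (Or.inr h)))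
    apply hs
    have h2 : s = algebraMap k K a⁻¹ := by
      rw [map_inv₀, ← ha, inv_inv]
    rw [h2]
    exact isAlgebraic_algebraMap _
  rw [finsum_eq_sum_of_support_subset (s := hfin.toFinset) F (by
    intro v hv
    rw [Set.Finite.coe_toFinset]
    by_contra h
    exact hv (h0 v h))] at hsum
  have h2 : ∑ v ∈ hfin.toFinset, F v = (∑ v ∈ hfin.toFinset, ((n : ℤ) * ord v s)) • x := by
    rw [Finset.sum_smul]
    exact Finset.sum_congr rfl fun v hv => h1 v (hfin.mem_toFinset.1 hv)
  rw [h2, ← Int.cast_smul_eq_zsmul k] at hsum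
  refine (smul_eq_zero.1 hsum).resolve_left ?_
  rw [← Ne, Int.cast_ne_zero]
  apply ne_of_gt
  apply Finset.sum_pos
  · intro v hv
    exact mul_pos (by exact_mod_cast hn) ((vanishes_iff_ord hK hs0).1 (hfin.mem_toFinset.1 hv))
  · obtain ⟨v, hv⟩ := hex
    exact ⟨v, hfin.mem_toFinset.2 hv⟩

theorem exists_curve (S : Set (Om k)) (hS : S.Finite) :
    ∃ K : IntermediateField k (Om k), IsCurve k K ∧ tt k ∈ K ∧ S ⊆ K := by
  obtain ⟨K, -, h1, h2, h3, -⟩ := GT.exists_field (k := k) (m := 0) (X := ∅)
    (fun f hf => absurd hf (Set.notMem_empty f)) hS.toFinset (J := Empty) (fun e => e.elim)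
  exact ⟨K, h1, h3, by simpa using h2⟩

omit [IsAlgClosed k] [CharZero k] in
theorem transc_tt : Transcendental k (tt k) := by
  have h : Transcendental k (RatFunc.X : RatFunc k) := RatFunc.transcendental_X
  exact (transcendental_algebraMap_iff (R := k) (S := RatFunc k) (A := Om k)
    (algebraMap (RatFunc k) (Om k)).injective (a := RatFunc.X)).2 h

end Pool.Agent.CYU
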