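import Pool.Agent.CYU.FamA

/-!
# The reduction of a family at a place

Proof of `exists_scale`. Let `Γ` be the finite set of the `x1 i`, the roots `ρ` of `A_i` (`ρ ^ i =
A_i`, `i > 0`, `i ≤ e`), of `B_i` (`0 < i ≤ ν e`) and of `c` (`Rad`). Not all elements of `Γ` are
zero (`nt`). Let `γ ∈ Γ`, `γ ≠ 0`, be an element of the smallest order at `v`, and `r = γ⁻¹`. Then
`r δ` is regular at `v` for all `δ ∈ Γ`, and it is a unit for `δ = γ`. So the numbers `r x1 i`, `r
^ i A_i = (r ρ) ^ i`, `r ^ i B_i`, `r ^ (m e) c` are regular (for `i = 0` by `hA`, `hB`), and one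
of them (with `i > 0`) is a unit. Let `Ψ.x1`, `Ψ.A`, `Ψ.B`, `Ψ.c` be their values. `eq`:
substitute `r T` for `T` in `Φ.eq` and reduce (`Red`): `f(z.x + r x1 T) = A(r T) ^ m + B(r T) ^ j
+ c r ^ (m e) T ^ (m e)`. `nt`: one of the numbers is a unit; if it is `r ^ (m e) c` and all
others vanish then `f(z.x) = A(0) ^ m + B(0) ^ j + Ψ.c T ^ (m e)` with `Ψ.c ≠ 0`, a contradiction
(`e > 0`).
-/

set_option autoImplicit false

noncomputable section

namespace Pool.Agent.CYU

open Pool.Agent.ZCyc Pool.Agent.Dess Pool.Agent.TInc Polynomial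

variable {k : Type} [Field k] {m : ℕ} {W : Cov k m} {j ν : ℕ} {z : Pt W k} {K : Type} [Field K]
  [Algebra k K]

section gen

variable {v : Place k K}

theorem Red.prod' {ι : Type*} {s : Finset ι} {P : ι → K[X]} {p : ι → k[X]}
    (h : ∀ i ∈ s, Red v (P i) (p i)) : Red v (∏ i ∈ s, P i) (∏ i ∈ s, p i) := by
  classical
  induction s using Finset.induction_on with
  | empty =>
    rw [Finset.prod_empty, Finset.prod_empty]
    exact Red.one
  | insert i s hi ih =>
    rw [Finset.prod_insert hi, Finset.prod_insert hi]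
    exact (h i (Finset.mem_insert_self i s)).mul
      (ih fun j hj => h j (Finset.mem_insert_of_mem hj))

/-- the reduction of the value of a form -/
theorem Red.aeval {ι : Type} [Fintype ι] (f : MvPolynomial ι k) {p : ι → K[X]} {p₀ : ι → k[X]}
    (h : ∀ i, Red v (p i) (p₀ i)) :
    Red v (MvPolynomial.aeval p f) (MvPolynomial.aeval p₀ f) := by
  rw [MvPolynomial.aeval_def, MvPolynomial.aeval_def, MvPolynomial.eval₂_eq',
    MvPolynomial.eval₂_eq']
  refine Red.sum fun d _ => ?_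
  refine Red.mul ?_ (Red.prod' fun i _ => (h i).pow (d i))
  exact Red.C (Place.at_const _)

/-- the polynomials with coefficients in the valuation ring -/
theorem coeff_mem_mul {a b : K[X]} (ha : ∀ i, a.coeff i ∈ v.ring) (hb : ∀ i, b.coeff i ∈ v.ring)
    (i : ℕ) : (a * b).coeff i ∈ v.ring := by
  rw [coeff_mul]
  exact v.ring.sum_mem fun x _ => v.ring.mul_mem _ _ (ha x.1) (hb x.2)

theorem coeff_mem_pow {a : K[X]} (ha : ∀ i, a.coeff i ∈ v.ring) (n : ℕ) (i : ℕ) :
    (a ^ n).coeff i ∈ v.ring := by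
  induction n generalizing i with
  | zero =>
    rw [pow_zero, coeff_one]
    split_ifs
    · exact v.ring.one_mem
    · exact v.ring.zero_mem
  | succ n ih =>
    rw [pow_succ]
    exact coeff_mem_mul ih ha i

theorem coeff_mem_prod {ι : Type*} {s : Finset ι} {a : ι → K[X]}
    (h : ∀ i ∈ s, ∀ j, (a i).coeff j ∈ v.ring) (j : ℕ) : (∏ i ∈ s, a i).coeff j ∈ v.ring := by
  classical
  induction s using Finset.induction_on generalizing j with
  | empty =>
    rw [Finset.prod_empty, coeff_one]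
    split_ifs
    · exact v.ring.one_mem
    · exact v.ring.zero_mem
  | insert i s hi ih =>
    rw [Finset.prod_insert hi]
    exact coeff_mem_mul (h i (Finset.mem_insert_self i s))
      (ih fun j hj => h j (Finset.mem_insert_of_mem hj)) j

theorem coeff_mem_aeval {ι : Type} [Fintype ι] (f : MvPolynomial ι k) {p : ι → K[X]}
    (h : ∀ i j, (p i).coeff j ∈ v.ring) (j : ℕ) : (MvPolynomial.aeval p f).coeff j ∈ v.ring := by
  rw [MvPolynomial.aeval_def, MvPolynomial.eval₂_eq', finsetSum_coeff]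
  refine v.ring.sum_mem fun d _ => ?_
  refine coeff_mem_mul ?_ (coeff_mem_prod fun i _ => coeff_mem_pow (h i) (d i)) j
  intro i
  rw [Polynomial.algebraMap_apply, coeff_C]
  split_ifs
  · exact v.const_mem _
  · exact v.ring.zero_mem

omit [Algebra k K] in
theorem natDegree_comp_lin_le {P : K[X]} {n : ℕ} (h : P.natDegree ≤ n) (r : K) :
    (P.comp (C r * X)).natDegree ≤ n := by
  rw [natDegree_comp]
  calc P.natDegree * (C r * X : K[X]).natDegree ≤ P.natDegree * 1 :=
        Nat.mul_le_mul_left _ (by compute_degree)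
    _ ≤ n := by rwa [mul_one]

/-- the equation with the variable multiplied by `r` -/
theorem Fam.eq_comp (Φ : Fam W j ν z K) (r : K) :
    MvPolynomial.aeval (fun i => C (algebraMap k K (z.x i)) + C (r * Φ.x1 i) * X) W.f =
      (Φ.A.comp (C r * X)) ^ m + (Φ.B.comp (C r * X)) ^ j +
        C (r ^ (m * W.e) * Φ.c) * X ^ (m * W.e) := by
  have h1 := congrArg (Polynomial.aeval (R := K) (C r * X : K[X])) Φ.eq
  have h2 : (Polynomial.aeval (R := K) (C r * X : K[X])) (MvPolynomial.aeval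
      (fun i => C (algebraMap k K (z.x i)) + C (Φ.x1 i) * X) W.f) =
      MvPolynomial.aeval (fun i => C (algebraMap k K (z.x i)) + C (r * Φ.x1 i) * X) W.f := by
    have h3 := MvPolynomial.comp_aeval_apply
      (f := fun i => C (algebraMap k K (z.x i)) + C (Φ.x1 i) * X)
      (φ := (Polynomial.aeval (R := K) (C r * X : K[X])).restrictScalars k) W.f
    have h4 : ((Polynomial.aeval (R := K) (C r * X : K[X])).restrictScalars k)
        (MvPolynomial.aeval (fun i => C (algebraMap k K (z.x i)) + C (Φ.x1 i) * X) W.f) =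
        (Polynomial.aeval (R := K) (C r * X : K[X])) (MvPolynomial.aeval
        (fun i => C (algebraMap k K (z.x i)) + C (Φ.x1 i) * X) W.f) := rfl
    rw [← h4, h3]
    congr 2
    funext i
    rw [AlgHom.restrictScalars_apply, map_add, map_mul, aeval_C, aeval_C, aeval_X, C_mul]
    change C (algebraMap k K (z.x i)) + C (Φ.x1 i) * (C r * X) = _
    ring
  rw [← h2, h1, map_add, map_add, map_pow, map_pow, map_mul, map_pow, aeval_C, aeval_X]
  change (Φ.A.comp (C r * X)) ^ m + (Φ.B.comp (C r * X)) ^ j + C Φ.c * (C r * X) ^ (m * W.e) = _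
  rw [mul_pow, C_mul, C_pow]
  ring

end gen

/-- the field contains the roots of the coefficients which are needed for the scale -/
def Rad (Φ : Fam W j ν z K) : Prop := (∀ i, 0 < i → ∃ ρ, ρ ^ i = Φ.A.coeff i) ∧
  (∀ i, 0 < i → ∃ ρ, ρ ^ i = Φ.B.coeff i) ∧ ∃ ρ, ρ ^ (m * W.e) = Φ.c

/-- `Ψ` is the reduction at `v` of the family `Φ` with the parameter multiplied by `r` -/
structure IsRed (v : Place k K) (r : K) (Φ : Fam W j ν z K) (Ψ : Fam W j ν z k) : Prop where
  r_ne : r ≠ 0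
  x1 : ∀ i, v.At (r * Φ.x1 i) (Ψ.x1 i)
  A : ∀ i, v.At (r ^ i * Φ.A.coeff i) (Ψ.A.coeff i)
  B : ∀ i, v.At (r ^ i * Φ.B.coeff i) (Ψ.B.coeff i)
  c : v.At (r ^ (m * W.e) * Φ.c) Ψ.c

theorem exists_scale [IsAlgClosed k] [CharZero k] [NeZero m] (hK : IsCurve k K) (v : Place k K)
    (Φ : Fam W j ν z K) (hr : Rad Φ) (hA : Φ.A.coeff 0 ∈ v.ring) (hB : Φ.B.coeff 0 ∈ v.ring) :
    ∃ (r : K) (Ψ : Fam W j ν z k), IsRed v r Φ Ψ := by
  classical
  obtain ⟨hrA, hrB, ρc, hρc⟩ := hr
  choose! ρA hρA using hrA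
  choose! ρB hρB using hrB
  -- the finite family
  let γ : Fin (W.n + 1) ⊕ (Fin W.e ⊕ (Fin (ν * W.e) ⊕ Unit)) → K :=
    Sum.elim Φ.x1 (Sum.elim (fun i => ρA (i.1 + 1)) (Sum.elim (fun i => ρB (i.1 + 1))
      (fun _ => ρc)))
  have hne : ∃ i, γ i ≠ 0 := by
    rcases Φ.nt with h | h | h
    · obtain ⟨i, hi⟩ := Function.ne_iff.1 h
      exact ⟨Sum.inl i, hi⟩
    · have h1 : Φ.A.coeff Φ.A.natDegree ≠ 0 := by
        rw [coeff_natDegree, Ne, leadingCoeff_eq_zero]
        intro h0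
        rw [h0, natDegree_zero] at h
        exact h rfl
      have h2 := Φ.degA
      refine ⟨Sum.inr (Sum.inl ⟨Φ.A.natDegree - 1, by omega⟩), ?_⟩
      change ρA (Φ.A.natDegree - 1 + 1) ≠ 0
      rw [Nat.sub_add_cancel (by omega)]
      intro h0
      have h3 := hρA Φ.A.natDegree (by omega)
      rw [h0, zero_pow h] at h3
      exact h1 h3.symm
    · have h1 : Φ.B.coeff Φ.B.natDegree ≠ 0 := by
        rw [coeff_natDegree, Ne, leadingCoeff_eq_zero]
        intro h0
        rw [h0, natDegree_zero] at h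
        exact h rfl
      have h2 := Φ.degB
      refine ⟨Sum.inr (Sum.inr (Sum.inl ⟨Φ.B.natDegree - 1, by omega⟩)), ?_⟩
      change ρB (Φ.B.natDegree - 1 + 1) ≠ 0
      rw [Nat.sub_add_cancel (by omega)]
      intro h0
      have h3 := hρB Φ.B.natDegree (by omega)
      rw [h0, zero_pow h] at h3
      exact h1 h3.symm
  obtain ⟨i₁, hi₁⟩ := hne
  obtain ⟨g, hg, hmin⟩ := Finset.exists_min_image
    (Finset.univ.filter fun i => γ i ≠ 0) (fun i => ord v (γ i))
    ⟨i₁, Finset.mem_filter.2 ⟨Finset.mem_univ _, hi₁⟩⟩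
  have hg0 : γ g ≠ 0 := (Finset.mem_filter.1 hg).2
  obtain ⟨r, hr⟩ : ∃ r, r = (γ g)⁻¹ := ⟨_, rfl⟩
  have hr0 : r ≠ 0 := by
    rw [hr]
    exact inv_ne_zero hg0
  have hrg : r * γ g = 1 := by
    rw [hr, inv_mul_cancel₀ hg0]
  have hmem : ∀ i, r * γ i ∈ v.ring := by
    intro i
    by_cases hi : γ i = 0
    · rw [hi, mul_zero]
      exact v.ring.zero_mem
    · have h1 := hmin i (Finset.mem_filter.2 ⟨Finset.mem_univ _, hi⟩)
      rw [mem_iff_ord hK (mul_ne_zero hr0 hi), ord_mul hK v hr0 hi, hr, ord_inv hK]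
      omega
  have hmx : ∀ i, r * Φ.x1 i ∈ v.ring := fun i => hmem (Sum.inl i)
  have hmA : ∀ i, (Φ.A.comp (C r * X)).coeff i ∈ v.ring := by
    intro i
    rw [comp_C_mul_X_coeff]
    rcases Nat.eq_zero_or_pos i with rfl | hi
    · rw [pow_zero, mul_one]
      exact hA
    · by_cases hie : i ≤ W.e
      · have h1 : r * ρA (i - 1 + 1) ∈ v.ring :=
          hmem (Sum.inr (Sum.inl ⟨i - 1, by omega⟩))
        rw [Nat.sub_add_cancel hi] at h1
        rw [← hρA i hi, mul_comm, ← mul_pow]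
        exact pow_mem h1 i
      · have h1 := Φ.degA
        rw [coeff_eq_zero_of_natDegree_lt (by omega), zero_mul]
        exact v.ring.zero_mem
  have hmB : ∀ i, (Φ.B.comp (C r * X)).coeff i ∈ v.ring := by
    intro i
    rw [comp_C_mul_X_coeff]
    rcases Nat.eq_zero_or_pos i with rfl | hi
    · rw [pow_zero, mul_one]
      exact hB
    · by_cases hie : i ≤ ν * W.e
      · have h1 : r * ρB (i - 1 + 1) ∈ v.ring :=
          hmem (Sum.inr (Sum.inr (Sum.inl ⟨i - 1, by omega⟩)))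
        rw [Nat.sub_add_cancel hi] at h1
        rw [← hρB i hi, mul_comm, ← mul_pow]
        exact pow_mem h1 i
      · have h1 := Φ.degB
        rw [coeff_eq_zero_of_natDegree_lt (by omega), zero_mul]
        exact v.ring.zero_mem
  have hmc : r ^ (m * W.e) * Φ.c ∈ v.ring := by
    rw [← hρc, ← mul_pow]
    exact pow_mem (hmem (Sum.inr (Sum.inr (Sum.inr ())))) _
  obtain ⟨A₀, hA₀, hA₀d⟩ := exists_red hK hmA
  obtain ⟨B₀, hB₀, hB₀d⟩ := exists_red hK hmB
  have hx₀ : ∀ i, v.At (r * Φ.x1 i) (val v (r * Φ.x1 i)) := fun i => at_val hK (hmx i)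
  have hc₀ : v.At (r ^ (m * W.e) * Φ.c) (val v (r ^ (m * W.e) * Φ.c)) := at_val hK hmc
  have heq : MvPolynomial.aeval
      (fun i => C (algebraMap k k (z.x i)) + C (val v (r * Φ.x1 i)) * X) W.f =
      A₀ ^ m + B₀ ^ j + C (val v (r ^ (m * W.e) * Φ.c)) * X ^ (m * W.e) := by
    refine Red.unique (v := v) (Red.aeval W.f
      (p := fun i => C (algebraMap k K (z.x i)) + C (r * Φ.x1 i) * X) fun i => ?_) ?_
    · exact (Red.C (Place.at_const _)).add ((Red.C (hx₀ i)).mul Red.X)
    · rw [Φ.eq_comp r]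
      exact ((hA₀.pow m).add (hB₀.pow j)).add ((Red.C hc₀).mul (Red.X.pow _))
  have hone : ∀ {a : K} {b : k}, v.At a b → a = 1 → b = 1 := by
    intro a b h1 h2
    rw [h2] at h1
    have h3 : v.At (1 : K) (1 : k) := by
      simpa using Place.at_const (v := v) (1 : k)
    exact h1.unique h3
  refine ⟨r, ⟨Φ.i₀, Φ.hi₀, fun i => val v (r * Φ.x1 i), ?_, A₀, B₀,
    hA₀d.trans (natDegree_comp_lin_le Φ.degA r), hB₀d.trans (natDegree_comp_lin_le Φ.degB r),
    val v (r ^ (m * W.e) * Φ.c), heq, ?_⟩, hr0, hx₀, ?_, ?_, hc₀⟩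
  · have h1 := hx₀ Φ.i₀
    rw [Φ.h1, mul_zero] at h1
    simp only [Φ.h1, mul_zero]
    exact h1.unique at_zero_zero
  · match g, hrg with
    | Sum.inl i, h =>
      left
      intro h0
      have h1 := congrFun h0 i
      rw [Pi.zero_apply, hone (hx₀ i) h] at h1
      exact one_ne_zero h1
    | Sum.inr (Sum.inl i), h =>
      right
      left
      intro h0
      have h1 := hA₀ (i.1 + 1)
      rw [comp_C_mul_X_coeff, ← hρA (i.1 + 1) (Nat.succ_pos _), mul_comm, ← mul_pow] at h1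
      have h2 := hone h1 (by
        change (r * ρA (i.1 + 1)) = 1 at h
        rw [h, one_pow])
      rw [coeff_eq_zero_of_natDegree_lt (by omega)] at h2
      exact zero_ne_one h2
    | Sum.inr (Sum.inr (Sum.inl i)), h =>
      right
      right
      intro h0
      have h1 := hB₀ (i.1 + 1)
      rw [comp_C_mul_X_coeff, ← hρB (i.1 + 1) (Nat.succ_pos _), mul_comm, ← mul_pow] at h1
      have h2 := hone h1 (by
        change (r * ρB (i.1 + 1)) = 1 at h
        rw [h, one_pow])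
      rw [coeff_eq_zero_of_natDegree_lt (by omega)] at h2
      exact zero_ne_one h2
    | Sum.inr (Sum.inr (Sum.inr ())), h =>
      by_contra hcon
      push Not at hcon
      obtain ⟨h1, h2, h3⟩ := hcon
      have h4 : val v (r ^ (m * W.e) * Φ.c) = 1 := by
        refine hone hc₀ ?_
        change r * ρc = 1 at h
        rw [← hρc, ← mul_pow, h, one_pow]
      have h5 : (fun i => C (algebraMap k k (z.x i)) + C (val v (r * Φ.x1 i)) * X) =
          fun i => (C (algebraMap k k (z.x i)) : k[X]) := by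
        funext i
        have h6 : val v (r * Φ.x1 i) = 0 := congrFun h1 i
        rw [h6, C_0, zero_mul, add_zero]
      have hme : m * W.e ≠ 0 := mul_ne_zero (NeZero.ne m) W.pos.ne'
      have h7 := congrArg (fun P : k[X] => P.coeff (m * W.e)) heq
      rw [h5] at h7
      rw [aeval_const, h4, eq_C_of_natDegree_eq_zero h2, eq_C_of_natDegree_eq_zero h3,
        coeff_add, coeff_add, ← C_pow, ← C_pow, coeff_C_of_ne_zero hme, coeff_C_of_ne_zero hme,
        coeff_C_of_ne_zero hme, C_1, one_mul, coeff_X_pow_self] at h7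
      simp at h7
  · intro i
    have h1 := hA₀ i
    rw [comp_C_mul_X_coeff, mul_comm] at h1
    exact h1
  · intro i
    have h1 := hB₀ i
    rw [comp_C_mul_X_coeff, mul_comm] at h1
    exact h1

/-- the values of the forms: `(s : t) = (r σ : τ)` -/
theorem IsRed.hev {v : Place k K} {r : K} {Φ : Fam W j ν z K} {Ψ : Fam W j ν z k}
    (h : IsRed v r Φ Ψ) {σ τ : K} {σ₀ τ₀ : k} (hσ : v.At σ σ₀) (hτ : v.At τ τ₀) :
    (∀ i, v.At (Φ.p (r * σ) τ i) (Ψ.p σ₀ τ₀ i)) ∧ v.At (Φ.a (r * σ) τ) (Ψ.a σ₀ τ₀) ∧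
      v.At (Φ.b (r * σ) τ) (Ψ.b σ₀ τ₀) := by
  refine ⟨fun i => ?_, ?_, ?_⟩
  · have h1 := ((Place.at_const (v := v) (z.x i)).mul hτ).add ((h.x1 i).mul hσ)
    unfold Fam.p
    have h2 : algebraMap k K (z.x i) * τ + Φ.x1 i * (r * σ) =
        algebraMap k K (z.x i) * τ + r * Φ.x1 i * σ := by ring
    rw [h2]
    exact h1
  · unfold Fam.a
    rw [← hev_comp]
    refine at_hev (fun i => ?_) _ hσ hτ
    rw [comp_C_mul_X_coeff, mul_comm]
    exact h.A i
  · unfold Fam.b
    rw [← hev_comp]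
    refine at_hev (fun i => ?_) _ hσ hτ
    rw [comp_C_mul_X_coeff, mul_comm]
    exact h.B i

/-- the reduction of the polynomial `Q` with the variable multiplied by `r` -/
theorem IsRed.q {v : Place k K} {r : K} {Φ : Fam W j ν z K} {Ψ : Fam W j ν z k}
    (h : IsRed v r Φ Ψ) {κ : K} {κ₀ : k} (hκ : v.At κ κ₀) :
    Red v ((Φ.Q κ).comp (C r * X)) (Ψ.Q κ₀) := by
  have hA : Red v (Φ.A.comp (C r * X)) Ψ.A := by
    intro i
    rw [comp_C_mul_X_coeff, mul_comm]
    exact h.A i
  have hB : Red v (Φ.B.comp (C r * X)) Ψ.B := by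
    intro i
    rw [comp_C_mul_X_coeff, mul_comm]
    exact h.B i
  have h1 : (Φ.Q κ).comp (C r * X) =
      Φ.B.comp (C r * X) - C κ * (Φ.A.comp (C r * X)) ^ ν := by
    unfold Fam.Q
    rw [sub_comp, mul_comp, C_comp, pow_comp]
  rw [h1]
  exact hB.sub ((Red.C hκ).mul (hA.pow ν))

end Pool.Agent.CYU
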