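import Pool.Agent.CYU.CtrA

/-!
# The relation of the function `L(X) ^ (m e) / ω ^ m`

Proof of `rel_b`. Let `Λ = L(X)`. If `ω = 0` then no place is special (`q.w = 0` in `Spec`): all terms are
zero. Otherwise `(X, ω)` is a point of `W` over `K`; use `G.rel` for it and the function
`g = Λ ^ (m e) / ω ^ m`. Let `p v` be a value of the point with the factor `l`; then
`ord v g = ord v ((l Λ) ^ (m e)) - m ord v (l ^ e ω)`. If `(p v).w = 0` the term is zero and `v` is not special.
Otherwise `l ^ e ω` is a unit, `l Λ` is regular, `ord v g = ord v (l ^ (m e) Λ ^ (m e)) ≥ 0`; if it is `0` both sides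
are zero, if `d = ord v g > 0` then `Spec v X ω (Λ ^ (m e)) d (p v)`.
-/

set_option autoImplicit false

noncomputable section

namespace Pool.Agent.CYU

open Pool.Agent.ZCyc Pool.Agent.Dess Pool.Agent.TInc

variable {k : Type} [Field k] [IsAlgClosed k] [CharZero k] {m m' : ℕ} [NeZero m] [NeZero m'] {V : Type}
  [AddCommGroup V] [Module k V] {χ : Mu k m →* kˣ} {χ' : Mu k m' →* kˣ}
  {W : Cov k m} {W' : Cov k m'} (G : Bi χ χ' W W' V)

/-- the relation at one place -/
private lemma relb_loc (hm : 2 ≤ m) (hχ : Function.Injective χ) {K : Type} [Field K]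
    [Algebra k K] (hK : IsCurve k K) (v : Place k K) (q' : Pt W' k) {X : Fin (W.n + 1) → K}
    {ω : K} {hX : X ≠ 0} {hω : ω ^ m = MvPolynomial.aeval X W.f} (hω0 : ω ≠ 0)
    (L : Fin (W.n + 1) → k) {Λ : K} (hΛ : Λ = ∑ i, algebraMap k K (L i) * X i) (hΛ0 : Λ ≠ 0)
    {p : Pt W k} (hp : IsVal v (⟨X, ω, hX, hω⟩ : Pt W K) p) :
    ord v (Λ ^ (m * W.e) / ω ^ m) • G.F p q' =
      ctr (fun q => G.F q q') v X ω (Λ ^ (m * W.e)) := by
  obtain ⟨l, hl1, hl2⟩ := hp
  have hl1 : ∀ i, v.At (l * X i) (p.x i) := hl1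
  have hl2 : v.At (l ^ W.e * ω) p.w := hl2
  have hl : l ≠ 0 := by
    rintro rfl
    apply p.ne
    funext i
    have h1 := hl1 i
    rw [zero_mul] at h1
    have h2 := Place.at_const (v := v) (0 : k)
    rw [_root_.map_zero] at h2
    exact h1.unique h2
  have hinv : Inv fun q => G.F q q' := fun b hb q => G.scale1 b hb q q'
  by_cases hp0 : p.w = 0
  · rw [G.zero1 hm hχ hp0, smul_zero]
    symm
    apply ctr_zero
    apply not_spec hK hl1 p.ne
    left
    rw [hp0] at hl2
    exact Place.at_zero_iff.1 hl2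
  · have hΛ' : v.At (l * Λ) (∑ i, L i * p.x i) := by
      have e : l * Λ = ∑ i, algebraMap k K (L i) * (l * X i) := by
        rw [hΛ, Finset.mul_sum]
        exact Finset.sum_congr rfl fun i _ => by ring
      rw [e]
      exact Place.At.sum fun i _ => (Place.at_const _).mul (hl1 i)
    have h0 : 0 ≤ ord v (l * Λ) := (mem_iff_ord hK (mul_ne_zero hl hΛ0)).1 hΛ'.mem
    have hΩ : ord v (l ^ W.e * ω) = 0 := ord_of_at hK hl2 hp0
    rw [ord_mul hK v (pow_ne_zero _ hl) hω0, ord_pow hK] at hΩ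
    have hord : ord v (l ^ (m * W.e) * Λ ^ (m * W.e)) = ord v (Λ ^ (m * W.e) / ω ^ m) := by
      rw [ord_mul hK v (pow_ne_zero _ hl) (pow_ne_zero _ hΛ0), div_eq_mul_inv,
        ord_mul hK v (pow_ne_zero _ hΛ0) (inv_ne_zero (pow_ne_zero _ hω0)), ord_inv hK,
        ord_pow hK, ord_pow hK, ord_pow hK]
      push_cast
      linear_combination (m : ℤ) * hΩ
    have hnn : 0 ≤ ord v (l ^ (m * W.e) * Λ ^ (m * W.e)) := by
      rw [← mul_pow, ord_pow hK]
      exact mul_nonneg (Int.natCast_nonneg _) h0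
    by_cases hpos : 0 < ord v (l ^ (m * W.e) * Λ ^ (m * W.e))
    · have hspec : Spec v X ω (Λ ^ (m * W.e)) (ord v (Λ ^ (m * W.e) / ω ^ m)) p :=
        ⟨l, hl1, hl2, hp0, by rw [← hord]; exact hpos, hord⟩
      rw [ctr_eq hK hinv hspec]
    · have h1 : ord v (Λ ^ (m * W.e) / ω ^ m) = 0 := by
        rw [← hord]
        exact le_antisymm (not_lt.1 hpos) hnn
      rw [h1, zero_smul]
      symm
      exact ctr_zero (not_spec hK hl1 p.ne (Or.inr (not_lt.1 hpos)))

theorem rel_b (hm : 2 ≤ m) (hχ : Function.Injective χ) {K : Type} [Field K] [Algebra k K]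
    (hK : IsCurve k K) {P' : Pt W' K}
    {p' : Place k K → Pt W' k} (hp' : ∀ v, IsVal v P' (p' v)) {X : Fin (W.n + 1) → K}
    (hX : X ≠ 0) {ω : K} (hω : ω ^ m = MvPolynomial.aeval X W.f) (L : Fin (W.n + 1) → k)
    (hL : ∑ i, algebraMap k K (L i) * X i ≠ 0) :
    (Function.support fun v => ctr (fun q => G.F q (p' v)) v X ω
        ((∑ i, algebraMap k K (L i) * X i) ^ (m * W.e))).Finite ∧
      ∑ᶠ v, ctr (fun q => G.F q (p' v)) v X ω
        ((∑ i, algebraMap k K (L i) * X i) ^ (m * W.e)) = 0 := by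
  set Λ := ∑ i, algebraMap k K (L i) * X i with hΛ
  by_cases hω0 : ω = 0
  · have h0 : ∀ v, ctr (fun q => G.F q (p' v)) v X ω (Λ ^ (m * W.e)) = 0 := by
      intro v
      apply ctr_zero
      rintro d q ⟨l, -, h2, h3, -, -⟩
      rw [hω0, mul_zero] at h2
      apply h3
      have h4 := Place.at_const (v := v) (0 : k)
      rw [_root_.map_zero] at h4
      exact h2.unique h4
    have h1 : (fun v => ctr (fun q => G.F q (p' v)) v X ω (Λ ^ (m * W.e))) = 0 := funext h0
    rw [h1]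
    exact ⟨by rw [Function.support_zero]; exact Set.finite_empty, finsum_zero⟩
  · set P : Pt W K := ⟨X, ω, hX, hω⟩ with hP
    have hval : ∀ v, ∃ p, IsVal v P p := fun v => exists_val hK v P
    choose p hp using hval
    have hloc : ∀ v, ord v (Λ ^ (m * W.e) / ω ^ m) • G.F (p v) (p' v) =
        ctr (fun q => G.F q (p' v)) v X ω (Λ ^ (m * W.e)) :=
      fun v => relb_loc G hm hχ hK v (p' v) hω0 L hΛ hL (hp v)
    have hrel := G.rel K hK P P' p p' hp hp' (Λ ^ (m * W.e) / ω ^ m)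
      (div_ne_zero (pow_ne_zero _ hL) (pow_ne_zero _ hω0))
    have hsupp : (Function.support fun v => ctr (fun q => G.F q (p' v)) v X ω
        (Λ ^ (m * W.e))) ⊆ (dv hK (Λ ^ (m * W.e) / ω ^ m)).support := by
      intro v hv
      by_contra hvS
      apply hv
      show ctr (fun q => G.F q (p' v)) v X ω (Λ ^ (m * W.e)) = 0
      rw [Finset.mem_coe, Finsupp.notMem_support_iff] at hvS
      have hv' : ord v (Λ ^ (m * W.e) / ω ^ m) = 0 := hvS
      rw [← hloc v, hv', zero_smul]
    refine ⟨(Finset.finite_toSet _).subset hsupp, ?_⟩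
    rw [finsum_eq_sum_of_support_subset _ hsupp, ← hrel, Finsupp.sum]
    exact Finset.sum_congr rfl fun v _ => (hloc v).symm

end Pool.Agent.CYU
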