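import Pool.Agent.CYU.RelA
import Pool.Agent.CYU.RelB
import Pool.Agent.CYU.FamA

/-!
# The relation for a point of a family

Proof of `rel_fam`. `X = Φ.p s t`. If `X = 0` then no place is special (`q.x ≠ 0` in `Spec`). Otherwise let
`c'' = c' s ^ (m e) ≠ 0`. If `c' = Φ.c`: `rel_a` with `w` and `c = c''` (`Fam.heval`). If `Φ.c = 0`,
`c' = x1 i ^ (m e)`: `ω ^ m = f(X)` (`Fam.heval`), and `rel_b` with the linear form
`L(x) = x_i - (z.x i / z.x i₀) x_(i₀)` (`i ≠ i₀`, because `x1 i ≠ 0`), `L(Φ.p s t) = x1 i s`.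
-/

set_option autoImplicit false

noncomputable section

namespace Pool.Agent.CYU

open Pool.Agent.ZCyc Pool.Agent.Dess Pool.Agent.TInc Polynomial

variable {k : Type} [Field k] [IsAlgClosed k] [CharZero k] {m m' : ℕ} [NeZero m] [NeZero m'] {j ν : ℕ}
  {V : Type} [AddCommGroup V] [Module k V] {χ : Mu k m →* kˣ} {χ' : Mu k m' →* kˣ}
  {W : Cov k m} {W' : Cov k m'}
  (G : Bi χ χ' W W' V)

theorem rel_fam (hex : Ex m j ν) (hχ : Function.Injective χ) {K : Type} [Field K] [Algebra k K]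
    (hK : IsCurve k K) {P' : Pt W' K} {p' : Place k K → Pt W' k} (hp' : ∀ v, IsVal v P' (p' v))
    {z : Pt W k} (Φ : Fam W j ν z K) {c' : K} (hc' : Ct Φ c') {s t w ω : K} (hs : s ≠ 0)
    (hw : w ^ m = MvPolynomial.aeval (Φ.p s t) W.f)
    (hω : ω ^ m = Φ.a s t ^ m + Φ.b s t ^ j) :
    (Function.support fun v => ctr (fun q => G.F q (p' v)) v (Φ.p s t) ω
        (c' * s ^ (m * W.e))).Finite ∧
      ∑ᶠ v, ctr (fun q => G.F q (p' v)) v (Φ.p s t) ω (c' * s ^ (m * W.e)) = 0 := by
  by_cases hX : Φ.p s t = 0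
  · have h0 : ∀ v, ctr (fun q => G.F q (p' v)) v (Φ.p s t) ω (c' * s ^ (m * W.e)) = 0 := by
      intro v
      apply ctr_zero
      rintro d q ⟨l, h1, -, -, -, -⟩
      apply q.ne
      funext i
      have h2 := h1 i
      rw [hX, Pi.zero_apply, mul_zero] at h2
      have h4 := Place.at_const (v := v) (0 : k)
      rw [_root_.map_zero] at h4
      exact h2.unique h4
    have h1 : (fun v => ctr (fun q => G.F q (p' v)) v (Φ.p s t) ω (c' * s ^ (m * W.e))) = 0 :=
      funext h0
    rw [h1]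
    exact ⟨by rw [Function.support_zero]; exact Set.finite_empty, finsum_zero⟩
  have hm : 2 ≤ m := hex.two_le.1
  have hev := Φ.heval hex s t
  obtain ⟨hc0, hc1 | ⟨hc2, i, hi⟩⟩ := hc'
  · refine rel_a G hm hχ hK hp' hX hw ?_ (mul_ne_zero hc0 (pow_ne_zero _ hs))
    rw [hw, hev, hω, hc1]
  · have hxi : Φ.x1 i ≠ 0 := by
      intro h
      apply hc0
      rw [hi, h, zero_pow (mul_ne_zero (NeZero.ne m) W.pos.ne')]
    have hii : i ≠ Φ.i₀ := by
      rintro rfl
      exact hxi Φ.h1
    have hz0 : algebraMap k K (z.x Φ.i₀) ≠ 0 := by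
      rw [Ne, map_eq_zero]
      exact Φ.hi₀
    have hsum : ∑ l, algebraMap k K
        ((Pi.single i 1 - Pi.single Φ.i₀ (z.x i / z.x Φ.i₀) : Fin (W.n + 1) → k) l) * Φ.p s t l =
        Φ.x1 i * s := by
      have h1 : ∀ l, algebraMap k K
          ((Pi.single i 1 - Pi.single Φ.i₀ (z.x i / z.x Φ.i₀) : Fin (W.n + 1) → k) l) *
            Φ.p s t l = (if l = i then Φ.p s t l else 0) -
              if l = Φ.i₀ then algebraMap k K (z.x i / z.x Φ.i₀) * Φ.p s t l else 0 := by
        intro l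
        rw [Pi.sub_apply, Pi.single_apply, Pi.single_apply, map_sub, sub_mul]
        congr 1
        · split_ifs
          · rw [map_one, one_mul]
          · rw [map_zero, zero_mul]
        · split_ifs
          · rfl
          · rw [map_zero, zero_mul]
      rw [Finset.sum_congr rfl fun l _ => h1 l, Finset.sum_sub_distrib, Finset.sum_ite_eq',
        Finset.sum_ite_eq', if_pos (Finset.mem_univ _), if_pos (Finset.mem_univ _), Φ.p_i₀]
      unfold Fam.p
      rw [map_div₀]
      field_simp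
      ring
    have hω' : ω ^ m = MvPolynomial.aeval (Φ.p s t) W.f := by
      rw [hev, hω, hc2, zero_mul, add_zero]
    have h2 := rel_b G hm hχ hK hp' hX hω'
      (Pi.single i 1 - Pi.single Φ.i₀ (z.x i / z.x Φ.i₀)) (by
        rw [hsum]
        exact mul_ne_zero hxi hs)
    rw [hsum, mul_pow, ← hi] at h2
    exact h2

end Pool.Agent.CYU
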