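import Pool.Agent.CYU.Over
import Pool.Agent.CYU.RelF

/-!
# Families over `k` with `B = κ A ^ ν`

Proof of `deg_c`. Let `α = A(0)`, `B(0) = κ α ^ ν`, `(1 + κ ^ j) α ^ m = z.w ^ m ≠ 0` (`Fam.base`, `m = j ν`). Let `θ ∈ k`,
`θ ^ m = 1 + κ ^ j`, so `θ α = a z.w` for an `a : Mu k m`. Let `s = tt k` and `K` a curve
(`exists_curve`) which contains `s` and `w` with `w ^ m = f(p(s))`. `ω = θ A(s)`, so `ω ^ m = A(s) ^ m + B(s) ^ j`.
`rel_fam` for `Φ.map`, `t = 1`, and the constant point `z'` (`isVal_base`). By `over_not` and `over_zero`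
(where `s` vanishes `ω` has the value `θ α`) and `over_fin` (`n = m e`): `G.F (z.tw a) z' = 0`, `eq1`.
-/

set_option autoImplicit false

noncomputable section

namespace Pool.Agent.CYU

open Pool.Agent.ZCyc Pool.Agent.Dess Pool.Agent.TInc Polynomial
open Pool.Agent.VFP (Om tt)

variable {k : Type} [Field k] [IsAlgClosed k] [CharZero k] {m m' : ℕ} [NeZero m] [NeZero m'] {j ν : ℕ}
  {V : Type} [AddCommGroup V] [Module k V] {χ : Mu k m →* kˣ} {χ' : Mu k m' →* kˣ}
  {W : Cov k m} {W' : Cov k m'}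
  (G : Bi χ χ' W W' V)

theorem deg_c (hex : Ex m j ν) (hχ : Function.Injective χ) {z : Pt W k} (hz : z.w ≠ 0)
    (Φ : Fam W j ν z k) {κ : k} (h : Φ.Q κ = 0) (z' : Pt W' k) : G.F z z' = 0 := by
  have hm : 0 < m := Nat.pos_of_ne_zero (NeZero.ne m)
  -- the constant
  have hB : Φ.B = C κ * Φ.A ^ ν := sub_eq_zero.1 h
  obtain ⟨θ, hθ⟩ := IsAlgClosed.exists_pow_nat_eq (1 + κ ^ j) hm
  have hbase := Φ.base
  rw [Algebra.algebraMap_self, RingHom.id_apply] at hbase
  have hB0 : Φ.B.coeff 0 = κ * Φ.A.coeff 0 ^ ν := by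
    rw [hB, coeff_C_mul, coeff_zero_eq_eval_zero, coeff_zero_eq_eval_zero, eval_pow]
  have hθα : (θ * Φ.A.coeff 0) ^ m = z.w ^ m := by
    rw [← hbase, hB0, mul_pow, mul_pow, hθ, ← pow_mul, mul_comm ν j, ← hex.mul]
    ring
  obtain ⟨a, ha⟩ := exists_tw (W := W) (p := z)
    (q := ⟨z.x, θ * Φ.A.coeff 0, z.ne, by rw [hθα, z.on]⟩) rfl
  have ha' : θ * Φ.A.coeff 0 = mu k a * z.w := congrArg Pt.w ha
  -- the curve
  obtain ⟨w0, hw0⟩ := IsAlgClosed.exists_pow_nat_eq
    (MvPolynomial.aeval ((Φ.map (Algebra.ofId k (Om k))).p (tt k) 1) W.f) hm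
  obtain ⟨K, hK, htt, hS⟩ := exists_curve (k := k) {w0} (Set.finite_singleton _)
  have hw0K : w0 ∈ K := hS rfl
  set s : K := ⟨tt k, htt⟩ with hs
  have hst : Transcendental k s := by
    intro h1
    exact transc_tt (k := k) (h1.algHom K.val)
  have hs0 : s ≠ 0 := by
    intro h1
    rw [h1] at hst
    exact hst isAlgebraic_zero
  set Ψ := Φ.map (Algebra.ofId k K) with hΨ
  have hwK : (⟨w0, hw0K⟩ : K) ^ m = MvPolynomial.aeval (Ψ.p s 1) W.f := by
    apply K.val.injective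
    have h1 : K.val (MvPolynomial.aeval (Ψ.p s 1) W.f) =
        MvPolynomial.aeval (fun i => K.val (Ψ.p s 1 i)) W.f :=
      DFunLike.congr_fun (MvPolynomial.comp_aeval (Ψ.p s 1) K.val) W.f
    show K.val (⟨w0, hw0K⟩ ^ m) = K.val (MvPolynomial.aeval (Ψ.p s 1) W.f)
    rw [h1, map_pow]
    exact hw0
  have hQ : Ψ.Q (algebraMap k K κ) = 0 := by
    show Φ.B.map _ - C (algebraMap k K κ) * (Φ.A.map _) ^ ν = 0
    rw [hB, Polynomial.map_mul, Polynomial.map_pow, Polynomial.map_C]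
    exact sub_self _
  have hθK : (algebraMap k K θ) ^ m = 1 + (algebraMap k K κ) ^ j := by
    rw [← map_pow, hθ, map_add, map_one, map_pow]
  have hb : Ψ.b s 1 = algebraMap k K κ * Ψ.a s 1 ^ ν := by
    have h1 := Ψ.q_hev hex (algebraMap k K κ) s 1
    rw [hQ, hev_zero] at h1
    exact sub_eq_zero.1 h1.symm
  have hω := Ψ.om_pow hex hθK hb
  obtain ⟨c', hc'⟩ := exists_ct hex hz Φ
  have hrel := rel_fam G hex hχ hK (P' := z'.base K) (p' := fun _ => z')
    (fun v => isVal_base v z') Ψ (hc'.map (Algebra.ofId k K)) hs0 hwK hω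
  have hinv : Inv fun q => G.F q z' := fun b hb q => G.scale1 b hb q z'
  have haE : Ψ.a s 1 = aeval s Φ.A := by
    have h1 : Ψ.a s 1 = (Φ.A.map (algebraMap k K)).eval s := hev_one Ψ.degA s
    rw [h1, eval_map_algebraMap]
  have hat : ∀ v : Place k K, v.Vanishes s →
      v.At (algebraMap k K θ * Ψ.a s 1) (mu k a * z.w) := by
    intro v hv
    have h1 := (Place.at_const (v := v) θ).mul ((Place.at_zero_iff.2 hv).aeval Φ.A)
    rw [← coeff_zero_eq_eval_zero, ha'] at h1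
    rw [haE]
    exact h1
  have hzero := over_fin hK hst (n := m * W.e) (Nat.mul_pos hm W.pos)
    (F := fun v => ctr (fun q => G.F q z') v (Ψ.p s 1) (algebraMap k K θ * Ψ.a s 1)
      (algebraMap k K c' * s ^ (m * W.e))) (x := G.F (z.tw a) z')
    (fun v hv => over_not hK Φ hv _ hc'.1 _)
    (fun v hv => by
      have h1 := over_zero hK hz Φ hv hs0 (hat v hv) hc'.1 hinv
      push_cast
      exact h1) hrel.2
  rw [G.eq1] at hzero
  exact (smul_eq_zero.1 hzero).resolve_left (χ a).ne_zero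

end Pool.Agent.CYU
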