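import Pool.Agent.CYU.PtA

/-!
# The contribution of a place

Let `Spec v X ω c d q` (with the factor `l`) and `Spec v X ω c d' q'` (with `l'`). `l X` and `l' X` have values
`≠ 0`, so `l' / l` is a unit at `v` with a value `b ≠ 0`, `q' = q.scale b` and `d' = d`. So the
contribution is `d • g q` for a function `g` which does not change under homotheties.
-/

set_option autoImplicit false

noncomputable section

namespace Pool.Agent.CYU

open Pool.Agent.ZCyc Pool.Agent.Dess Pool.Agent.TInc

variable {k : Type} [Field k] [IsAlgClosed k] [CharZero k] {m : ℕ} [NeZero m] {V : Type}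
  [AddCommGroup V] [Module k V] {W : Cov k m} {K : Type} [Field K] [Algebra k K]

/-- a function on the points which does not change under homotheties -/
def Inv (g : Pt W k → V) : Prop := ∀ (b : k) (hb : b ≠ 0) (q : Pt W k), g (q.scale b hb) = g q

omit [NeZero m] in
/-- the order of a number times a power of the factor does not depend on the factor -/
theorem ord_ratio (hK : IsCurve k K) {v : Place k K} {l l' : K} {b : k} (hb : b ≠ 0) (hl : l ≠ 0)
    (h : v.At (l' / l) b) (n : ℕ) (c : K) : ord v (l' ^ n * c) = ord v (l ^ n * c) := by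
  have h1 : (l' / l) ^ n ≠ 0 := by
    apply pow_ne_zero
    intro h0
    rw [h0] at h
    have h2 := Place.at_const (v := v) (0 : k)
    rw [map_zero] at h2
    exact hb (h.unique h2)
  have h2 : ord v ((l' / l) ^ n) = 0 := ord_of_at hK (h.pow n) (pow_ne_zero n hb)
  by_cases hc : c = 0
  · rw [hc, mul_zero, mul_zero]
  · have e : l' ^ n * c = (l' / l) ^ n * (l ^ n * c) := by
      rw [div_pow]
      field_simp
    rw [e, ord_mul hK v h1 (mul_ne_zero (pow_ne_zero n hl) hc), h2, zero_add]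

omit [NeZero m] in
theorem spec_unique (hK : IsCurve k K) {v : Place k K} {X : Fin (W.n + 1) → K} {ω c : K}
    {d d' : ℤ} {q q' : Pt W k} (h : Spec v X ω c d q) (h' : Spec v X ω c d' q') :
    d' = d ∧ ∃ (b : k) (hb : b ≠ 0), q' = q.scale b hb := by
  obtain ⟨l, h1, h2, h3, h4, h5⟩ := h
  obtain ⟨l', h1', h2', h3', h4', h5'⟩ := h'
  obtain ⟨b, hb, hl, h6, h7⟩ := ratio_at q.ne q'.ne h1 h1'
  refine ⟨?_, b, hb, ?_⟩
  · rw [← h5, ← h5']
    exact ord_ratio hK hb hl h6 _ _
  · ext
    · exact congrFun h7 _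
    · have h8 := (h6.pow W.e).mul h2
      have e : (l' / l) ^ W.e * (l ^ W.e * ω) = l' ^ W.e * ω := by
        rw [div_pow]
        field_simp
      rw [e] at h8
      exact h2'.unique h8

omit [Module k V] in
theorem ctr_eq (hK : IsCurve k K) {g : Pt W k → V} (hg : Inv g) {v : Place k K}
    {X : Fin (W.n + 1) → K} {ω c : K} {d : ℤ} {q : Pt W k} (h : Spec v X ω c d q) :
    ctr g v X ω c = d • g q := by
  have h1 : ∃ (d : ℤ) (q : Pt W k), Spec v X ω c d q := ⟨d, q, h⟩
  rw [ctr, dif_pos h1]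
  obtain ⟨h2, b, hb, h3⟩ := spec_unique hK h h1.choose_spec.choose_spec
  rw [h3, hg, h2]

omit [IsAlgClosed k] [CharZero k] [NeZero m] [Module k V] in
theorem ctr_zero {g : Pt W k → V} {v : Place k K} {X : Fin (W.n + 1) → K} {ω c : K}
    (h : ∀ d q, ¬ Spec v X ω c d q) : ctr g v X ω c = 0 := by
  rw [ctr, dif_neg]
  rintro ⟨d, q, h1⟩
  exact h d q h1

omit [NeZero m] in
/-- Let `l X` be regular at `v` with the value `ξ ≠ 0`, `l ≠ 0`. If `l ^ e ω` vanishes or
`ord (l ^ (m e) c) ≤ 0` then `v` is not special. -/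
theorem not_spec (hK : IsCurve k K) {v : Place k K} {X : Fin (W.n + 1) → K} {ω c l : K}
    {ξ : Fin (W.n + 1) → k} (hX : ∀ i, v.At (l * X i) (ξ i)) (hξ : ξ ≠ 0)
    (h : v.Vanishes (l ^ W.e * ω) ∨ ord v (l ^ (m * W.e) * c) ≤ 0) : ∀ d q, ¬ Spec v X ω c d q := by
  rintro d q ⟨l', h1, h2, h3, h4, h5⟩
  obtain ⟨b, hb, hl, h6, h7⟩ := ratio_at hξ q.ne hX h1
  rcases h with h | h
  · apply h3
    have h8 := (h6.pow W.e).mul (Place.at_zero_iff.2 h)
    have e : (l' / l) ^ W.e * (l ^ W.e * ω) = l' ^ W.e * ω := by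
      rw [div_pow]
      field_simp
    rw [e, mul_zero] at h8
    exact h2.unique h8
  · rw [← ord_ratio hK hb hl h6, h5] at h
    omega

end Pool.Agent.CYU
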