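import Pool.Agent.CYU.Scl
import Pool.Agent.CYU.RelF

/-!
# The sum of the contributions at a place

`ctv` is the sum of the contributions of all roots of `Q` in the projective line, the root `∞` with the
multiplicity `ν e - deg Q`.
-/

set_option autoImplicit false

noncomputable section

namespace Pool.Agent.CYU

open Pool.Agent.ZCyc Pool.Agent.Dess Pool.Agent.TInc Polynomial

variable {k : Type} [Field k] [IsAlgClosed k] [CharZero k] {m : ℕ} [NeZero m] {j ν : ℕ}
  {V : Type} [AddCommGroup V] [Module k V] {χ : Mu k m →* kˣ} {W W' : Cov k m}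
  (G : Bi χ χ W W' V)

/-- the sum of all contributions at `v` -/
def ctv {z : Pt W k} {K : Type} [Field K] [Algebra k K] (Φ : Fam W j ν z K) (κ θ c' : K)
    (z' : Pt W' k) (v : Place k K) : V :=
  ((Φ.Q κ).roots.map fun s => ctr (fun q => G.F q z') v (Φ.p s 1) (θ * Φ.a s 1)
      (c' * s ^ (m * W.e))).sum +
    (ν * W.e - (Φ.Q κ).natDegree) • ctr (fun q => G.F q z') v (Φ.p 1 0) (θ * Φ.a 1 0)
      (c' * 1 ^ (m * W.e))

end Pool.Agent.CYU
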