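import Pool.Agent.TInc.Ord
import Pool.Agent.VFP.Defs

/-!
# Cyclic coverings of projective spaces: class functions on products of two of them

`Cov k m`: the covering `W`, `w ^ m = f(x)`, of the projective space of dimension `n`, `f` a form of degree
`m e`, `e > 0`. `Pt W K`: its points with coordinates in `K` (vectors, before dividing by the
homotheties), `Pt.tw` the action of the `m`-th roots of unity. `Bi χ χ' W W' V`: a function `F` with values in
`V` on the pairs of points of `W` and `W'` which is compatible with rational equivalence (`rel`) and is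
multiplied by `χ a` (by `χ' a⁻¹`) if the first (the second) point is multiplied by the root of unity `a`.
The numbers `(m, j, ν)` are `(3, 3, 1)` or `(4, 2, 2)` (`Ex m j ν`). `Bi.main` (in `Main`): if `χ = χ'` is injective and
`e ≤ n` for both coverings then `F = 0`.
-/

set_option autoImplicit false

noncomputable section

namespace Pool.Agent.CYU

open Pool.Agent.ZCyc Pool.Agent.Dess Pool.Agent.TInc

/-- the exponents of the equation `v ^ m = a ^ m + b ^ j`, `m = j ν` -/
def Ex (m j ν : ℕ) : Prop := (m = 3 ∧ j = 3 ∧ ν = 1) ∨ (m = 4 ∧ j = 2 ∧ ν = 2)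

theorem Ex.mul {m j ν : ℕ} (h : Ex m j ν) : m = j * ν := by
  rcases h with ⟨rfl, rfl, rfl⟩ | ⟨rfl, rfl, rfl⟩ <;> rfl

theorem Ex.two_le {m j ν : ℕ} (h : Ex m j ν) : 2 ≤ m ∧ 2 ≤ j ∧ 1 ≤ ν ∧ m ≤ ν + 2 := by
  rcases h with ⟨rfl, rfl, rfl⟩ | ⟨rfl, rfl, rfl⟩ <;> decide

/-- the covering `w ^ m = f(x)` of the projective space of dimension `n`, `f` a form of degree `m e` -/
structure Cov (k : Type) [Field k] (m : ℕ) where
  n : ℕ
  e : ℕ
  f : MvPolynomial (Fin (n + 1)) k
  hom : f.IsHomogeneous (m * e)
  pos : 0 < e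

variable {k : Type} [Field k] {m m' : ℕ}

theorem aeval_hom {ι : Type} {L : Type} [Field L] [Algebra k L] {g : MvPolynomial ι k} {d : ℕ}
    (hg : g.IsHomogeneous d) (c : L) (a : ι → L) :
    MvPolynomial.aeval (c • a) g = c ^ d * MvPolynomial.aeval a g := by
  rw [MvPolynomial.aeval_def, MvPolynomial.aeval_def, MvPolynomial.eval₂_eq,
    MvPolynomial.eval₂_eq, Finset.mul_sum]
  refine Finset.sum_congr rfl fun m hm => ?_
  have h1 := hg (MvPolynomial.mem_support_iff.1 hm)
  have h2 : ∑ i ∈ m.support, m i = d := by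
    rw [← h1, Finsupp.weight_apply]
    simp [Finsupp.sum]
  simp only [Pi.smul_apply, smul_eq_mul, mul_pow, Finset.prod_mul_distrib,
    Finset.prod_pow_eq_pow_sum, h2]
  ring

/-- the points with coordinates in `K` (before dividing by the homotheties) -/
@[ext] structure Pt (W : Cov k m) (K : Type) [Field K] [Algebra k K] where
  x : Fin (W.n + 1) → K
  w : K
  ne : x ≠ 0
  on : w ^ m = MvPolynomial.aeval x W.f

/-- the roots of unity -/
abbrev Mu (k : Type) [Field k] (m : ℕ) : Type := rootsOfUnity m k

instance (k : Type) [Field k] (m : ℕ) [NeZero m] : Fintype (Mu k m) := Fintype.ofFinite _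

/-- the root of unity as an element of `K` -/
def mu (K : Type) [Field K] [Algebra k K] (a : Mu k m) : K := algebraMap k K ((a : kˣ) : k)

theorem mu_pow (K : Type) [Field K] [Algebra k K] (a : Mu k m) : mu K a ^ m = 1 := by
  have h : ((a : kˣ) : k) ^ m = 1 := by
    have h1 := a.2
    rw [mem_rootsOfUnity] at h1
    have h2 := congrArg (Units.val) h1
    simpa using h2
  rw [mu, ← map_pow, h, map_one]

section pt

variable {W : Cov k m} {K : Type} [Field K] [Algebra k K]

/-- the point multiplied by the root of unity `a` -/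
def Pt.tw (a : Mu k m) (P : Pt W K) : Pt W K where
  x := P.x
  w := mu K a * P.w
  ne := P.ne
  on := by rw [mul_pow, mu_pow, one_mul, P.on]

/-- the homothety with factor `c` -/
def Pt.scale (c : K) (hc : c ≠ 0) (P : Pt W K) : Pt W K where
  x := c • P.x
  w := c ^ W.e * P.w
  ne := smul_ne_zero hc P.ne
  on := by
    rw [aeval_hom W.hom, ← P.on, mul_pow, ← pow_mul, mul_comm W.e m]

/-- a point over `k` as a point over `K` -/
def Pt.base (K : Type) [Field K] [Algebra k K] (p : Pt W k) : Pt W K where
  x i := algebraMap k K (p.x i)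
  w := algebraMap k K p.w
  ne := by
    intro h
    apply p.ne
    funext i
    have h1 := congrFun h i
    simpa using h1
  on := by
    have h1 := MvPolynomial.aeval_algebraMap_apply (B := K) p.x W.f
    rw [← map_pow, p.on, ← h1]
    rfl

/-- `p` is the value of the point `P` with coordinates in `K` at the place `v` -/
def IsVal (v : Place k K) (P : Pt W K) (p : Pt W k) : Prop :=
  ∃ c : K, (∀ i, v.At (c * P.x i) (p.x i)) ∧ v.At (c ^ W.e * P.w) p.w

end pt

/-- Class functions on pairs of points of two coverings, of the type `χ` for the action of the roots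
of unity on the first point and of the type `χ'⁻¹` for the action on the second one. -/
structure Bi [IsAlgClosed k] [CharZero k] (χ : Mu k m →* kˣ) (χ' : Mu k m' →* kˣ) (W : Cov k m)
    (W' : Cov k m') (V : Type) [AddCommGroup V] [Module k V] where
  F : Pt W k → Pt W' k → V
  rel : ∀ (K : Type) [Field K] [Algebra k K] (hK : IsCurve k K) (P : Pt W K) (P' : Pt W' K)
    (p : Place k K → Pt W k) (p' : Place k K → Pt W' k), (∀ v, IsVal v P (p v)) →
    (∀ v, IsVal v P' (p' v)) → ∀ g : K, g ≠ 0 →
      ((dv hK g).sum fun v a => a • F (p v) (p' v)) = 0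
  eq1 : ∀ (a : Mu k m) (p : Pt W k) (p' : Pt W' k), F (p.tw a) p' = ((χ a : kˣ) : k) • F p p'
  eq2 : ∀ (a : Mu k m') (p : Pt W k) (p' : Pt W' k),
    F p (p'.tw a) = ((χ' a⁻¹ : kˣ) : k) • F p p'

variable [IsAlgClosed k] [CharZero k] {V : Type} [AddCommGroup V] [Module k V]
  {χ : Mu k m →* kˣ} {χ' : Mu k m' →* kˣ}

/-- the variables exchanged -/
def Bi.flip {W : Cov k m} {W' : Cov k m'} (G : Bi χ χ' W W' V) : Bi χ'⁻¹ χ⁻¹ W' W V where
  F p' p := G.F p p'
  rel K _ _ hK P' P p' p hp' hp g hg := G.rel K hK P P' p p' hp hp' g hg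
  eq1 a p' p := by
    have h := G.eq2 a p p'
    rw [map_inv] at h
    simpa using h
  eq2 a p' p := by
    have h := G.eq1 a p p'
    rw [h]
    simp

/-- The place `v` is special for the vector `X`, the number `ω` and the number `c`: for a factor `l` the
vector `l X` and `l ^ e ω` are regular at `v` and have the values `q.x`, `q.w` of a point `q` of the covering
with `q.w ≠ 0`, and `l ^ (m e) c` vanishes at `v`, of order `d > 0`. -/
def Spec {W : Cov k m} {K : Type} [Field K] [Algebra k K] (v : Place k K) (X : Fin (W.n + 1) → K)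
    (ω c : K) (d : ℤ) (q : Pt W k) : Prop :=
  ∃ l : K, (∀ i, v.At (l * X i) (q.x i)) ∧ v.At (l ^ W.e * ω) q.w ∧ q.w ≠ 0 ∧ 0 < d ∧
    ord v (l ^ (m * W.e) * c) = d

open Classical in
/-- the contribution of the place `v` -/
def ctr {W : Cov k m} {K : Type} [Field K] [Algebra k K] (g : Pt W k → V) (v : Place k K)
    (X : Fin (W.n + 1) → K) (ω c : K) : V :=
  if h : ∃ (d : ℤ) (q : Pt W k), Spec v X ω c d q then h.choose • g h.choose_spec.choose else 0

end Pool.Agent.CYU
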