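import Pool.Agent.CYU.Glob

/-!
# Existence of the data

Proof of `exists_dat`. In the algebraically closed field `Om k` let `t = tt k`, `y` with `y ^ j = 1 - t ^ m`, `ι` with `ι ^ 2 = -1` in `k`,
`κ`, `θ` as in `KT`; `(z.w t) ^ m + (z.w ^ ν y) ^ j = z.w ^ m` (`m = j ν`), so `exists_fam` gives a family `Φ` over `Om k` with
these coefficients of index `0`. Let `c'` be as in `exists_ct`. Let `S` be the finite set of `t`, `y`, the `x1 i`, the coefficients of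
`A`, `B`, `c`, `c'`, the `i`-th roots (one for each) of the coefficients of index `i > 0` (the coefficients of index `> e`, `> ν e` are
zero, root `0`), an `(m e)`-th root of `c`, the roots of `Φ.Q κ`, an `m`-th root of `f(Φ.p s 1)` for each of them, and one of
`f(Φ.p 1 0)`. `exists_curve` gives `K`; `Fam.restr` gives the family over `K`.
`Bi.main`: `z.w = 0`: `Bi.zero1`. Otherwise `exists_dat` and `glob`.
-/

set_option autoImplicit false

noncomputable section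

namespace Pool.Agent.CYU

open Pool.Agent.ZCyc Pool.Agent.Dess Pool.Agent.TInc Polynomial
open Pool.Agent.VFP (Om tt)

variable {k : Type} [Field k] [IsAlgClosed k] [CharZero k] {m : ℕ} [NeZero m] {j ν : ℕ}

theorem exists_dat (hex : Ex m j ν) {W : Cov k m} (hn : W.e ≤ W.n) {z : Pt W k} (hz : z.w ≠ 0) :
    ∃ K : IntermediateField k (Om k), IsCurve k K ∧ Nonempty (Dat W j ν z K) := by
  classical
  obtain ⟨hm2, hj2, hν1, -⟩ := hex.two_le
  have hm0 : 0 < m := by omega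
  have hroot : ∀ (x : Om k) (n : ℕ), 0 < n → ∃ y : Om k, y ^ n = x := fun x n hn =>
    IsAlgClosed.exists_pow_nat_eq x hn
  obtain ⟨y, hy⟩ := hroot (1 - tt k ^ m) j (by omega)
  have hE : tt k ^ m + y ^ j = 1 := by
    rw [hy]
    ring
  obtain ⟨ι, κ, θ, hk, hmem⟩ : ∃ (ι : k) (κ θ : Om k), KT m ι (tt k) y κ θ ∧
      ∀ K : IntermediateField k (Om k), tt k ∈ K → y ∈ K → κ ∈ K ∧ θ ∈ K := by
    rcases hex with ⟨rfl, rfl, rfl⟩ | ⟨rfl, rfl, rfl⟩
    · exact ⟨0, -tt k, y, Or.inl ⟨rfl, rfl, rfl⟩, fun K h1 h2 => ⟨neg_mem h1, h2⟩⟩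
    · obtain ⟨ι, hι⟩ := IsAlgClosed.exists_pow_nat_eq (-1 : k) two_pos
      exact ⟨ι, algebraMap k (Om k) ι * y, -(algebraMap k (Om k) ι * tt k),
        Or.inr ⟨rfl, hι, rfl, rfl⟩, fun K h1 h2 => ⟨mul_mem (K.algebraMap_mem ι) h2,
          neg_mem (mul_mem (K.algebraMap_mem ι) h1)⟩⟩
  have h0 : (algebraMap k (Om k) z.w * tt k) ^ m + (algebraMap k (Om k) (z.w ^ ν) * y) ^ j =
      algebraMap k (Om k) (z.w ^ m) := by
    rw [mul_pow, mul_pow, ← map_pow, ← map_pow, ← pow_mul, mul_comm ν j, ← hex.mul, ← mul_add, hE,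
      mul_one]
  obtain ⟨Φ, hA, hB⟩ := exists_fam hex hn z h0
  obtain ⟨c', hc'⟩ := exists_ct hex hz Φ
  have hrA0 : ∀ i : ℕ, ∃ ρ : Om k, 0 < i → ρ ^ i = Φ.A.coeff i := fun i => by
    rcases Nat.eq_zero_or_pos i with h | h
    · exact ⟨0, fun h' => absurd h' (by omega)⟩
    · obtain ⟨ρ, hρ⟩ := hroot (Φ.A.coeff i) i h
      exact ⟨ρ, fun _ => hρ⟩
  have hrB0 : ∀ i : ℕ, ∃ ρ : Om k, 0 < i → ρ ^ i = Φ.B.coeff i := fun i => by
    rcases Nat.eq_zero_or_pos i with h | h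
    · exact ⟨0, fun h' => absurd h' (by omega)⟩
    · obtain ⟨ρ, hρ⟩ := hroot (Φ.B.coeff i) i h
      exact ⟨ρ, fun _ => hρ⟩
  choose rA hrA using hrA0
  choose rB hrB using hrB0
  obtain ⟨rc, hrc⟩ := hroot Φ.c (m * W.e) (Nat.mul_pos hm0 W.pos)
  choose ws hws using fun s : Om k => hroot (MvPolynomial.aeval (Φ.p s 1) W.f) m hm0
  obtain ⟨w0, hw0⟩ := hroot (MvPolynomial.aeval (Φ.p 1 0) W.f) m hm0
  have hR := (Φ.Q κ).roots.toFinset.finite_toSet
  have ha := Set.finite_Iic (Φ.A.natDegree)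
  have hb := Set.finite_Iic (Φ.B.natDegree)
  have hS0 : ({y, c', Φ.c, rc, w0} : Set (Om k)).Finite := Set.toFinite _
  obtain ⟨K, hK, htK, hSK⟩ := exists_curve
    (({y, c', Φ.c, rc, w0} : Set (Om k)) ∪ (Set.range Φ.x1 ∪
      (Φ.A.coeff '' Set.Iic (Φ.A.natDegree) ∪ (Φ.B.coeff '' Set.Iic (Φ.B.natDegree) ∪
        (rA '' Set.Iic (Φ.A.natDegree) ∪ (rB '' Set.Iic (Φ.B.natDegree) ∪
          (((Φ.Q κ).roots.toFinset : Set (Om k)) ∪ ws '' ((Φ.Q κ).roots.toFinset : Set (Om k)))))))))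
    (hS0.union ((Set.finite_range _).union ((ha.image _).union ((hb.image _).union
      ((ha.image _).union ((hb.image _).union (hR.union (hR.image _))))))))
  obtain ⟨k0, k1⟩ := Set.union_subset_iff.1 hSK
  obtain ⟨k1, k2⟩ := Set.union_subset_iff.1 k1
  obtain ⟨k2, k3⟩ := Set.union_subset_iff.1 k2
  obtain ⟨k3, k4⟩ := Set.union_subset_iff.1 k3
  obtain ⟨k4, k5⟩ := Set.union_subset_iff.1 k4
  obtain ⟨k5, k6⟩ := Set.union_subset_iff.1 k5
  obtain ⟨k6, k7⟩ := Set.union_subset_iff.1 k6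
  have hyK : y ∈ K := k0 (by simp)
  have hc'K : c' ∈ K := k0 (by simp)
  have hcK : Φ.c ∈ K := k0 (by simp)
  have hrcK : rc ∈ K := k0 (by simp)
  have hw0K : w0 ∈ K := k0 (by simp)
  obtain ⟨hκK, hθK⟩ := hmem K htK hyK
  have hxK : ∀ i, Φ.x1 i ∈ K := fun i => k1 ⟨i, rfl⟩
  have hAK : ∀ i, Φ.A.coeff i ∈ K := fun i => by
    by_cases h : i ≤ Φ.A.natDegree
    · exact k2 ⟨i, h, rfl⟩
    · rw [coeff_eq_zero_of_natDegree_lt (by omega)]
      exact zero_mem K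
  have hBK : ∀ i, Φ.B.coeff i ∈ K := fun i => by
    by_cases h : i ≤ Φ.B.natDegree
    · exact k3 ⟨i, h, rfl⟩
    · rw [coeff_eq_zero_of_natDegree_lt (by omega)]
      exact zero_mem K
  obtain ⟨Ψ, e1, e2, e3, e4⟩ := Φ.restr hxK hAK hBK hcK
  have eA : Ψ.A.map (algebraMap K (Om k)) = Φ.A := by
    ext i
    rw [coeff_map]
    exact e2 i
  have eB : Ψ.B.map (algebraMap K (Om k)) = Φ.B := by
    ext i
    rw [coeff_map]
    exact e3 i
  have eQ : (Ψ.Q ⟨κ, hκK⟩).map (algebraMap K (Om k)) = Φ.Q κ := by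
    unfold Fam.Q
    rw [Polynomial.map_sub, Polynomial.map_mul, Polynomial.map_pow, map_C, eA, eB]
    rfl
  have ep : ∀ (s t : K), algebraMap K (Om k) (MvPolynomial.aeval (Ψ.p s t) W.f) =
      MvPolynomial.aeval (Φ.p s t) W.f := fun s t => by
    rw [← MvPolynomial.aeval_algebraMap_apply]
    congr 2
    funext i
    change ((algebraMap k K (z.x i) * t + Ψ.x1 i * s : K) : Om k) =
      algebraMap k (Om k) (z.x i) * t + Φ.x1 i * s
    rw [← e1 i]
    rfl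
  have hinj : Function.Injective (algebraMap K (Om k)) := (algebraMap K (Om k)).injective
  refine ⟨K, hK, ⟨{
    t := ⟨tt k, htK⟩
    y := ⟨y, hyK⟩
    ht := ?_
    hE := Subtype.ext hE
    ι := ι
    κ := ⟨κ, hκK⟩
    θ := ⟨θ, hθK⟩
    hk := ?_
    Φ := Ψ
    hA := Subtype.ext ((e2 0).trans hA)
    hB := Subtype.ext ((e3 0).trans hB)
    c' := ⟨c', hc'K⟩
    hc' := ?_
    rad := ⟨fun i hi => ?_, fun i hi => ?_, ⟨rc, hrcK⟩, ?_⟩
    split := ?_
    cube := fun s hs => ?_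
    cube' := ⟨⟨w0, hw0K⟩, ?_⟩ }⟩⟩
  · intro h
    exact transc_tt (k := k) (h.algHom K.val)
  · rcases hk with ⟨h1, h2, h3⟩ | ⟨h1, h2, h3, h4⟩
    · exact Or.inl ⟨h1, Subtype.ext h2, Subtype.ext h3⟩
    · exact Or.inr ⟨h1, h2, Subtype.ext h3, Subtype.ext h4⟩
  · obtain ⟨h1, h2⟩ := hc'
    refine ⟨fun h => h1 (congrArg Subtype.val h), ?_⟩
    rcases h2 with h2 | ⟨h2, i, h3⟩
    · exact Or.inl (Subtype.ext (h2.trans e4.symm))
    · refine Or.inr ⟨Subtype.ext (e4.trans h2), i, Subtype.ext ?_⟩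
      change c' = ((Ψ.x1 i ^ (m * W.e) : K) : Om k)
      rw [h3, ← e1 i]
      rfl
  · by_cases h : i ≤ Φ.A.natDegree
    · refine ⟨⟨rA i, k4 ⟨i, h, rfl⟩⟩, Subtype.ext ?_⟩
      exact (hrA i hi).trans (e2 i).symm
    · refine ⟨0, ?_⟩
      rw [zero_pow hi.ne']
      refine Subtype.ext ?_
      rw [e2 i, coeff_eq_zero_of_natDegree_lt (by omega)]
      rfl
  · by_cases h : i ≤ Φ.B.natDegree
    · refine ⟨⟨rB i, k5 ⟨i, h, rfl⟩⟩, Subtype.ext ?_⟩
      exact (hrB i hi).trans (e3 i).symm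
    · refine ⟨0, ?_⟩
      rw [zero_pow hi.ne']
      refine Subtype.ext ?_
      rw [e3 i, coeff_eq_zero_of_natDegree_lt (by omega)]
      rfl
  · exact Subtype.ext (hrc.trans e4.symm)
  · refine (Splits.natDegree_eq_card_roots (Splits.of_splits_map (algebraMap K (Om k))
      (IsAlgClosed.splits _) fun a ha => ?_)).symm
    rw [eQ] at ha
    exact ⟨⟨a, k6 (by simpa using ha)⟩, rfl⟩
  · have hs' : (s : Om k) ∈ (Φ.Q κ).roots := by
      have h1 : Ψ.Q ⟨κ, hκK⟩ ≠ 0 := by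
        intro h
        rw [h, roots_zero] at hs
        exact absurd hs (Multiset.notMem_zero _)
      have h2 := (mem_roots h1).1 hs
      have h3 := IsRoot.map (f := algebraMap K (Om k)) h2
      rw [eQ] at h3
      refine (mem_roots ?_).2 h3
      rw [← eQ, Ne, Polynomial.map_eq_zero_iff hinj]
      exact h1
    refine ⟨⟨ws s, k7 ⟨s, by simpa using hs', rfl⟩⟩, hinj ?_⟩
    rw [ep, map_pow]
    exact hws s
  · apply hinj
    rw [ep, map_pow]
    exact hw0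

end Pool.Agent.CYU
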