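import Pool.Agent.CYU.HomA

/-!
# Polynomials with `A ^ (j ν) + B ^ j` regular

`int_prod`: let `R = ∏ F i` have regular coefficients, let `σ`, `τ` be regular, let the value of
`R` at `(σ, τ)` be a unit and let the values of the `F i` be regular. Then the `F i` have regular
coefficients. Write `F i = c i G i`, `G i` with reduction `≠ 0`. If one `c i` is not regular then
another one has to vanish (otherwise `R = (∏ c i) ∏ G i` is not regular), so the value of this
factor vanishes and so does the product of all values.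
-/

set_option autoImplicit false

noncomputable section

namespace Pool.Agent.CYU

open Pool.Agent.ZCyc Pool.Agent.Dess Pool.Agent.TInc Polynomial

variable {k : Type} [Field k] [IsAlgClosed k] [CharZero k] {M : Type} [Field M] [Algebra k M]

theorem exists_prim (hM : IsCurve k M) (v : Place k M) {F : M[X]} (hF : F ≠ 0) :
    ∃ (c : M) (G : M[X]) (g : k[X]), c ≠ 0 ∧ (∃ i, F.coeff i = c) ∧ F = C c * G ∧ Red v G g ∧
      g ≠ 0 ∧ G.natDegree = F.natDegree := by
  obtain ⟨i, hi, hmin⟩ := Finset.exists_min_image F.support (fun i => ord v (F.coeff i))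
    (by rwa [Finset.nonempty_iff_ne_empty, Ne, support_eq_empty])
  have hc : F.coeff i ≠ 0 := mem_support_iff.1 hi
  have hreg : ∀ l, (C (F.coeff i)⁻¹ * F).coeff l ∈ v.ring := by
    intro l
    rw [coeff_C_mul]
    by_cases hl : F.coeff l = 0
    · rw [hl, mul_zero]
      exact v.ring.zero_mem
    · rw [mem_iff_ord hM (mul_ne_zero (inv_ne_zero hc) hl), ord_mul hM v (inv_ne_zero hc) hl,
        ord_inv hM]
      have := hmin l (mem_support_iff.2 hl)
      omega
  obtain ⟨g, hg, -⟩ := exists_red hM hreg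
  refine ⟨F.coeff i, C (F.coeff i)⁻¹ * F, g, hc, ⟨i, rfl⟩, ?_, hg, ?_,
    natDegree_C_mul (inv_ne_zero hc)⟩
  · rw [← mul_assoc, ← C_mul, mul_inv_cancel₀ hc, C_1, one_mul]
  · rintro rfl
    have h1 := hg i
    rw [coeff_C_mul, inv_mul_cancel₀ hc, coeff_zero] at h1
    have h2 : v.At (1 : M) (1 : k) := by
      simpa using Place.at_const (v := v) (1 : k)
    exact one_ne_zero (h2.unique h1)

omit [IsAlgClosed k] [CharZero k] in
theorem Red.prod {v : Place k M} {ι : Type*} {s : Finset ι} {P : ι → M[X]} {p : ι → k[X]}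
    (h : ∀ i ∈ s, Red v (P i) (p i)) : Red v (∏ i ∈ s, P i) (∏ i ∈ s, p i) := by
  classical
  induction s using Finset.induction_on with
  | empty =>
    rw [Finset.prod_empty, Finset.prod_empty]
    exact Red.one
  | insert i s hi ih =>
    rw [Finset.prod_insert hi, Finset.prod_insert hi]
    exact (h i (Finset.mem_insert_self i s)).mul
      (ih fun j hj => h j (Finset.mem_insert_of_mem hj))

omit [IsAlgClosed k] [CharZero k] in
/-- a product with a regular polynomial with reduction `≠ 0` -/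
theorem mem_of_C_mul {v : Place k M} {c : M} {G : M[X]} {g : k[X]}
    (hG : Red v G g) (hg : g ≠ 0) (h : ∀ i, (C c * G).coeff i ∈ v.ring) : c ∈ v.ring := by
  obtain ⟨l, hl⟩ : ∃ l, g.coeff l ≠ 0 := by
    by_contra hcon
    push Not at hcon
    exact hg (Polynomial.ext fun n => by rw [hcon n, coeff_zero])
  have h1 := h l
  rw [coeff_C_mul] at h1
  have h2 : (G.coeff l)⁻¹ ∈ v.ring := ((hG l).inv hl).mem
  have h3 : G.coeff l ≠ 0 := by
    intro h0
    have h4 := hG l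
    rw [h0] at h4
    exact hl (h4.unique at_zero_zero)
  have h5 : c = c * G.coeff l * (G.coeff l)⁻¹ := by
    rw [mul_assoc, mul_inv_cancel₀ h3, mul_one]
  rw [h5]
  exact v.ring.mul_mem _ _ h1 h2

theorem int_prod (hM : IsCurve k M) {v : Place k M} {ι : Type*} {S : Finset ι} {F : ι → M[X]}
    {d : ι → ℕ} (hd : ∀ i ∈ S, (F i).natDegree ≤ d i) {R : M[X]} (h : ∏ i ∈ S, F i = R)
    (hR : ∀ l, R.coeff l ∈ v.ring) {σ τ : M} (hσ : σ ∈ v.ring) (hτ : τ ∈ v.ring)
    (hR1 : ¬ v.Vanishes (hev R (∑ i ∈ S, d i) σ τ))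
    (hF : ∀ i ∈ S, hev (F i) (d i) σ τ ∈ v.ring) :
    ∀ i ∈ S, ∀ l, (F i).coeff l ∈ v.ring := by
  classical
  have hR0 : R ≠ 0 := by
    rintro rfl
    rw [hev_zero] at hR1
    exact hR1 v.vanishes_zero
  have hne : ∀ i ∈ S, F i ≠ 0 := by
    intro i hi h0
    rw [← h] at hR0
    exact hR0 (Finset.prod_eq_zero hi h0)
  have hex : ∀ i, ∃ (c : M) (G : M[X]) (g : k[X]), i ∈ S → (c ≠ 0 ∧ F i = C c * G ∧
      Red v G g ∧ g ≠ 0) := by
    intro i
    by_cases hi : i ∈ S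
    · obtain ⟨c, G, g, h1, -, h2, h3, h4, -⟩ := exists_prim hM v (hne i hi)
      exact ⟨c, G, g, fun _ => ⟨h1, h2, h3, h4⟩⟩
    · exact ⟨0, 0, 0, fun h => absurd h hi⟩
  choose c G g hcg using hex
  -- no factor vanishes
  have hnv : ∀ i ∈ S, ¬ v.Vanishes (c i) := by
    intro i hi hv
    apply hR1
    rw [← h, hev_prod S hd, ← Finset.mul_prod_erase S _ hi]
    refine Place.Vanishes.mul v ?_ (v.ring.prod_mem fun j hj => hF j (Finset.mem_of_mem_erase hj))
    rw [(hcg i hi).2.1, hev_C_mul]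
    exact hv.mul v (hev_mem (hcg i hi).2.2.1.mem _ hσ hτ)
  have hle : ∀ i ∈ S, ord v (c i) ≤ 0 := by
    intro i hi
    by_contra hcon
    push Not at hcon
    exact hnv i hi ((vanishes_iff_ord hM (hcg i hi).1).2 hcon)
  have hprod : ∏ i ∈ S, F i = C (∏ i ∈ S, c i) * ∏ i ∈ S, G i := by
    rw [map_prod, ← Finset.prod_mul_distrib]
    exact Finset.prod_congr rfl fun i hi => (hcg i hi).2.1
  have hcm : ∏ i ∈ S, c i ∈ v.ring := by
    refine mem_of_C_mul (Red.prod fun i hi => (hcg i hi).2.2.1)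
      (Finset.prod_ne_zero_iff.2 fun i hi => (hcg i hi).2.2.2) ?_
    rw [← hprod, h]
    exact hR
  have hc0 : ∏ i ∈ S, c i ≠ 0 := Finset.prod_ne_zero_iff.2 fun i hi => (hcg i hi).1
  rw [mem_iff_ord hM hc0, ord_prod hM v S c fun i hi => (hcg i hi).1] at hcm
  have hz : ∀ i ∈ S, ord v (c i) = 0 := by
    intro i hi
    have h1 : ∑ i ∈ S, ord v (c i) ≤ 0 := Finset.sum_nonpos hle
    exact (Finset.sum_eq_zero_iff_of_nonpos hle).1 (le_antisymm h1 hcm) i hi
  intro i hi l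
  rw [(hcg i hi).2.1, coeff_C_mul]
  refine v.ring.mul_mem _ _ ?_ ((hcg i hi).2.2.1.mem l)
  rw [mem_iff_ord hM (hcg i hi).1, hz i hi]

/-- the coefficients of a polynomial are regular if those of a power are -/
theorem coeffs_of_pow (hM : IsCurve k M) {v : Place k M} {A : M[X]} {n : ℕ} (hn : 0 < n)
    (h : ∀ i, (A ^ n).coeff i ∈ v.ring) : ∀ i, A.coeff i ∈ v.ring := by
  by_cases hA : A = 0
  · intro i
    rw [hA, coeff_zero]
    exact v.ring.zero_mem
  obtain ⟨c, G, g, hc, -, hG, hg, hg0, -⟩ := exists_prim hM v hA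
  have h1 : A ^ n = C (c ^ n) * G ^ n := by
    rw [hG, mul_pow, ← C_pow]
  have h2 : c ^ n ∈ v.ring := by
    refine mem_of_C_mul (hg.pow n) (pow_ne_zero n hg0) ?_
    rw [← h1]
    exact h
  have h3 : c ∈ v.ring := by
    rw [mem_iff_ord hM (pow_ne_zero n hc), ord_pow hM] at h2
    rw [mem_iff_ord hM hc]
    have : (0 : ℤ) < n := by exact_mod_cast hn
    nlinarith
  intro i
  rw [hG, coeff_C_mul]
  exact v.ring.mul_mem _ _ h3 (hg.mem i)

theorem int_hom (hM : IsCurve k M) {v : Place k M} {j ν e : ℕ} (hj : 2 ≤ j) (hν : 0 < ν)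
    {A B R : M[X]} (hA : A.natDegree ≤ e) (hB : B.natDegree ≤ ν * e)
    (h : A ^ (j * ν) + B ^ j = R) (hR : ∀ i, R.coeff i ∈ v.ring) {σ τ : M} (hσ : σ ∈ v.ring)
    (hτ : τ ∈ v.ring) (hR1 : ¬ v.Vanishes (hev R (j * (ν * e)) σ τ))
    (hA1 : hev A e σ τ ∈ v.ring) (hB1 : hev B (ν * e) σ τ ∈ v.ring) :
    (∀ i, A.coeff i ∈ v.ring) ∧ ∀ i, B.coeff i ∈ v.ring := by
  classical
  have hj0 : 0 < j := by omega
  have : NeZero j := ⟨hj0.ne'⟩
  obtain ⟨ζ, hζ⟩ : ∃ ζ : k, IsPrimitiveRoot ζ j := by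
    have : NeZero (j : k) := ⟨by exact_mod_cast hj0.ne'⟩
    exact HasEnoughRootsOfUnity.exists_primitiveRoot k j
  obtain ⟨δ, hδ⟩ : ∃ δ : k, δ ^ j = -1 := IsAlgClosed.exists_pow_nat_eq (-1) hj0
  have hδ0 : δ ≠ 0 := by
    rintro rfl
    rw [zero_pow hj0.ne'] at hδ
    exact neg_ne_zero.2 one_ne_zero hδ.symm
  have hζ' : IsPrimitiveRoot (C (algebraMap k M ζ) : M[X]) j := by
    have h1 : Function.Injective ((C : M →+* M[X]).comp (algebraMap k M)) :=
      RingHom.injective _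
    exact hζ.map_of_injective (f := (C : M →+* M[X]).comp (algebraMap k M)) h1
  set D : M[X] := C (algebraMap k M δ) * A ^ ν with hD
  have hDj : B ^ j - D ^ j = R := by
    rw [hD, mul_pow, ← C_pow, ← map_pow, hδ, ← pow_mul, mul_comm ν j, ← h, map_neg, map_neg,
      map_one, map_one]
    ring
  have hfac := hζ'.pow_sub_pow_eq_prod_sub_mul B D hj0
  have hDdeg : D.natDegree ≤ ν * e := by
    refine (natDegree_C_mul_le _ _).trans ?_
    exact natDegree_pow_le_of_le ν hA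
  have hconst : ∀ ξ ∈ nthRootsFinset j (1 : M[X]), ∃ c : k, ξ = C (algebraMap k M c) := by
    intro ξ hξ
    rw [Polynomial.mem_nthRootsFinset hj0] at hξ
    obtain ⟨i, -, hi⟩ := hζ'.eq_pow_of_pow_eq_one hξ
    refine ⟨ζ ^ i, ?_⟩
    rw [← hi, map_pow, C_pow]
  have hDval : hev D (ν * e) σ τ ∈ v.ring := by
    rw [hD, hev_C_mul, hev_pow hA]
    exact v.ring.mul_mem _ _ (v.const_mem δ) (pow_mem hA1 ν)
  have hdeg : ∀ ξ ∈ nthRootsFinset j (1 : M[X]), (B - ξ * D).natDegree ≤ ν * e := by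
    intro ξ hξ
    obtain ⟨c, rfl⟩ := hconst ξ hξ
    exact (natDegree_sub_le _ _).trans (max_le hB ((natDegree_C_mul_le _ _).trans hDdeg))
  have hval : ∀ ξ ∈ nthRootsFinset j (1 : M[X]), hev (B - ξ * D) (ν * e) σ τ ∈ v.ring := by
    intro ξ hξ
    obtain ⟨c, rfl⟩ := hconst ξ hξ
    rw [hev_sub, hev_C_mul]
    exact sub_mem hB1 (v.ring.mul_mem _ _ (v.const_mem c) hDval)
  have hsum : ∑ _ξ ∈ nthRootsFinset j (1 : M[X]), ν * e = j * (ν * e) := by
    rw [Finset.sum_const, hζ'.card_nthRootsFinset, smul_eq_mul]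
  have key := int_prod hM (S := nthRootsFinset j (1 : M[X])) (F := fun ξ => B - ξ * D)
    (d := fun _ => ν * e) hdeg (R := R) (by rw [← hfac, hDj]) hR hσ hτ (by rwa [hsum]) hval
  have h1 := key 1 (one_mem_nthRootsFinset hj0)
  have h2 := key _ (hζ'.mem_nthRootsFinset hj0)
  have hζ1 : ζ ≠ 1 := hζ.ne_one (by omega)
  have hc : (ζ - 1) * δ ≠ 0 := mul_ne_zero (sub_ne_zero.2 hζ1) hδ0
  have hAν : ∀ i, (A ^ ν).coeff i ∈ v.ring := by
    intro i
    have e1 : (A ^ ν).coeff i = algebraMap k M ((ζ - 1) * δ)⁻¹ *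
        ((B - 1 * D).coeff i - (B - C (algebraMap k M ζ) * D).coeff i) := by
      rw [coeff_sub, coeff_sub, one_mul, coeff_C_mul, hD]
      simp only [coeff_C_mul]
      rw [map_inv₀]
      have h3 : algebraMap k M ((ζ - 1) * δ) ≠ 0 := by
        rw [Ne, map_eq_zero]
        exact hc
      rw [eq_inv_mul_iff_mul_eq₀ h3, map_mul, map_sub, map_one]
      ring
    rw [e1]
    exact v.ring.mul_mem _ _ (v.const_mem _) (sub_mem (h1 i) (h2 i))
  refine ⟨coeffs_of_pow hM hν hAν, fun i => ?_⟩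
  have e2 : B.coeff i = (B - 1 * D).coeff i + algebraMap k M δ * (A ^ ν).coeff i := by
    rw [coeff_sub, one_mul, hD, coeff_C_mul]
    ring
  rw [e2]
  exact v.ring.add_mem _ _ (h1 i) (v.ring.mul_mem _ _ (v.const_mem _) (hAν i))

end Pool.Agent.CYU
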