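import Pool.Agent.CYU.LocF
import Pool.Agent.CYU.IntA

/-!
# No contributions at the poles

Proof of `not_inf`. Let `l` be the factor in `Spec`, `X = Φ.p s t`, `ω = θ Φ.a s t`. `l t z.x i₀`
is the coordinate `i₀` of `l X`, so `l t` is regular; `l s x1 = l X - l t z.x` is regular. Let
`A''(T) = A(l s T)`, `B''(T) = B(l s T)`, `R = f(z.x + l s x1 T) - c (l s) ^ (m e) T ^ (m e)`, so
`A'' ^ m + B'' ^ j = R` (`Φ.eq`), and `R` has regular coefficients (`c (l s) ^ (m e)` is zero or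
`l ^ (m e) c' s ^ (m e)`, which vanishes at `v`). At the point `(1, l t)`: `A''` has the value
`Φ.a (l s) (l t) = l ^ e Φ.a s t = θ⁻¹ (l ^ e ω)`, regular, because `θ⁻¹` and `l ^ e ω` are
(`Spec`). `B''` has the value `l ^ (ν e) Φ.b s t = κ (l ^ e Φ.a s t) ^ ν = (κ / θ ^ ν) (l ^ e ω) ^
ν`, regular. `R` has the value `(l ^ e Φ.a) ^ m + (l ^ (ν e) Φ.b) ^ j = (l ^ e ω) ^ m`
(`Fam.om_pow`), a unit. By `int_hom` the coefficients of `A''` are regular, in particular `A.coeff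
0`: contradiction.
`loc_inf`: all terms of `ctv` are zero (`Fam.root`, `ctr_zero`).
-/

set_option autoImplicit false

noncomputable section

namespace Pool.Agent.CYU

open Pool.Agent.ZCyc Pool.Agent.Dess Pool.Agent.TInc Polynomial

variable {k : Type} [Field k] [IsAlgClosed k] [CharZero k] {m : ℕ} [NeZero m] {j ν : ℕ}
  {V : Type} [AddCommGroup V] [Module k V] {χ : Mu k m →* kˣ} {W W' : Cov k m}
  (G : Bi χ χ W W' V)

theorem not_inf (hex : Ex m j ν) {z : Pt W k} {K : Type} [Field K] [Algebra k K]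
    (hK : IsCurve k K) {v : Place k K} {Φ : Fam W j ν z K} {c' : K} (hc' : Ct Φ c') {κ θ : K}
    (hθ : θ ^ m = 1 + κ ^ j) (hθ1 : v.Vanishes θ⁻¹) (hκ : κ * θ⁻¹ ^ ν ∈ v.ring)
    (hA : Φ.A.coeff 0 ∉ v.ring) {s t : K} (h : Φ.b s t = κ * Φ.a s t ^ ν) (d : ℤ) (q : Pt W k) :
    ¬ Spec v (Φ.p s t) (θ * Φ.a s t) (c' * s ^ (m * W.e)) d q := by
  rintro ⟨l, hx, hw, hq, hd, ho⟩
  have hmul := hex.mul
  obtain ⟨hm2, hj2, hν1, -⟩ := hex.two_le
  -- `l t` is regular
  have hlt : l * t ∈ v.ring := by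
    have h1 := (hx Φ.i₀).mem
    rw [Φ.p_i₀] at h1
    have h2 : l * t = algebraMap k K (z.x Φ.i₀)⁻¹ * (l * (algebraMap k K (z.x Φ.i₀) * t)) := by
      have h3 : algebraMap k K (z.x Φ.i₀) ≠ 0 := by
        rw [Ne, map_eq_zero]
        exact Φ.hi₀
      rw [map_inv₀]
      field_simp
    rw [h2]
    exact v.ring.mul_mem _ _ (v.const_mem _) h1
  have hlx : ∀ i, l * s * Φ.x1 i ∈ v.ring := by
    intro i
    have h1 := (hx i).mem
    have h2 : l * s * Φ.x1 i = l * Φ.p s t i - algebraMap k K (z.x i) * (l * t) := by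
      unfold Fam.p
      ring
    rw [h2]
    exact sub_mem h1 (v.ring.mul_mem _ _ (v.const_mem _) hlt)
  -- `θ ≠ 0`
  have hθ0 : θ ≠ 0 := by
    rintro rfl
    rw [zero_mul, mul_zero] at hw
    exact hq (hw.unique at_zero_zero)
  have hlc : (l * s) ^ (m * W.e) * Φ.c ∈ v.ring := by
    rcases hc'.2 with h1 | ⟨h1, -⟩
    · rw [← h1]
      have hne : l ^ (m * W.e) * (c' * s ^ (m * W.e)) ≠ 0 := by
        intro h0
        rw [h0, ord_zero] at ho
        omega
      have h2 : (l * s) ^ (m * W.e) * c' = l ^ (m * W.e) * (c' * s ^ (m * W.e)) := by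
        rw [mul_pow]
        ring
      rw [h2, mem_iff_ord hK hne, ho]
      exact hd.le
    · rw [h1, mul_zero]
      exact v.ring.zero_mem
  set A' : K[X] := Φ.A.comp (C (l * s) * X) with hA'
  set B' : K[X] := Φ.B.comp (C (l * s) * X) with hB'
  have heq := Φ.eq_comp (l * s)
  rw [← hA', ← hB'] at heq
  have hR : ∀ i, (A' ^ m + B' ^ j).coeff i ∈ v.ring := by
    intro i
    have h1 : A' ^ m + B' ^ j = MvPolynomial.aeval
        (fun i => C (algebraMap k K (z.x i)) + C (l * s * Φ.x1 i) * X) W.f -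
        C ((l * s) ^ (m * W.e) * Φ.c) * X ^ (m * W.e) := by
      rw [heq]
      ring
    rw [h1, coeff_sub]
    refine sub_mem (coeff_mem_aeval W.f ?_ i) ?_
    · intro i' l'
      rw [coeff_add, coeff_C, coeff_C_mul, coeff_X]
      refine add_mem ?_ ?_
      · split_ifs
        · exact v.const_mem _
        · exact v.ring.zero_mem
      · split_ifs
        · rw [mul_one]
          exact hlx i'
        · rw [mul_zero]
          exact v.ring.zero_mem
    · rw [coeff_C_mul, coeff_X_pow]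
      split_ifs
      · rw [mul_one]
        exact hlc
      · rw [mul_zero]
        exact v.ring.zero_mem
  -- the values at `(1, l t)`
  have hvA : hev A' W.e 1 (l * t) = l ^ W.e * Φ.a s t := by
    rw [hA', hev_comp, mul_one, hev_smul]
    rfl
  have hvB : hev B' (ν * W.e) 1 (l * t) = l ^ (ν * W.e) * Φ.b s t := by
    rw [hB', hev_comp, mul_one, hev_smul]
    rfl
  have hmA : hev A' W.e 1 (l * t) ∈ v.ring := by
    have h1 : l ^ W.e * Φ.a s t = θ⁻¹ * (l ^ W.e * (θ * Φ.a s t)) := by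
      field_simp
    rw [hvA, h1]
    exact v.ring.mul_mem _ _ hθ1.mem hw.mem
  have hmB : hev B' (ν * W.e) 1 (l * t) ∈ v.ring := by
    have h1 : l ^ (ν * W.e) * Φ.b s t =
        κ * θ⁻¹ ^ ν * (l ^ W.e * (θ * Φ.a s t)) ^ ν := by
      have h2 : l ^ (ν * W.e) = (l ^ W.e) ^ ν := by
        rw [← pow_mul, mul_comm W.e ν]
      have h3 : θ⁻¹ ^ ν * θ ^ ν = 1 := by
        rw [← mul_pow, inv_mul_cancel₀ hθ0, one_pow]
      rw [h, h2, mul_pow, mul_pow]
      calc (l ^ W.e) ^ ν * (κ * Φ.a s t ^ ν) =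
          κ * (θ⁻¹ ^ ν * θ ^ ν) * ((l ^ W.e) ^ ν * Φ.a s t ^ ν) := by
            rw [h3]
            ring
        _ = κ * θ⁻¹ ^ ν * ((l ^ W.e) ^ ν * (θ ^ ν * Φ.a s t ^ ν)) := by ring
    rw [hvB, h1]
    exact v.ring.mul_mem _ _ hκ (pow_mem hw.mem ν)
  have hdA : A'.natDegree ≤ W.e := natDegree_comp_lin_le Φ.degA _
  have hdB : B'.natDegree ≤ ν * W.e := natDegree_comp_lin_le Φ.degB _
  have hjν : ∀ w : ℕ, j * (ν * w) = m * w := fun w => by
    rw [hmul]
    ring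
  have hvR : hev (A' ^ m + B' ^ j) (j * (ν * W.e)) 1 (l * t) =
      (l ^ W.e * (θ * Φ.a s t)) ^ m := by
    have h1 := hev_pow hdA m 1 (l * t)
    have h2 := hev_pow hdB j 1 (l * t)
    rw [hev_add, h2, hjν, h1, hvA, hvB]
    have h3 := Φ.om_pow hex hθ h
    have h4 : (l ^ (ν * W.e)) ^ j = (l ^ W.e) ^ m := by
      rw [← pow_mul, ← pow_mul, mul_comm (ν * W.e) j, hjν, mul_comm]
    rw [mul_pow, mul_pow, h4, mul_pow (l ^ W.e) (θ * Φ.a s t), h3]
    ring
  have hnv : ¬ v.Vanishes (hev (A' ^ m + B' ^ j) (j * (ν * W.e)) 1 (l * t)) := by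
    rw [hvR]
    intro h1
    have h2 := hw.pow m
    have h3 := (Place.at_zero_iff.2 h1).unique h2
    exact pow_ne_zero m hq h3.symm
  have key := int_hom hK (v := v) (j := j) (ν := ν) (e := W.e) hj2 (by omega) hdA hdB
    (R := A' ^ m + B' ^ j) (by rw [← hmul]) hR v.ring.one_mem hlt hnv hmA hmB
  apply hA
  have h1 := key.1 0
  rwa [hA', comp_C_mul_X_coeff, pow_zero, mul_one] at h1

theorem loc_inf (hex : Ex m j ν) {z : Pt W k} {K : Type} [Field K] [Algebra k K]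
    (hK : IsCurve k K) {v : Place k K} {Φ : Fam W j ν z K} {c' : K} (hc' : Ct Φ c') {κ θ : K}
    (hθ : θ ^ m = 1 + κ ^ j) (hθ1 : v.Vanishes θ⁻¹) (hκ : κ * θ⁻¹ ^ ν ∈ v.ring)
    (hA : Φ.A.coeff 0 ∉ v.ring) (hQ : Φ.Q κ ≠ 0) (z' : Pt W' k) :
    ctv G Φ κ θ c' z' v = 0 := by
  obtain ⟨h1, h2⟩ := Φ.root hex hQ
  have e1 : ((Φ.Q κ).roots.map fun s => ctr (fun q => G.F q z') v (Φ.p s 1) (θ * Φ.a s 1)
      (c' * s ^ (m * W.e))).sum = 0 := by
    apply Multiset.sum_eq_zero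
    intro x hx
    rw [Multiset.mem_map] at hx
    obtain ⟨s, hs, rfl⟩ := hx
    exact ctr_zero fun d q => not_inf hex hK hc' hθ hθ1 hκ hA (h1 s hs) d q
  unfold ctv
  rw [e1, zero_add]
  by_cases hd : (Φ.Q κ).natDegree < ν * W.e
  · rw [ctr_zero fun d q => not_inf hex hK hc' hθ hθ1 hκ hA (h2 hd) d q, smul_zero]
  · rw [Nat.sub_eq_zero_of_le (not_lt.1 hd), zero_smul]

end Pool.Agent.CYU
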