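import Pool.Agent.CYU.SumN
import Pool.Agent.CYU.LocI

/-!
# The global relation

Proof of `glob`. Let `κ`, `θ` be the numbers of the translation; `θ ^ m = 1 + κ ^ j` (`kt_pow`);
`(Q κ).coeff 0 = z.w ^ ν (y - κ t ^ ν) = z.w ^ ν δ` is not zero (`δ` has a pole where `t` has one: `delta_pole`; `t` is not
constant, so there is a place with a pole). So `Q κ ≠ 0`, and its roots are `≠ 0`.
If `F := G.F z z' = 0` we are done; assume `F ≠ 0`. For every root `s` of `Q κ`: `rel_fam` with `t = 1` for `P' = z'.base K`,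
`p' v = z'`, `ω = θ Φ.a s 1` (`Fam.root`, `Fam.om_pow`, `cube`); if `deg Q < ν e`: the same for `(1, 0)` (`cube'`). The sum over all of them:
`∑ᶠ v, ctv v = 0`, finite support. At a place where `t` is not regular: `ctv v = 0` (`loc_inf`, `kt_inf`; `A.coeff 0 = z.w t`
is not regular). At a place where `t` is regular: `y`, `κ`, `θ` are regular (`kt_fin`), `exists_scale` gives `r`, `Ψ`; if
`Ψ.Q κ₀ = 0` then `F = 0` by `deg_c`. Otherwise `loc_fin` with `η = η v`, where `η v` is chosen by `delta_zero` if `δ` vanishes at `v`: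
`θ₀ Ψ.A.coeff 0 = θ₀ z.w t₀ = η z.w` (`IsRed.A 0`). `ord v ((Q κ).coeff 0) = ord v δ`. So
`ctv v = m e ord v δ • χ(η v) • F` (`eq1`), and `∑ᶠ v, ctv v = m e (∑ ...) • F ≠ 0` by `sum_ne`.
-/

set_option autoImplicit false

noncomputable section

namespace Pool.Agent.CYU

open Pool.Agent.ZCyc Pool.Agent.Dess Pool.Agent.TInc Polynomial

variable {k : Type} [Field k] [IsAlgClosed k] [CharZero k] {m : ℕ} [NeZero m] {j ν : ℕ}
  {V : Type} [AddCommGroup V] [Module k V] {χ : Mu k m →* kˣ} {W W' : Cov k m}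
  (G : Bi χ χ W W' V)

/-- The data over a curve: a family over the function field `K` whose coefficients of index `0` are the
coordinates of the generic point `(t, y)` of the curve `t ^ m + y ^ j = 1` (times powers of `z.w`). -/
structure Dat (W : Cov k m) (j ν : ℕ) (z : Pt W k) (K : Type) [Field K] [Algebra k K] where
  t : K
  y : K
  ht : Transcendental k t
  hE : t ^ m + y ^ j = 1
  ι : k
  κ : K
  θ : K
  hk : KT m ι t y κ θ
  Φ : Fam W j ν z K
  hA : Φ.A.coeff 0 = algebraMap k K z.w * t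
  hB : Φ.B.coeff 0 = algebraMap k K (z.w ^ ν) * y
  c' : K
  hc' : Ct Φ c'
  rad : Rad Φ
  split : (Φ.Q κ).roots.card = (Φ.Q κ).natDegree
  cube : ∀ s ∈ (Φ.Q κ).roots, ∃ w : K, w ^ m = MvPolynomial.aeval (Φ.p s 1) W.f
  cube' : ∃ w : K, w ^ m = MvPolynomial.aeval (Φ.p 1 0) W.f

omit [IsAlgClosed k] [CharZero k] [NeZero m] [Module k V] in
/-- sums of relations -/
private lemma glob_sum {K : Type} [Field K] [Algebra k K] {f : K → Place k K → V}
    (M : Multiset K)
    (h : ∀ s ∈ M, (Function.support (f s)).Finite ∧ ∑ᶠ v, f s v = 0) :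
    (Function.support fun v => (M.map fun s => f s v).sum).Finite ∧
      ∑ᶠ v, (M.map fun s => f s v).sum = 0 := by
  induction M using Multiset.induction_on with
  | empty =>
    have h1 : (fun v : Place k K => ((0 : Multiset K).map fun s => f s v).sum) = 0 := by
      funext v
      rw [Multiset.map_zero, Multiset.sum_zero]
      rfl
    rw [h1]
    exact ⟨by rw [Function.support_zero]; exact Set.finite_empty, finsum_zero⟩
  | cons a M ih =>
    obtain ⟨h1, h2⟩ := h a (Multiset.mem_cons_self a M)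
    obtain ⟨h3, h4⟩ := ih fun s hs => h s (Multiset.mem_cons_of_mem hs)
    have h5 : (fun v : Place k K => ((a ::ₘ M).map fun s => f s v).sum) =
        fun v => f a v + (M.map fun s => f s v).sum := by
      funext v
      rw [Multiset.map_cons, Multiset.sum_cons]
    rw [h5]
    refine ⟨(h1.union h3).subset (Function.support_add _ _), ?_⟩
    rw [finsum_add_distrib h1 h3, h2, h4, add_zero]

theorem glob (hex : Ex m j ν) (hχ : Function.Injective χ) (hn' : W'.e ≤ W'.n) {z : Pt W k}
    (hz : z.w ≠ 0) {K : Type} [Field K] [Algebra k K] (hK : IsCurve k K) (D : Dat W j ν z K)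
    (z' : Pt W' k) : G.F z z' = 0 := by
  classical
  by_contra hF
  obtain ⟨hm2, hj2, hν1, -⟩ := hex.two_le
  have hm0 : 0 < m := by omega
  have hθ := kt_pow hex D.hE D.hk
  -- the number `δ`
  set δ := D.y - D.κ * D.t ^ ν with hδ
  have hzw : algebraMap k K z.w ≠ 0 := by
    rw [Ne, map_eq_zero]
    exact hz
  have hδ0 : δ ≠ 0 := by
    intro h0
    have hcon : ∀ v : Place k K, D.t ∈ v.ring := by
      intro v
      by_contra hv
      apply delta_pole hex hK D.hE D.hk hv
      rw [← hδ, h0]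
      exact zero_mem _
    obtain ⟨a, ha⟩ := const_of_regular hK hcon
    apply D.ht
    rw [ha]
    exact isAlgebraic_algebraMap _
  have hQ0 : (D.Φ.Q D.κ).coeff 0 = algebraMap k K (z.w ^ ν) * δ := by
    have h1 : (D.Φ.A ^ ν).coeff 0 = D.Φ.A.coeff 0 ^ ν := by
      rw [coeff_zero_eq_eval_zero, coeff_zero_eq_eval_zero, eval_pow]
    rw [Fam.Q, coeff_sub, coeff_C_mul, h1, D.hA, D.hB, hδ, map_pow]
    ring
  have hc1 : algebraMap k K (z.w ^ ν) ≠ 0 := by
    rw [map_pow]
    exact pow_ne_zero _ hzw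
  have hQ0' : (D.Φ.Q D.κ).coeff 0 ≠ 0 := by
    rw [hQ0]
    exact mul_ne_zero hc1 hδ0
  have hordQ : ∀ v : Place k K, ord v ((D.Φ.Q D.κ).coeff 0) = ord v δ := by
    intro v
    rw [hQ0, ord_mul hK v hc1 hδ0, ord_const hK, zero_add]
  have hQ : D.Φ.Q D.κ ≠ 0 := by
    intro h0
    rw [h0, coeff_zero] at hQ0'
    exact hQ0' rfl
  obtain ⟨hroot, hroot'⟩ := D.Φ.root hex hQ
  -- the relation
  have hrel : (Function.support fun v => ctv G D.Φ D.κ D.θ D.c' z' v).Finite ∧
      ∑ᶠ v, ctv G D.Φ D.κ D.θ D.c' z' v = 0 := by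
    have h1 := glob_sum (f := fun s v => ctr (fun q => G.F q z') v (D.Φ.p s 1)
      (D.θ * D.Φ.a s 1) (D.c' * s ^ (m * W.e))) (D.Φ.Q D.κ).roots (fun s hs => by
        obtain ⟨w, hw⟩ := D.cube s hs
        have hs0 : s ≠ 0 := by
          rintro rfl
          apply hQ0'
          rw [coeff_zero_eq_eval_zero]
          exact (mem_roots hQ).1 hs
        exact rel_fam G hex hχ hK (P' := z'.base K) (p' := fun _ => z')
          (fun v => isVal_base v z') D.Φ D.hc' hs0 hw (D.Φ.om_pow hex hθ (hroot s hs)))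
    have h2 : (Function.support fun v => (ν * W.e - (D.Φ.Q D.κ).natDegree) •
        ctr (fun q => G.F q z') v (D.Φ.p 1 0) (D.θ * D.Φ.a 1 0)
          (D.c' * 1 ^ (m * W.e))).Finite ∧
        ∑ᶠ v, (ν * W.e - (D.Φ.Q D.κ).natDegree) •
          ctr (fun q => G.F q z') v (D.Φ.p 1 0) (D.θ * D.Φ.a 1 0)
            (D.c' * 1 ^ (m * W.e)) = 0 := by
      by_cases hd : (D.Φ.Q D.κ).natDegree < ν * W.e
      · obtain ⟨w, hw⟩ := D.cube'
        obtain ⟨h3, h4⟩ := rel_fam G hex hχ hK (P' := z'.base K) (p' := fun _ => z')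
          (fun v => isVal_base v z') D.Φ D.hc' one_ne_zero hw
          (D.Φ.om_pow hex hθ (hroot' hd))
        constructor
        · apply h3.subset
          intro v hv h5
          apply hv
          have h6 : ctr (fun q => G.F q z') v (D.Φ.p 1 0) (D.θ * D.Φ.a 1 0)
            (D.c' * 1 ^ (m * W.e)) = 0 := h5
          show _ • _ = (0 : V)
          rw [h6, smul_zero]
        · rw [← smul_finsum' _ h3, h4, smul_zero]
      · have h3 : ν * W.e - (D.Φ.Q D.κ).natDegree = 0 := by omega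
        have h5 : (fun v : Place k K => (ν * W.e - (D.Φ.Q D.κ).natDegree) •
            ctr (fun q => G.F q z') v (D.Φ.p 1 0) (D.θ * D.Φ.a 1 0)
              (D.c' * 1 ^ (m * W.e))) = 0 := by
          funext v
          rw [h3, zero_smul]
          rfl
        rw [h5]
        exact ⟨by rw [Function.support_zero]; exact Set.finite_empty, finsum_zero⟩
    refine ⟨(h1.1.union h2.1).subset (Function.support_add _ _), ?_⟩
    have h6 := finsum_add_distrib h1.1 h2.1
    rw [h1.2, h2.2, add_zero] at h6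
    exact h6
  -- the fixed points
  have hex' : ∀ v : Place k K, ∃ η : Mu k m, v.Vanishes δ →
      v.At (D.θ * D.t) ((η : kˣ) : k) := by
    intro v
    by_cases hv : v.Vanishes δ
    · obtain ⟨η, -, hη⟩ := delta_zero hex hK D.hE D.hk hv
      exact ⟨η, fun _ => hη⟩
    · exact ⟨1, fun h => absurd h hv⟩
  choose η hη using hex'
  have hloc1 : ∀ v : Place k K, D.t ∉ v.ring → ctv G D.Φ D.κ D.θ D.c' z' v = 0 := by
    intro v hv
    obtain ⟨h1, h2⟩ := kt_inf hex hK D.hE D.hk hv
    refine loc_inf G hex hK D.hc' hθ h1 h2 ?_ hQ z'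
    intro h3
    apply hv
    rw [D.hA] at h3
    have h4 : D.t = algebraMap k K z.w⁻¹ * (algebraMap k K z.w * D.t) := by
      rw [← mul_assoc, ← map_mul, inv_mul_cancel₀ hz, map_one, one_mul]
    rw [h4]
    exact mul_mem (v.const_mem _) h3
  have hloc2 : ∀ v : Place k K, D.t ∈ v.ring → ctv G D.Φ D.κ D.θ D.c' z' v =
      (m * W.e * ord v δ) • G.F (z.tw (η v)) z' := by
    intro v hv
    obtain ⟨hy, hκ, hθr⟩ := kt_fin hex hK D.hE D.hk hv
    obtain ⟨κ₀, hκ₀⟩ := exists_at hK v hκ
    obtain ⟨θ₀, hθ₀⟩ := exists_at hK v hθr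
    obtain ⟨r, Ψ, hr⟩ := exists_scale hK v D.Φ D.rad
      (by rw [D.hA]; exact mul_mem (v.const_mem _) hv)
      (by rw [D.hB]; exact mul_mem (v.const_mem _) hy)
    have hΨ : Ψ.Q κ₀ ≠ 0 := fun h0 => hF (deg_c G hex hχ hz Ψ h0 z')
    have h1 := loc_fin G hex hχ hn' hz hK D.hc' hr hθ hκ₀ hθ₀ hΨ hQ0' D.split (η := η v)
      (fun h2 => by
        have h3 : v.Vanishes δ := by
          rw [vanishes_iff_ord hK hδ0, ← hordQ, ← vanishes_iff_ord hK hQ0']
          exact h2
        have h4 := (Place.at_const (v := v) z.w).mul (hη v h3)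
        have h5 := hr.A 0
        rw [pow_zero, one_mul, D.hA] at h5
        have h6 := hθ₀.mul h5
        have e : D.θ * (algebraMap k K z.w * D.t) = algebraMap k K z.w * (D.θ * D.t) := by
          ring
        rw [e] at h6
        have h7 := h6.unique h4
        rw [h7, mul_comm]
        rfl) z'
    rw [h1, hordQ]
  -- the sum
  set f : Place k K → k := fun v => if D.t ∈ v.ring then
    (ord v δ : k) * ((χ (η v) : kˣ) : k) else 0 with hf
  have hne := sum_ne hex hK D.ht D.hE D.hk hχ (η := η) (F := f) hη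
    (fun v hv => by rw [hf]; exact if_neg hv) (fun v hv => by rw [hf]; exact if_pos hv)
  have hctv : ∀ v, ctv G D.Φ D.κ D.θ D.c' z' v = (((m * W.e : ℕ) : k) * f v) • G.F z z' := by
    intro v
    by_cases hv : D.t ∈ v.ring
    · have h1 : f v = (ord v δ : k) * ((χ (η v) : kˣ) : k) := if_pos hv
      rw [hloc2 v hv, G.eq1, h1, ← Int.cast_smul_eq_zsmul k, smul_smul]
      congr 1
      push_cast
      ring
    · have h1 : f v = 0 := if_neg hv
      rw [hloc1 v hv, h1, mul_zero, zero_smul]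
  have hsum := hrel.2
  rw [finsum_congr hctv, ← finsum_smul] at hsum
  have h1 := (smul_eq_zero.1 hsum).resolve_right hF
  have h2 : ∑ᶠ v, ((m * W.e : ℕ) : k) * f v = ((m * W.e : ℕ) : k) * ∑ᶠ v, f v :=
    (smul_finsum ((m * W.e : ℕ) : k) f).symm
  rw [h2, mul_eq_zero] at h1
  rcases h1 with h1 | h1
  · have h3 : m * W.e = 0 := by exact_mod_cast h1
    exact (Nat.mul_pos hm0 W.pos).ne' h3
  · exact hne h1

end Pool.Agent.CYU
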