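import Pool.Agent.CYU.DegC

/-!
# Lemma C: the points of the curve `f(p(T)) = A(T) ^ m + B(T) ^ j` over a point `(1 : κ : θ)`

`Φ` is a family over `k` with `Φ.c = 0`, `θ ^ m = 1 + κ ^ j`, `θ ≠ 0`. To every root `T` of
`Q = B - κ A ^ ν` belongs the point `P T` of `W` with the coordinates `p(T)` and `w = θ A(T)`, to
the root `∞` (of multiplicity `ν e - deg Q`) the point `P'` with the coordinates `x1`,
`w = θ A_e`.

Proof of `lem_c`. If `z'.w = 0` all terms are zero (`Bi.zero2`). Otherwise let `α = z'.w / θ`,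
`β = κ α ^ ν` (so `α ^ m + β ^ j = (1 + κ ^ j) α ^ m = z'.w ^ m`), and let `Φ'` be the family of
`exists_fam` for `W'`, `z'` over `K = k`, `A'(0) = α`, `B'(0) = β`. If `Φ'.Q κ = 0`: `deg_c` for
`G.flip`. Otherwise let `Ct Φ' c'`, `s = tt k`, `κ' = B'(s) / A'(s) ^ ν` (`A'(0) = α ≠ 0`, so
`A'(s) ≠ 0`): `κ'` is not constant (if `B' = κ₀ A' ^ ν` then at `0`: `κ₀ = κ`). Let
`H = B(T) - κ' A(T) ^ ν`, a polynomial in `T` over `Om k`. `H ≠ 0`: otherwise (`κ'` is not
constant) `A = B = 0`, but `A(0) ^ m + B(0) ^ j = z.w ^ m ≠ 0`. In the same way the coefficient of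
`T ^ (ν e)` in `H` is zero only if `A_e = B_(ν e) = 0`. Let `K` be a curve (`exists_curve`) with
`s`, `v'`, `v' ^ m = A'(s) ^ m + B'(s) ^ j`, `w'`, `w' ^ m = f'(p'(s))`, and all roots `T_i` of
`H`. Then `z_i = (p(T_i), (v' / A'(s)) A(T_i))` is a point of `W` over `K`. `rel_fam` for
`G.flip`, the family `Φ'.map` and the point `z_i` in the other factor; sum over `i` (with
multiplicities). By `over_not` only the places `v` with `s(v) = 0` contribute. Let `v` be such a
place: `v'` has the value `mu a z'.w` for an `a` (as `v' ^ m` has the value `z'.w ^ m`). By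
`over_zero` the contribution is `m e' ord v s` times
`∑ i, G.F (z_i(v)) (z'.tw a) = ∑ i, G.F ((z_i(v)).tw a⁻¹) z'` (`Bi.diag`). We show that this is
the sum in the theorem; then `over_fin`. The reduction of `H` at `v` is `Q ≠ 0` (`κ'` has the
value `κ`); use `red_roots`. Let `T_i` have the value `T` at `v`: `z_i(v)` has the coordinates
`p(T) ≠ 0` and `mu a (z'.w / α) A(T) = mu a θ A(T)` (up to a homothety), so `(z_i(v)).tw a⁻¹` is
`P T` up to a homothety. Let `T_i` be not regular at `v`: with the factor `1 / T_i` the value of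
the coordinates is `x1 ≠ 0` (`Fam.x1_ne`), and the value of `w` is `mu a θ A_e`: `(z_i(v)).tw a⁻¹`
is `P'` up to a homothety. There are `deg H - deg Q` such `i`. If `deg H = ν e` we are done;
otherwise `A_e = B_(ν e) = 0`, so `P'.w = 0` and `G.F P' z' = 0` (and the same for the value of
`z_i`): `Bi.zero1`.
-/

set_option autoImplicit false

noncomputable section

namespace Pool.Agent.CYU

open Pool.Agent.ZCyc Pool.Agent.Dess Pool.Agent.TInc Polynomial
open Pool.Agent.VFP (Om tt)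

variable {k : Type} [Field k] [IsAlgClosed k] [CharZero k] {m : ℕ} [NeZero m] {j ν : ℕ}
  {V : Type} [AddCommGroup V] [Module k V] {χ : Mu k m →* kˣ} {W W' : Cov k m}
  (G : Bi χ χ W W' V)

/-- the sum over a multiset of relations -/
theorem sum_rel {ι κ : Type} {V : Type} [AddCommGroup V] (M : Multiset ι) (f : ι → κ → V)
    (h : ∀ T ∈ M, (Function.support (f T)).Finite ∧ ∑ᶠ v, f T v = 0) :
    (Function.support fun v => (M.map fun T => f T v).sum).Finite ∧
      ∑ᶠ v, (M.map fun T => f T v).sum = 0 := by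
  induction M using Multiset.induction with
  | empty =>
    refine ⟨?_, ?_⟩
    · convert Set.finite_empty (α := κ)
      rw [Function.support_eq_empty_iff]
      funext v
      simp
    · simp
  | cons a M ih =>
    obtain ⟨h1, h2⟩ := ih fun T hT => h T (Multiset.mem_cons_of_mem hT)
    obtain ⟨h3, h4⟩ := h a (Multiset.mem_cons_self a M)
    have e : (fun v => ((a ::ₘ M).map fun T => f T v).sum) =
        fun v => f a v + (M.map fun T => f T v).sum := by
      funext v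
      rw [Multiset.map_cons, Multiset.sum_cons]
    rw [e]
    refine ⟨(h3.union h1).subset (Function.support_add _ _), ?_⟩
    rw [finsum_add_distrib h3 h1, h2, h4, add_zero]

omit [IsAlgClosed k] [CharZero k] [NeZero m] in
private lemma lemc_p {z : Pt W k} {K : Type} [Field K] [Algebra k K] (Φ : Fam W j ν z k) (s t : K)
    (i : Fin (W.n + 1)) : (Φ.map (Algebra.ofId k K)).p s t i =
      algebraMap k K (z.x i) * t + algebraMap k K (Φ.x1 i) * s := rfl

omit [IsAlgClosed k] [CharZero k] [NeZero m] in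
private lemma lemc_redA {z : Pt W k} {K : Type} [Field K] [Algebra k K] (v : Place k K)
    (Φ : Fam W j ν z k) : Red v (Φ.map (Algebra.ofId k K)).A Φ.A ∧
      Red v (Φ.map (Algebra.ofId k K)).B Φ.B := by
  constructor
  · intro i
    show v.At ((Φ.A.map (Algebra.ofId k K)).coeff i) _
    rw [coeff_map]
    exact Place.at_const _
  · intro i
    show v.At ((Φ.B.map (Algebra.ofId k K)).coeff i) _
    rw [coeff_map]
    exact Place.at_const _

/-- the sum over the points of the curve at a place -/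
theorem lemc_loc (hex : Ex m j ν) (hχ : Function.Injective χ) {z : Pt W k}
    (Φ : Fam W j ν z k) {κ θ : k} (hQ : Φ.Q κ ≠ 0) {P : k → Pt W k} {P' : Pt W k}
    (hP : ∀ T ∈ (Φ.Q κ).roots, (P T).x = Φ.p T 1 ∧ (P T).w = θ * Φ.a T 1)
    (hP' : (Φ.Q κ).natDegree < ν * W.e → P'.x = Φ.p 1 0 ∧ P'.w = θ * Φ.a 1 0) (z' : Pt W' k)
    {K : Type} [Field K] [Algebra k K] (hK : IsCurve k K) {v : Place k K} {κ' θ' : K} {a : Mu k m}
    (hκ' : v.At κ' κ) (hθ' : v.At θ' (mu k a * θ))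
    (hs : ((Φ.map (Algebra.ofId k K)).Q κ').roots.card =
      ((Φ.map (Algebra.ofId k K)).Q κ').natDegree)
    (hκn : ∀ b : k, κ' ≠ algebraMap k K b) {Z : K → Pt W K}
    (hZ : ∀ T ∈ ((Φ.map (Algebra.ofId k K)).Q κ').roots,
      (Z T).x = (Φ.map (Algebra.ofId k K)).p T 1 ∧ (Z T).w = θ' * (Φ.map (Algebra.ofId k K)).a T 1)
    {u : K → Pt W k} (hu : ∀ T, IsVal v (Z T) (u T)) :
    (((Φ.map (Algebra.ofId k K)).Q κ').roots.map fun T => G.F (u T) (z'.tw a)).sum =
      ((Φ.Q κ).roots.map fun T => G.F (P T) z').sum +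
        (ν * W.e - (Φ.Q κ).natDegree) • G.F P' z' := by
  classical
  set Ψ := Φ.map (Algebra.ofId k K) with hΨ
  obtain ⟨hrA, hrB⟩ := lemc_redA v Φ
  rw [← hΨ] at hrA hrB
  have hred : Red v (Ψ.Q κ') (Φ.Q κ) := hrB.sub ((Red.C hκ').mul (hrA.pow ν))
  -- a value of the point gives the value of the function
  have key : ∀ (T : K) (q : Pt W k), IsVal v (Z T) (q.tw a) → G.F (u T) (z'.tw a) = G.F q z' := by
    intro T q hq
    obtain ⟨b, hb, h1⟩ := val_unique (hu T) hq
    rw [← G.diag a q z', h1, G.scale1]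
  -- a root which is not regular
  have hinf : ∀ T ∈ (Ψ.Q κ').roots, T ∉ v.ring → (Φ.Q κ).natDegree < ν * W.e := by
    intro T hT hTv
    by_contra hcon
    have h1 := card_regular hK hred hQ hs
    have h2 := Ψ.q_deg κ'
    have h3 := Multiset.filter_le (· ∈ v.ring) (Ψ.Q κ').roots
    have h4 := Multiset.eq_of_le_of_card_le h3 (by omega)
    rw [← h4] at hT
    exact hTv (Multiset.mem_filter.1 hT).2
  have hf : ∀ T ∈ (Ψ.Q κ').roots, ∀ c, v.At T c → G.F (u T) (z'.tw a) = G.F (P c) z' := by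
    intro T hT c hTc
    have h0 : (Ψ.Q κ').eval T = 0 := (mem_roots'.1 hT).2
    have h1 : (Φ.Q κ).eval c = 0 := by
      have h2 := hred.eval hTc
      rw [h0] at h2
      exact h2.unique at_zero_zero
    obtain ⟨h2, h3⟩ := hP c ((mem_roots hQ).2 h1)
    obtain ⟨h4, h5⟩ := hZ T hT
    apply key
    refine ⟨1, fun i => ?_, ?_⟩
    · rw [one_mul, h4]
      show v.At (Ψ.p T 1 i) ((P c).x i)
      rw [h2]
      have h6 := ((Place.at_const (v := v) (z.x i)).mul
        (Place.at_const (v := v) (1 : k))).add ((Place.at_const (v := v) (Φ.x1 i)).mul hTc)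
      rw [map_one] at h6
      exact h6
    · rw [one_pow, one_mul, h5]
      show v.At (θ' * Ψ.a T 1) (mu k a * (P c).w)
      rw [h3, ← mul_assoc]
      have h6 := Place.at_const (v := v) (1 : k)
      rw [map_one] at h6
      exact hθ'.mul (at_hev hrA W.e hTc h6)
  have hf' : ∀ T ∈ (Ψ.Q κ').roots, T ∉ v.ring → G.F (u T) (z'.tw a) = G.F P' z' := by
    intro T hT hTv
    obtain ⟨h2, h3⟩ := hP' (hinf T hT hTv)
    obtain ⟨h4, h5⟩ := hZ T hT
    have hT0 : T ≠ 0 := by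
      rintro rfl
      exact hTv (zero_mem _)
    have hi : v.At T⁻¹ 0 := by
      rw [Place.at_zero_iff, Place.vanishes_iff_or, inv_inv]
      exact Or.inr hTv
    have hone := Place.at_const (v := v) (1 : k)
    rw [map_one] at hone
    apply key
    refine ⟨T⁻¹, fun i => ?_, ?_⟩
    · rw [h4]
      show v.At (T⁻¹ * Ψ.p T 1 i) (P'.x i)
      rw [h2]
      have e : T⁻¹ * Ψ.p T 1 i = algebraMap k K (z.x i) * T⁻¹ + algebraMap k K (Φ.x1 i) * 1 := by
        rw [hΨ, lemc_p]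
        field_simp
      rw [e]
      exact ((Place.at_const (v := v) (z.x i)).mul hi).add
        ((Place.at_const (v := v) (Φ.x1 i)).mul hone)
    · rw [h5]
      show v.At (T⁻¹ ^ W.e * (θ' * Ψ.a T 1)) (mu k a * P'.w)
      rw [h3, ← mul_assoc (mu k a)]
      have e : T⁻¹ ^ W.e * (θ' * Ψ.a T 1) = θ' * hev Ψ.A W.e 1 T⁻¹ := by
        have h6 := hev_smul Ψ.A W.e T⁻¹ T 1
        rw [inv_mul_cancel₀ hT0, mul_one] at h6
        rw [h6]
        show _ = θ' * (T⁻¹ ^ W.e * Ψ.a T 1)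
        ring
      rw [e]
      exact hθ'.mul (at_hev hrA W.e hone hi)
  have h1 := red_roots_hom hK hred hQ hs (Ψ.q_deg κ') hf hf'
  -- the coefficient of the highest power
  have h2 : (ν * W.e - (Ψ.Q κ').natDegree) • G.F P' z' = 0 := by
    rcases (Ψ.q_deg κ').eq_or_lt with h3 | h3
    · rw [h3, Nat.sub_self, zero_smul]
    · have h4 := red_natDegree hK hred hQ hs
      obtain ⟨h5, h6⟩ := hP' (h4.trans_lt h3)
      have h7 : Φ.a 1 0 = 0 := by
        by_contra h8
        have h9 := Ψ.q_hev hex κ' 1 0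
        rw [hev_t_zero, coeff_eq_zero_of_natDegree_lt h3, zero_mul] at h9
        have h10 := Φ.map_ab (Algebra.ofId k K) 1 0
        rw [map_one, map_zero] at h10
        rw [← hΨ] at h10
        rw [h10.1, h10.2] at h9
        apply hκn (Φ.b 1 0 / Φ.a 1 0 ^ ν)
        have h11 : (Algebra.ofId k K) (Φ.a 1 0) ^ ν ≠ 0 := by
          apply pow_ne_zero
          rw [Ne, map_eq_zero]
          exact h8
        have h12 : (algebraMap k K) (Φ.b 1 0 / Φ.a 1 0 ^ ν) =
            (Algebra.ofId k K) (Φ.b 1 0) / (Algebra.ofId k K) (Φ.a 1 0) ^ ν := by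
          rw [← map_pow, ← map_div₀]
          rfl
        rw [h12, eq_div_iff h11]
        exact (sub_eq_zero.1 h9.symm).symm
      rw [G.zero1 hex.two_le.1 hχ (by rw [h6, h7, mul_zero]) z', smul_zero]
  rw [h2, add_zero] at h1
  exact h1

theorem lem_c (hex : Ex m j ν) (hχ : Function.Injective χ) (hn' : W'.e ≤ W'.n) {z : Pt W k}
    (hz : z.w ≠ 0) (Φ : Fam W j ν z k) (hc : Φ.c = 0) {κ θ : k} (hθ : θ ^ m = 1 + κ ^ j)
    (hθ0 : θ ≠ 0) (hQ : Φ.Q κ ≠ 0) {P : k → Pt W k} {P' : Pt W k}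
    (hP : ∀ T ∈ (Φ.Q κ).roots, (P T).x = Φ.p T 1 ∧ (P T).w = θ * Φ.a T 1)
    (hP' : (Φ.Q κ).natDegree < ν * W.e → P'.x = Φ.p 1 0 ∧ P'.w = θ * Φ.a 1 0) (z' : Pt W' k) :
    ((Φ.Q κ).roots.map fun T => G.F (P T) z').sum +
      (ν * W.e - (Φ.Q κ).natDegree) • G.F P' z' = 0 := by
  classical
  have hm : 0 < m := Nat.pos_of_ne_zero (NeZero.ne m)
  have hm2 := hex.two_le.1
  -- if all values are zero
  have hall : (∀ p, G.F p z' = 0) → ((Φ.Q κ).roots.map fun T => G.F (P T) z').sum +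
      (ν * W.e - (Φ.Q κ).natDegree) • G.F P' z' = 0 := by
    intro h
    simp only [h, smul_zero, add_zero]
    simp
  by_cases hz' : z'.w = 0
  · exact hall fun p => G.zero2 hm2 hχ p hz'
  set α := z'.w / θ with hα
  have hα0 : α ≠ 0 := div_ne_zero hz' hθ0
  have hθα : θ * α = z'.w := by
    rw [hα]
    field_simp
  have hβ : α ^ m + (κ * α ^ ν) ^ j = z'.w ^ m := by
    rw [← hθα, mul_pow, mul_pow, hθ, ← pow_mul, mul_comm ν j, ← hex.mul]
    ring
  obtain ⟨Φ', hA0, hB0⟩ := exists_fam (K := k) hex hn' z' (a0 := α) (b0 := κ * α ^ ν) hβ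
  by_cases hQ' : Φ'.Q κ = 0
  · exact hall fun p => deg_c G.flip hex (inv_inj hχ) hz' Φ' hQ' p
  obtain ⟨c', hc'⟩ := exists_ct hex hz' Φ'
  -- the curve
  set s₀ : Om k := tt k with hs₀
  set κ₀ : Om k := aeval s₀ Φ'.B / aeval s₀ Φ'.A ^ ν with hκ₀
  obtain ⟨v₀, hv₀⟩ := IsAlgClosed.exists_pow_nat_eq (aeval s₀ Φ'.A ^ m + aeval s₀ Φ'.B ^ j) hm
  obtain ⟨w₀, hw₀⟩ := IsAlgClosed.exists_pow_nat_eq
    (MvPolynomial.aeval ((Φ'.map (Algebra.ofId k (Om k))).p s₀ 1) W'.f) hm
  have hfin : (({v₀, w₀} : Set (Om k)) ∪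
      (((Φ.map (Algebra.ofId k (Om k))).Q κ₀).roots.toFinset : Set (Om k))).Finite :=
    (Set.toFinite _).union (Finset.finite_toSet _)
  obtain ⟨K, hK, htt, hS⟩ := exists_curve (k := k) _ hfin
  obtain ⟨hS1, hS2⟩ := Set.union_subset_iff.1 hS
  have hvK : v₀ ∈ K := hS1 (by simp)
  have hwK : w₀ ∈ K := hS1 (by simp)
  set s : K := ⟨tt k, htt⟩ with hs
  have hst : Transcendental k s := by
    intro h1
    exact transc_tt (k := k) (h1.algHom K.val)
  have hs0 : s ≠ 0 := by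
    intro h1
    rw [h1] at hst
    exact hst isAlgebraic_zero
  set Ψ' := Φ'.map (Algebra.ofId k K) with hΨ'
  have haA : Ψ'.a s 1 = aeval s Φ'.A := by
    have h1 : Ψ'.a s 1 = (Φ'.A.map (algebraMap k K)).eval s := hev_one Ψ'.degA s
    rw [h1, eval_map_algebraMap]
  have haB : Ψ'.b s 1 = aeval s Φ'.B := by
    have h1 : Ψ'.b s 1 = (Φ'.B.map (algebraMap k K)).eval s := hev_one Ψ'.degB s
    rw [h1, eval_map_algebraMap]
  have hA'0 : Φ'.A ≠ 0 := by
    intro h
    rw [h, coeff_zero] at hA0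
    exact hα0 hA0.symm
  have haA0 : aeval s Φ'.A ≠ 0 := by
    intro h
    exact hst ⟨Φ'.A, hA'0, h⟩
  have hval : ∀ F : k[X], K.val (aeval s F) = aeval s₀ F := fun F => by
    rw [← aeval_algHom_apply]
    rfl
  set κ' : K := aeval s Φ'.B / aeval s Φ'.A ^ ν with hκ'
  have hκ'v : K.val κ' = κ₀ := by
    rw [hκ', map_div₀, map_pow, hval, hval]
  have hκn : ∀ b : k, κ' ≠ algebraMap k K b := by
    intro b hb
    have h1 : aeval s (Φ'.Q b) = 0 := by
      unfold Fam.Q
      rw [map_sub, map_mul, map_pow, aeval_C, ← hb, hκ',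
        div_mul_cancel₀ _ (pow_ne_zero ν haA0), sub_self]
    have h2 : Φ'.Q b = 0 := by
      by_contra h
      exact hst ⟨_, h, h1⟩
    have h3 : (Φ'.Q b).eval 0 = κ * α ^ ν - b * α ^ ν := by
      unfold Fam.Q
      rw [eval_sub, eval_mul, eval_pow, eval_C, ← coeff_zero_eq_eval_zero,
        ← coeff_zero_eq_eval_zero, hA0, hB0]
    rw [h2, eval_zero, ← sub_mul] at h3
    have h4 := (mul_eq_zero.1 h3.symm).resolve_right (pow_ne_zero ν hα0)
    rw [sub_eq_zero.1 h4] at hQ'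
    exact hQ' h2
  set vv : K := ⟨v₀, hvK⟩ with hvv
  have hvv' : vv ^ m = aeval s Φ'.A ^ m + aeval s Φ'.B ^ j := by
    apply K.val.injective
    show K.val (vv ^ m) = K.val (aeval s Φ'.A ^ m + aeval s Φ'.B ^ j)
    rw [map_add, map_pow, map_pow, map_pow, hval, hval]
    exact hv₀
  have hww : (⟨w₀, hwK⟩ : K) ^ m = MvPolynomial.aeval (Ψ'.p s 1) W'.f := by
    apply K.val.injective
    have h1 : K.val (MvPolynomial.aeval (Ψ'.p s 1) W'.f) =
        MvPolynomial.aeval (fun i => K.val (Ψ'.p s 1 i)) W'.f :=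
      DFunLike.congr_fun (MvPolynomial.comp_aeval (Ψ'.p s 1) K.val) W'.f
    show K.val (⟨w₀, hwK⟩ ^ m) = K.val (MvPolynomial.aeval (Ψ'.p s 1) W'.f)
    rw [h1, map_pow]
    exact hw₀
  set θ' : K := vv / aeval s Φ'.A with hθ'
  have hθ'm : θ' ^ m = 1 + κ' ^ j := by
    have h1 : (aeval s Φ'.A ^ ν) ^ j = aeval s Φ'.A ^ m := by
      rw [← pow_mul, mul_comm ν j, ← hex.mul]
    rw [hθ', hκ', div_pow, div_pow, hvv', h1, add_div, div_self (pow_ne_zero m haA0)]
  -- the roots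
  set Ψ := Φ.map (Algebra.ofId k K) with hΨ
  have hsplit : (Ψ.Q κ').roots.card = (Ψ.Q κ').natDegree := by
    refine (Splits.natDegree_eq_card_roots (Splits.of_splits_map K.val.toRingHom
      (IsAlgClosed.splits _) fun a ha => ?_)).symm
    have e : (Ψ.Q κ').map K.val.toRingHom = (Φ.map (Algebra.ofId k (Om k))).Q κ₀ := by
      show ((Φ.B.map _) - C κ' * (Φ.A.map _) ^ ν).map K.val.toRingHom =
        (Φ.B.map _) - C κ₀ * (Φ.A.map _) ^ ν
      rw [Polynomial.map_sub, Polynomial.map_mul, Polynomial.map_pow, map_C, Polynomial.map_map,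
        Polynomial.map_map, ← hκ'v]
      rfl
    rw [e] at ha
    exact ⟨⟨a, hS2 (by simpa using ha)⟩, rfl⟩
  have hZon : ∀ T ∈ (Ψ.Q κ').roots, Ψ.p T 1 ≠ 0 ∧
      (θ' * Ψ.a T 1) ^ m = MvPolynomial.aeval (Ψ.p T 1) W.f := by
    intro T hT
    refine ⟨Ψ.p_ne one_ne_zero, ?_⟩
    have h1 := (Ψ.root hex (mem_roots'.1 hT).1).1 T hT
    rw [Ψ.om_pow hex hθ'm h1, Ψ.heval hex]
    have h2 : Ψ.c = 0 := by
      show Algebra.ofId k K Φ.c = 0
      rw [hc, map_zero]
    rw [h2, zero_mul, add_zero]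
  obtain ⟨Z, hZ⟩ : ∃ Z : K → Pt W K, ∀ T ∈ (Ψ.Q κ').roots,
      (Z T).x = Ψ.p T 1 ∧ (Z T).w = θ' * Ψ.a T 1 := by
    have h1 : ∀ T : K, ∃ q : Pt W K, T ∈ (Ψ.Q κ').roots →
        q.x = Ψ.p T 1 ∧ q.w = θ' * Ψ.a T 1 := fun T => by
      by_cases hT : T ∈ (Ψ.Q κ').roots
      · exact ⟨⟨Ψ.p T 1, θ' * Ψ.a T 1, (hZon T hT).1, (hZon T hT).2⟩, fun _ => ⟨rfl, rfl⟩⟩
      · exact ⟨z.base K, fun h => absurd h hT⟩
    choose Z hZ using h1
    exact ⟨Z, hZ⟩
  choose u hu using fun (T : K) (v : Place k K) => exists_val hK v (Z T)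
  have hω : vv ^ m = Ψ'.a s 1 ^ m + Ψ'.b s 1 ^ j := by
    rw [haA, haB, hvv']
  have hrel : ∀ T ∈ (Ψ.Q κ').roots, _ := fun T _ =>
    rel_fam G.flip hex (inv_inj hχ) hK (P' := Z T) (p' := u T) (hu T) Ψ'
      (hc'.map (Algebra.ofId k K)) hs0 hww hω
  have hsum := sum_rel _ _ hrel
  refine over_fin hK hst (n := m * W'.e) (Nat.mul_pos hm W'.pos) (fun v hv => ?_)
    (fun v hv => ?_) hsum.2
  · apply Multiset.sum_eq_zero
    intro x hx
    obtain ⟨T, -, rfl⟩ := Multiset.mem_map.1 hx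
    exact over_not hK Φ' hv _ hc'.1 _
  · -- the place where `s` vanishes
    have hsv : v.At s 0 := Place.at_zero_iff.2 hv
    have hvA : v.At (aeval s Φ'.A) α := by
      have h1 := hsv.aeval Φ'.A
      rwa [← coeff_zero_eq_eval_zero, hA0] at h1
    have hvB : v.At (aeval s Φ'.B) (κ * α ^ ν) := by
      have h1 := hsv.aeval Φ'.B
      rwa [← coeff_zero_eq_eval_zero, hB0] at h1
    have hvm : v.At (vv ^ m) (z'.w ^ m) := by
      rw [hvv', ← hβ]
      exact (hvA.pow m).add (hvB.pow j)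
    obtain ⟨y, hy⟩ := exists_at hK v (mem_of_pow v (NeZero.ne m) hvm.mem)
    obtain ⟨a, ha⟩ := exists_mu ((hy.pow m).unique hvm)
    rw [ha] at hy
    have hκv : v.At κ' κ := by
      have h1 := hvB.div (hvA.pow ν) (pow_ne_zero ν hα0)
      rwa [mul_div_cancel_right₀ _ (pow_ne_zero ν hα0)] at h1
    have hθv : v.At θ' (mu k a * θ) := by
      have h1 := hy.div hvA hα0
      have e : mu k a * z'.w / α = mu k a * θ := by
        rw [← hθα]
        field_simp
      rwa [e] at h1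
    have h2 : ∀ T, ctr (fun q => G.flip.F q (u T v)) v (Ψ'.p s 1) vv
        (algebraMap k K c' * s ^ (m * W'.e)) =
        (m * W'.e * ord v s) • G.F (u T v) (z'.tw a) := fun T =>
      over_zero hK hz' Φ' hv hs0 hy hc'.1 (fun b hb q => G.flip.scale1 b hb q _)
    have h3 : ((Ψ.Q κ').roots.map fun T => ctr (fun q => G.flip.F q (u T v)) v (Ψ'.p s 1) vv
        (algebraMap k K c' * s ^ (m * W'.e))).sum =
        (m * W'.e * ord v s) • ((Ψ.Q κ').roots.map fun T => G.F (u T v) (z'.tw a)).sum := by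
      rw [Multiset.smul_sum, Multiset.map_map]
      exact congrArg Multiset.sum (Multiset.map_congr rfl fun T _ => h2 T)
    refine h3.trans ?_
    rw [lemc_loc G hex hχ Φ hQ hP hP' z' hK hκv hθv hsplit hκn hZ (fun T => hu T v)]
    push_cast
    rfl

end Pool.Agent.CYU
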