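import Pool.Agent.CYU.LocU
import Pool.Agent.CYU.LemC

/-!
# The contributions at a place where the family has a reduction

`ctv` is the sum of the contributions of all roots of `Q` in the projective line, the root `∞` with the
multiplicity `ν e - deg Q`.

Proof of `loc_fin`. Let `Q̃ = Q(r T)`, its roots are the `ŝ = s / r`; its reduction is `q = Ψ.Q κ₀ ≠ 0` (`IsRed.q`).
First case: `c' r ^ (m e)` is a unit at `v`. The root `∞` is not special: let `l` be the factor in `Spec` for `X = Φ.p 1 0 = x1`, then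
`ord (l ^ (m e) c') > 0`, so `l / r` vanishes at `v`, and `l x1 = (l / r) (r x1)` has the value `0`: contradiction. Let `s` be
a root. If `ŝ` vanishes at `v` (`s ≠ 0`, because `Q.coeff 0 ≠ 0`): `Φ.p s 1` has the value `z.x` (`IsRed.hev`, `σ = ŝ`, `τ = 1`),
`θ Φ.a s 1` has the value `θ₀ Ψ.A.coeff 0`, and `ord (c' s ^ (m e)) = m e ord ŝ > 0`, so `Spec` with `l = 1`, `q = z.tw η` (`hη`, because
`ord v (Q.coeff 0) ≠ 0`, see below). If `ŝ` is a unit: `Φ.p s 1` has a value `≠ 0` (coordinate `i₀`), the order is zero: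
`not_spec`. If `ŝ` is not regular: a factor `l` of `Spec` satisfies `ord (l s / r) > 0`, `l (z.x i₀)` is regular, and
`l Φ.p s 1 = l z.x + (l s / r) (r x1)`; `ord l > - ord ŝ > 0`: the value is `0`, contradiction.
So `ctv = m e (∑ ord ŝ) • G.F (z.tw η) z'`, over the `ŝ` which vanish; `ord_roots` for `Q̃`: the sum is
`ord (Q̃.coeff 0) = ord (Q.coeff 0)` (if it is zero then there are no such roots).
Second case (`loc_van`): `c' r ^ (m e)` vanishes at `v` (it is regular, by `IsRed.c` or `IsRed.x1`),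
`d = ord (c' r ^ (m e)) > 0`. Then `Ψ.c = 0` (`c' = Φ.c`, or `Φ.c = 0`), so `Ψ.x1 ≠ 0` (`Fam.x1_ne`).
For a root `T` of `q` let `P T` be the point with the coordinates `Ψ.p T 1`, `θ₀ Ψ.a T 1`, for `∞` the point `P'`
with `Ψ.p 1 0`, `θ₀ Ψ.a 1 0` (`Fam.om_pow`, `Fam.heval`, `Ψ.c = 0`). A root `s` with `ŝ` regular, of value `T`, contributes
`(d + m e ord ŝ) • G.F (P T) z'`: `Spec` with `l = 1` (if `θ₀ Ψ.a T 1 = 0` both sides are zero); here `ord ŝ = 0` if `T ≠ 0`, and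
`G.F (P 0) z' = G.F (z.tw η) z'`. A root with `ŝ` not regular and the root `∞` contribute `d • G.F P' z'`: `Spec` with
`l = ŝ⁻¹`, or `l = r`. By `red_roots_hom` `ctv` is
`d • (∑ T, G.F (P T) z' + (ν e - deg q) • G.F P' z') + m e (∑ ord ŝ) • G.F (z.tw η) z'`; the first part is zero by `lem_c`
(or because all terms are zero, if `θ₀ = 0`), and `ord_roots` as in the first case.
-/

set_option autoImplicit false

noncomputable section

namespace Pool.Agent.CYU

open Pool.Agent.ZCyc Pool.Agent.Dess Pool.Agent.TInc Polynomial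

section hom

variable {k : Type} [Field k] {m : ℕ} {W : Cov k m} {j ν : ℕ} {z : Pt W k} {K : Type} [Field K]
  [Algebra k K]

theorem Fam.p_smul (Φ : Fam W j ν z K) (l s t : K) (i : Fin (W.n + 1)) :
    Φ.p (l * s) (l * t) i = l * Φ.p s t i := by
  unfold Fam.p
  ring

theorem Fam.a_smul (Φ : Fam W j ν z K) (l s t : K) :
    Φ.a (l * s) (l * t) = l ^ W.e * Φ.a s t := hev_smul _ _ _ _ _

theorem Fam.b_smul (Φ : Fam W j ν z K) (l s t : K) :
    Φ.b (l * s) (l * t) = l ^ (ν * W.e) * Φ.b s t := hev_smul _ _ _ _ _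

/-- the roots of the polynomial with the variable multiplied by `r` -/
theorem roots_comp (Q : K[X]) {r : K} (hr : r ≠ 0) :
    (Q.comp (C r * X)).roots = Q.roots.map fun s => r⁻¹ * s := by
  have h := roots_comp_C_mul_X_add_C Q r 0 (IsUnit.mk0 r hr)
  simpa using h

theorem natDegree_comp_lin (Q : K[X]) {r : K} (hr : r ≠ 0) :
    (Q.comp (C r * X)).natDegree = Q.natDegree := by
  rw [natDegree_comp, natDegree_C_mul_X r hr, mul_one]

theorem coeff_zero_comp_lin (Q : K[X]) (r : K) : (Q.comp (C r * X)).coeff 0 = Q.coeff 0 := by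
  rw [comp_C_mul_X_coeff, pow_zero, mul_one]

end hom

variable {k : Type} [Field k] [IsAlgClosed k] [CharZero k] {m : ℕ} [NeZero m] {j ν : ℕ}
  {V : Type} [AddCommGroup V] [Module k V] {χ : Mu k m →* kˣ} {W W' : Cov k m}
  (G : Bi χ χ W W' V)

omit [Module k V] in
/-- The contribution of a place at which the point has a value. -/
theorem ctr_of_val {K : Type} [Field K] [Algebra k K] (hK : IsCurve k K) {g : Pt W k → V}
    (hg : Inv g) (h0 : ∀ q : Pt W k, q.w = 0 → g q = 0) {v : Place k K}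
    {X : Fin (W.n + 1) → K} {ω c l : K} {q : Pt W k} (hX : ∀ i, v.At (l * X i) (q.x i))
    (hω : v.At (l ^ W.e * ω) q.w) {d : ℤ} (hd : 0 < d)
    (hc : ord v (l ^ (m * W.e) * c) = d) : ctr g v X ω c = d • g q := by
  by_cases hq : q.w = 0
  · rw [h0 q hq, smul_zero]
    apply ctr_zero
    apply not_spec hK hX q.ne
    left
    rw [hq] at hω
    exact Place.at_zero_iff.1 hω
  · exact ctr_eq hK hg ⟨l, hX, hω, hq, hd, hc⟩

theorem loc_van (hex : Ex m j ν) (hχ : Function.Injective χ) (hn' : W'.e ≤ W'.n) {z : Pt W k}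
    (hz : z.w ≠ 0) {K : Type} [Field K] [Algebra k K] (hK : IsCurve k K) {v : Place k K}
    {Φ : Fam W j ν z K} {c' : K} (hc' : Ct Φ c') {r : K} {Ψ : Fam W j ν z k}
    (hr : IsRed v r Φ Ψ) (hd : 0 < ord v (c' * r ^ (m * W.e))) {κ θ : K}
    (hθ : θ ^ m = 1 + κ ^ j) {κ₀ θ₀ : k} (hκ₀ : v.At κ κ₀)
    (hθ₀ : v.At θ θ₀) (hQ : Ψ.Q κ₀ ≠ 0) (hQ0 : (Φ.Q κ).coeff 0 ≠ 0)
    (hs : (Φ.Q κ).roots.card = (Φ.Q κ).natDegree) {η : Mu k m}
    (hη : v.Vanishes ((Φ.Q κ).coeff 0) → θ₀ * Ψ.A.coeff 0 = mu k η * z.w) (z' : Pt W' k) :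
    ctv G Φ κ θ c' z' v = (m * W.e * ord v ((Φ.Q κ).coeff 0)) • G.F (z.tw η) z' := by
  classical
  obtain ⟨hm2, hj2, hν1, -⟩ := hex.two_le
  have hr0 : r ≠ 0 := hr.r_ne
  have hΦQ : Φ.Q κ ≠ 0 := by
    intro h
    rw [h, coeff_zero] at hQ0
    exact hQ0 rfl
  have hθk : θ₀ ^ m = 1 + κ₀ ^ j := by
    have h1 := hθ₀.pow m
    rw [hθ] at h1
    have h2 : v.At (1 + κ ^ j) (1 + κ₀ ^ j) := by
      have h3 := (Place.at_const (v := v) (1 : k)).add (hκ₀.pow j)
      rwa [map_one] at h3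
    exact h1.unique h2
  -- the constant term vanishes
  have hΨc : Ψ.c = 0 := by
    have hne : c' * r ^ (m * W.e) ≠ 0 := mul_ne_zero hc'.1 (pow_ne_zero _ hr0)
    rcases hc'.2 with h | ⟨h, -⟩
    · have h1 := hr.c
      rw [← h, mul_comm] at h1
      exact h1.unique (Place.at_zero_iff.2 ((vanishes_iff_ord hK hne).2 hd))
    · have h1 := hr.c
      rw [h, mul_zero] at h1
      exact h1.unique at_zero_zero
  have hx1 : Ψ.x1 ≠ 0 := Ψ.x1_ne hex hz hΨc
  set g : Pt W k → V := fun q => G.F q z' with hgdef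
  have hg : Inv g := fun b hb q => G.scale1 b hb q z'
  have hg0 : ∀ q : Pt W k, q.w = 0 → g q = 0 := fun q hq => G.zero1 hm2 hχ hq z'
  -- the points
  have hon : ∀ s t : k, Ψ.b s t = κ₀ * Ψ.a s t ^ ν →
      (θ₀ * Ψ.a s t) ^ m = MvPolynomial.aeval (Ψ.p s t) W.f := by
    intro s t h
    rw [Ψ.om_pow hex hθk h, Ψ.heval hex, hΨc, zero_mul, add_zero]
  have hp10 : Ψ.p 1 0 ≠ 0 := by
    intro h
    apply hx1
    funext i
    have h1 := congrFun h i
    unfold Fam.p at h1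
    simpa using h1
  let P : k → Pt W k := fun T =>
    if h : Ψ.b T 1 = κ₀ * Ψ.a T 1 ^ ν then
      ⟨Ψ.p T 1, θ₀ * Ψ.a T 1, Ψ.p_ne one_ne_zero, hon T 1 h⟩ else z
  have hP : ∀ T, Ψ.b T 1 = κ₀ * Ψ.a T 1 ^ ν →
      (P T).x = Ψ.p T 1 ∧ (P T).w = θ₀ * Ψ.a T 1 := by
    intro T h
    simp only [P, dif_pos h, and_self]
  let P' : Pt W k := if h : Ψ.b 1 0 = κ₀ * Ψ.a 1 0 ^ ν then
      ⟨Ψ.p 1 0, θ₀ * Ψ.a 1 0, hp10, hon 1 0 h⟩ else z
  have hP' : Ψ.b 1 0 = κ₀ * Ψ.a 1 0 ^ ν → P'.x = Ψ.p 1 0 ∧ P'.w = θ₀ * Ψ.a 1 0 := by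
    intro h
    simp only [P', dif_pos h, and_self]
  have hroot := Φ.root hex hΦQ
  have hrootΨ := Ψ.root hex hQ
  set d : ℤ := ord v (c' * r ^ (m * W.e)) with hddef
  have hcr : c' * r ^ (m * W.e) ≠ 0 := mul_ne_zero hc'.1 (pow_ne_zero _ hr0)
  -- the polynomial with the scaled variable
  have hred : Red v ((Φ.Q κ).comp (C r * X)) (Ψ.Q κ₀) := hr.q hκ₀
  have hs' : ((Φ.Q κ).comp (C r * X)).roots.card = ((Φ.Q κ).comp (C r * X)).natDegree := by
    rw [roots_comp _ hr0, Multiset.card_map, natDegree_comp_lin _ hr0, hs]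
  have hc0 : ((Φ.Q κ).comp (C r * X)).coeff 0 = (Φ.Q κ).coeff 0 := coeff_zero_comp_lin _ _
  have hrootne : ∀ s ∈ (Φ.Q κ).roots, s ≠ 0 := by
    rintro s hs0 rfl
    have h1 := (mem_roots hΦQ).1 hs0
    rw [IsRoot.def, ← coeff_zero_eq_eval_zero] at h1
    exact hQ0 h1
  -- a regular root
  have hreg : ∀ s ∈ (Φ.Q κ).roots, ∀ T : k, v.At (r⁻¹ * s) T →
      ctr g v (Φ.p s 1) (θ * Φ.a s 1) (c' * s ^ (m * W.e)) =
        d • g (P T) + (m * W.e * (if v.Vanishes (r⁻¹ * s) then ord v (r⁻¹ * s) else 0)) •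
          g (z.tw η) := by
    intro s hsr T hT
    have hs0 : s ≠ 0 := hrootne s hsr
    have hσ0 : r⁻¹ * s ≠ 0 := mul_ne_zero (inv_ne_zero hr0) hs0
    have hsr' : r * (r⁻¹ * s) = s := by
      rw [← mul_assoc, mul_inv_cancel₀ hr0, one_mul]
    have h1 : v.At (1 : K) 1 := by
      have := Place.at_const (v := v) (1 : k)
      rwa [map_one] at this
    obtain ⟨e1, e2, e3⟩ := hr.hev hT h1
    rw [hsr'] at e1 e2 e3
    have hbT : Ψ.b T 1 = κ₀ * Ψ.a T 1 ^ ν := by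
      have h2 := hroot.1 s hsr
      have h3 := hκ₀.mul (e2.pow ν)
      rw [← h2] at h3
      exact e3.unique h3
    obtain ⟨hPx, hPw⟩ := hP T hbT
    have hordσ : 0 ≤ ord v (r⁻¹ * s) := (mem_iff_ord hK hσ0).1 hT.mem
    have hord : ord v ((1 : K) ^ (m * W.e) * (c' * s ^ (m * W.e))) =
        d + m * W.e * ord v (r⁻¹ * s) := by
      have e : (1 : K) ^ (m * W.e) * (c' * s ^ (m * W.e)) =
          c' * r ^ (m * W.e) * (r⁻¹ * s) ^ (m * W.e) := by
        rw [one_pow, one_mul, mul_assoc, ← mul_pow, hsr']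
      rw [e, ord_mul hK v hcr (pow_ne_zero _ hσ0), ord_pow hK]
      push_cast
      rfl
    have h4 := ctr_of_val hK hg hg0 (X := Φ.p s 1) (ω := θ * Φ.a s 1)
      (c := c' * s ^ (m * W.e)) (l := 1) (q := P T) (v := v)
      (fun i => by rw [one_mul, hPx]; exact e1 i)
      (by rw [one_pow, one_mul, hPw]; exact hθ₀.mul e2)
      (d := d + m * W.e * ord v (r⁻¹ * s)) (by positivity) hord
    rw [h4, add_smul]
    congr 1
    split_ifs with hv
    · have hT0 : T = 0 := hT.unique (Place.at_zero_iff.2 hv)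
      subst hT0
      have hq0 : (Ψ.Q κ₀).coeff 0 = 0 := by
        have h5 := Ψ.q_hev hex κ₀ 0 1
        rw [hev_one (Ψ.q_deg κ₀), ← coeff_zero_eq_eval_zero, hbT, sub_self] at h5
        exact h5
      have hvan : v.Vanishes ((Φ.Q κ).coeff 0) := by
        have h6 := hred 0
        rw [hc0, hq0] at h6
        exact Place.at_zero_iff.1 h6
      have h7 : P 0 = z.tw η := by
        have h8 : Ψ.a 0 1 = Ψ.A.coeff 0 := by
          have h9 := hev_s_zero Ψ.A W.e 1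
          rw [one_pow, mul_one] at h9
          exact h9
        ext i
        · rw [hPx]
          show Ψ.p 0 1 i = z.x i
          unfold Fam.p
          simp
        · rw [hPw, h8, hη hvan]
          rfl
      rw [h7]
    · have h5 : ord v (r⁻¹ * s) = 0 := by
        rw [vanishes_iff_ord hK hσ0] at hv
        omega
      rw [h5, mul_zero, zero_smul]
      simp
  -- a root which is not regular
  have hinf : ∀ s ∈ (Φ.Q κ).roots, r⁻¹ * s ∉ v.ring →
      ctr g v (Φ.p s 1) (θ * Φ.a s 1) (c' * s ^ (m * W.e)) =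
        d • g P' + (m * W.e * (if v.Vanishes (r⁻¹ * s) then ord v (r⁻¹ * s) else 0)) •
          g (z.tw η) := by
    intro s hsr hT
    have hs0 : s ≠ 0 := hrootne s hsr
    have hσ0 : r⁻¹ * s ≠ 0 := mul_ne_zero (inv_ne_zero hr0) hs0
    have hnv : ¬ v.Vanishes (r⁻¹ * s) := fun h => hT (Place.Vanishes.mem v h)
    rw [if_neg hnv, mul_zero, zero_smul, add_zero]
    have hiv : v.Vanishes (r⁻¹ * s)⁻¹ := by
      rw [Place.vanishes_iff_or, inv_inv]
      exact Or.inr hT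
    have h1 : v.At (1 : K) 1 := by
      have := Place.at_const (v := v) (1 : k)
      rwa [map_one] at this
    obtain ⟨e1, e2, e3⟩ := hr.hev h1 (Place.at_zero_iff.2 hiv)
    set l : K := (r⁻¹ * s)⁻¹ with hldef
    have hl : r * 1 = l * s := by
      rw [hldef]
      field_simp
    have ep : ∀ i, Φ.p (r * 1) l i = l * Φ.p s 1 i := fun i => by
      rw [← Φ.p_smul, mul_one l, hl]
    have ea : Φ.a (r * 1) l = l ^ W.e * Φ.a s 1 := by
      rw [← Φ.a_smul, mul_one l, hl]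
    have eb : Φ.b (r * 1) l = l ^ (ν * W.e) * Φ.b s 1 := by
      rw [← Φ.b_smul, mul_one l, hl]
    have hb : Ψ.b 1 0 = κ₀ * Ψ.a 1 0 ^ ν := by
      have h2 : Φ.b (r * 1) l = κ * Φ.a (r * 1) l ^ ν := by
        rw [eb, ea, hroot.1 s hsr, mul_pow, ← pow_mul, mul_comm W.e ν]
        ring
      have h3 := hκ₀.mul (e2.pow ν)
      rw [← h2] at h3
      exact e3.unique h3
    obtain ⟨hPx, hPw⟩ := hP' hb
    have hord : ord v (l ^ (m * W.e) * (c' * s ^ (m * W.e))) = d := by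
      have e : l ^ (m * W.e) * (c' * s ^ (m * W.e)) = c' * r ^ (m * W.e) := by
        rw [mul_left_comm, ← mul_pow, ← hl, mul_one]
      rw [e]
    refine ctr_of_val hK hg hg0 (l := l) (fun i => ?_) ?_ hd hord
    · rw [hPx, ← ep]
      exact e1 i
    · rw [hPw, mul_left_comm, ← ea]
      exact hθ₀.mul e2
  -- the root at infinity
  have hinf0 : (Φ.Q κ).natDegree < ν * W.e →
      ctr g v (Φ.p 1 0) (θ * Φ.a 1 0) (c' * 1 ^ (m * W.e)) = d • g P' := by
    intro hlt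
    have h1 : v.At (1 : K) 1 := by
      have := Place.at_const (v := v) (1 : k)
      rwa [map_one] at this
    obtain ⟨e1, e2, e3⟩ := hr.hev h1 (at_zero_zero (v := v))
    have ep : ∀ i, Φ.p (r * 1) 0 i = r * Φ.p 1 0 i := fun i => by
      rw [← Φ.p_smul, mul_zero]
    have ea : Φ.a (r * 1) 0 = r ^ W.e * Φ.a 1 0 := by
      rw [← Φ.a_smul, mul_zero]
    have eb : Φ.b (r * 1) 0 = r ^ (ν * W.e) * Φ.b 1 0 := by
      rw [← Φ.b_smul, mul_zero]
    have hb : Ψ.b 1 0 = κ₀ * Ψ.a 1 0 ^ ν := by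
      have h2 : Φ.b (r * 1) 0 = κ * Φ.a (r * 1) 0 ^ ν := by
        rw [eb, ea, hroot.2 hlt, mul_pow, ← pow_mul, mul_comm W.e ν]
        ring
      have h3 := hκ₀.mul (e2.pow ν)
      rw [← h2] at h3
      exact e3.unique h3
    obtain ⟨hPx, hPw⟩ := hP' hb
    have hord : ord v (r ^ (m * W.e) * (c' * 1 ^ (m * W.e))) = d := by
      rw [one_pow, mul_one, mul_comm]
    refine ctr_of_val hK hg hg0 (l := r) (fun i => ?_) ?_ hd hord
    · rw [hPx, ← ep]
      exact e1 i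
    · rw [hPw, mul_left_comm, ← ea]
      exact hθ₀.mul e2
  -- Lemma C
  have hC : ((Ψ.Q κ₀).roots.map fun T => g (P T)).sum +
      (ν * W.e - (Ψ.Q κ₀).natDegree) • g P' = 0 := by
    by_cases hθ0 : θ₀ = 0
    · have h1 : ∀ x ∈ (Ψ.Q κ₀).roots.map fun T => g (P T), x = 0 := by
        intro x hx
        obtain ⟨T, hT, rfl⟩ := Multiset.mem_map.1 hx
        apply hg0
        rw [(hP T (hrootΨ.1 T hT)).2, hθ0, zero_mul]
      rw [Multiset.sum_eq_zero h1, zero_add]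
      rcases Nat.lt_or_ge (Ψ.Q κ₀).natDegree (ν * W.e) with h2 | h2
      · rw [hg0 P' (by rw [(hP' (hrootΨ.2 h2)).2, hθ0, zero_mul]), smul_zero]
      · rw [Nat.sub_eq_zero_of_le h2, zero_smul]
    · exact lem_c G hex hχ hn' hz Ψ hΨc hθk hθ0 hQ (fun T hT => hP T (hrootΨ.1 T hT))
        (fun h => hP' (hrootΨ.2 h)) z'
  -- the sum over the roots
  let f : K → V := fun σ => d • (if σ ∈ v.ring then g (P (val v σ)) else g P')
  let oo : K → ℤ := fun σ => if v.Vanishes σ then ord v σ else 0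
  have hterm : ∀ s ∈ (Φ.Q κ).roots, ctr g v (Φ.p s 1) (θ * Φ.a s 1) (c' * s ^ (m * W.e)) =
      f (r⁻¹ * s) + (m * W.e * oo (r⁻¹ * s)) • g (z.tw η) := by
    intro s hsr
    by_cases hσ : r⁻¹ * s ∈ v.ring
    · rw [hreg s hsr _ (at_val hK hσ)]
      simp only [f, oo, if_pos hσ]
    · rw [hinf s hsr hσ]
      simp only [f, oo, if_neg hσ]
  have hsum : ((Φ.Q κ).roots.map fun s => ctr g v (Φ.p s 1) (θ * Φ.a s 1)
      (c' * s ^ (m * W.e))).sum = (((Φ.Q κ).comp (C r * X)).roots.map f).sum +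
        (m * W.e * (((Φ.Q κ).comp (C r * X)).roots.map oo).sum) • g (z.tw η) := by
    rw [Multiset.map_congr rfl hterm, Multiset.sum_map_add, roots_comp _ hr0, Multiset.map_map,
      Multiset.map_map]
    congr 1
    induction (Φ.Q κ).roots using Multiset.induction_on with
    | empty => simp
    | cons a M ih =>
      rw [Multiset.map_cons, Multiset.sum_cons, ih, Multiset.map_cons, Multiset.sum_cons, mul_add,
        add_smul]
      rfl
  have hhom := red_roots_hom hK hred hQ hs' (N := ν * W.e) (f := f)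
    (g := fun T => d • g (P T)) (a := d • g P')
    (by rw [natDegree_comp_lin _ hr0]; exact Φ.q_deg κ)
    (by
      intro σ _ T hT
      simp only [f, if_pos hT.mem, val_eq hT])
    (by
      intro σ _ hσ
      simp only [f, if_neg hσ])
  have hooo := ord_roots hK hred hQ hs' (by rw [hc0]; exact hQ0)
  have hC' : ((Ψ.Q κ₀).roots.map fun T => d • g (P T)).sum +
      (ν * W.e - (Ψ.Q κ₀).natDegree) • (d • g P') = 0 := by
    have h1 : ((Ψ.Q κ₀).roots.map fun T => d • g (P T)).sum =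
        d • ((Ψ.Q κ₀).roots.map fun T => g (P T)).sum := by
      rw [Multiset.smul_sum, Multiset.map_map]
      rfl
    rw [h1, smul_comm, ← smul_add, hC, smul_zero]
  have hinfty : (ν * W.e - (Φ.Q κ).natDegree) •
      ctr g v (Φ.p 1 0) (θ * Φ.a 1 0) (c' * 1 ^ (m * W.e)) =
      (ν * W.e - (Φ.Q κ).natDegree) • (d • g P') := by
    rcases Nat.lt_or_ge (Φ.Q κ).natDegree (ν * W.e) with h2 | h2
    · rw [hinf0 h2]
    · rw [Nat.sub_eq_zero_of_le h2, zero_smul, zero_smul]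
  rw [natDegree_comp_lin _ hr0, hC'] at hhom
  rw [hc0] at hooo
  show ((Φ.Q κ).roots.map fun s => ctr g v (Φ.p s 1) (θ * Φ.a s 1)
      (c' * s ^ (m * W.e))).sum + (ν * W.e - (Φ.Q κ).natDegree) •
      ctr g v (Φ.p 1 0) (θ * Φ.a 1 0) (c' * 1 ^ (m * W.e)) = _
  rw [hsum, hinfty, add_right_comm, hhom, zero_add]
  show (m * W.e * (((Φ.Q κ).comp (C r * X)).roots.map oo).sum) • g (z.tw η) = _
  rw [show (((Φ.Q κ).comp (C r * X)).roots.map oo).sum = ord v ((Φ.Q κ).coeff 0) from hooo]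

theorem loc_fin (hex : Ex m j ν) (hχ : Function.Injective χ) (hn' : W'.e ≤ W'.n) {z : Pt W k}
    (hz : z.w ≠ 0) {K : Type} [Field K] [Algebra k K] (hK : IsCurve k K) {v : Place k K}
    {Φ : Fam W j ν z K} {c' : K} (hc' : Ct Φ c') {r : K} {Ψ : Fam W j ν z k}
    (hr : IsRed v r Φ Ψ) {κ θ : K} (hθ : θ ^ m = 1 + κ ^ j) {κ₀ θ₀ : k} (hκ₀ : v.At κ κ₀)
    (hθ₀ : v.At θ θ₀) (hQ : Ψ.Q κ₀ ≠ 0) (hQ0 : (Φ.Q κ).coeff 0 ≠ 0)
    (hs : (Φ.Q κ).roots.card = (Φ.Q κ).natDegree) {η : Mu k m}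
    (hη : v.Vanishes ((Φ.Q κ).coeff 0) → θ₀ * Ψ.A.coeff 0 = mu k η * z.w) (z' : Pt W' k) :
    ctv G Φ κ θ c' z' v = (m * W.e * ord v ((Φ.Q κ).coeff 0)) • G.F (z.tw η) z' := by
  have hcr : c' * r ^ (m * W.e) ≠ 0 := mul_ne_zero hc'.1 (pow_ne_zero _ hr.r_ne)
  have hmem : c' * r ^ (m * W.e) ∈ v.ring := by
    rcases hc'.2 with h | ⟨-, i, h⟩
    · rw [h, mul_comm]
      exact hr.c.mem
    · rw [h, ← mul_pow, mul_comm]
      exact pow_mem (hr.x1 i).mem _
  rcases (lt_or_eq_of_le ((mem_iff_ord hK hcr).1 hmem)) with h | h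
  · exact loc_van G hex hχ hn' hz hK hc' hr h hθ hκ₀ hθ₀ hQ hQ0 hs hη z'
  · exact loc_unit G hz hK hc'.1 hr h.symm hκ₀ hθ₀ hQ hQ0 hs hη z'

end Pool.Agent.CYU
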