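import Pool.Agent.CYU.CtvA

/-!
# The contributions at a place where `c' r ^ (m e)` is a unit

First case in the proof of `loc_fin` (see the text in `LocF`): only the roots `s` with `s / r` vanishing at `v` are
special.
-/

set_option autoImplicit false

noncomputable section

namespace Pool.Agent.CYU

open Pool.Agent.ZCyc Pool.Agent.Dess Pool.Agent.TInc Polynomial

variable {k : Type} [Field k] [IsAlgClosed k] [CharZero k] {m : ℕ} [NeZero m] {j ν : ℕ}
  {V : Type} [AddCommGroup V] [Module k V] {χ : Mu k m →* kˣ} {W W' : Cov k m}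
  (G : Bi χ χ W W' V)

section aux

variable {K : Type} [Field K] [Algebra k K]

omit [Algebra k K] in
private lemma locu_roots {Q : K[X]} {r : K} (hr : r ≠ 0) :
    (Q.comp (C r * X)).roots.map (fun x => r * x) = Q.roots := by
  have h := map_roots_comp_C_mul_X_add_C Q r 0 hr.isUnit
  simpa using h

omit [Algebra k K] in
private lemma locu_deg {Q : K[X]} {r : K} (hr : r ≠ 0) :
    (Q.comp (C r * X)).natDegree = Q.natDegree := by
  rw [natDegree_comp, natDegree_C_mul_X _ hr, mul_one]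

omit [Algebra k K] in
private lemma locu_coeff (Q : K[X]) (r : K) : (Q.comp (C r * X)).coeff 0 = Q.coeff 0 := by
  rw [coeff_zero_eq_eval_zero, eval_comp, eval_mul, eval_X, mul_zero, ← coeff_zero_eq_eval_zero]

omit [IsAlgClosed k] [CharZero k] in
private lemma locu_one (v : Place k K) : v.At (1 : K) 1 := by
  have h := Place.at_const (v := v) (1 : k)
  rwa [_root_.map_one] at h

private lemma locu_ord (hK : IsCurve k K) (v : Place k K) {l c' r t : K} (hl : l ≠ 0)
    (hc : c' ≠ 0) (hr : r ≠ 0) (ht : t ≠ 0) (N : ℕ) :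
    ord v (l ^ N * (c' * (r * t) ^ N)) = ord v (c' * r ^ N) + N * (ord v l + ord v t) := by
  have e : l ^ N * (c' * (r * t) ^ N) = (c' * r ^ N) * (l * t) ^ N := by
    rw [mul_pow, mul_pow]
    ring
  rw [e, ord_mul hK v (mul_ne_zero hc (pow_ne_zero _ hr)) (pow_ne_zero _ (mul_ne_zero hl ht)),
    ord_pow hK, ord_mul hK v hl ht]

omit [IsAlgClosed k] [CharZero k] [Field K] [Algebra k K] in
private lemma locu_sum {V : Type} [AddCommGroup V] (S : Multiset K) (u : K → ℤ) (x : V)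
    (n : ℤ) : (S.map fun t => (n * u t) • x).sum = (n * (S.map u).sum) • x := by
  induction S using Multiset.induction with
  | empty => simp
  | cons a S ih => rw [Multiset.map_cons, Multiset.sum_cons, ih, Multiset.map_cons,
      Multiset.sum_cons, mul_add, add_smul]

end aux

section one

variable {z : Pt W k} {K : Type} [Field K] [Algebra k K]
  (hK : IsCurve k K) {v : Place k K} {Φ : Fam W j ν z K} {c' : K} {r : K} {Ψ : Fam W j ν z k}
  (hr : IsRed v r Φ Ψ)

include hK hr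

omit [Module k V] in
/-- a point `(r t : τ)` which is not special: `τ = 0`, or `τ = 1` and `t` is not regular -/
private lemma locu_not (hc : c' ≠ 0) (hD : ord v (c' * r ^ (m * W.e)) = 0) {t τ : K}
    (ht0 : t ≠ 0) (hτ : ∀ l : K, l ≠ 0 → v.Vanishes (l * t) → v.Vanishes (l * τ)) (ω : K)
    (g : Pt W k → V) :
    ctr g v (Φ.p (r * t) τ) ω (c' * (r * t) ^ (m * W.e)) = 0 := by
  apply ctr_zero
  rintro d q ⟨l, h1, -, -, h4, h5⟩
  have hNn : m * W.e ≠ 0 := mul_ne_zero (NeZero.ne m) W.pos.ne'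
  have hl : l ≠ 0 := by
    rintro rfl
    rw [zero_pow hNn, zero_mul, ord_zero] at h5
    omega
  have hN : (0 : ℤ) < (m * W.e : ℕ) := by
    exact_mod_cast Nat.pos_of_ne_zero hNn
  rw [locu_ord hK v hl hc hr.r_ne ht0, hD, zero_add] at h5
  have h6 : 0 < ord v l + ord v t := by
    by_contra hcon
    have h7 : ((m * W.e : ℕ) : ℤ) * (ord v l + ord v t) ≤ 0 :=
      mul_nonpos_of_nonneg_of_nonpos hN.le (not_lt.1 hcon)
    omega
  have h7 : v.Vanishes (l * t) := by
    rw [vanishes_iff_ord hK (mul_ne_zero hl ht0), ord_mul hK v hl ht0]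
    exact h6
  have h7' : v.Vanishes (l * τ) := hτ l hl h7
  apply q.ne
  funext i
  have h8 := ((Place.at_zero_iff.2 h7').mul (Place.at_const (z.x i))).add
    ((Place.at_zero_iff.2 h7).mul (hr.x1 i))
  have e : l * τ * algebraMap k K (z.x i) + l * t * (r * Φ.x1 i) = l * Φ.p (r * t) τ i := by
    show _ = l * (algebraMap k K (z.x i) * τ + Φ.x1 i * (r * t))
    ring
  rw [e, zero_mul, zero_mul, add_zero] at h8
  exact (h1 i).unique h8

omit [Module k V] in
/-- the root at infinity -/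
private lemma locu_inf (hc : c' ≠ 0) (hD : ord v (c' * r ^ (m * W.e)) = 0) (ω : K)
    (g : Pt W k → V) : ctr g v (Φ.p 1 0) ω (c' * 1 ^ (m * W.e)) = 0 := by
  have h := locu_not hK hr hc hD (t := r⁻¹) (τ := 0) (inv_ne_zero hr.r_ne)
    (fun l _ _ => by rw [mul_zero]; exact v.vanishes_zero) ω g
  rwa [mul_inv_cancel₀ hr.r_ne] at h

omit [Module k V] in
/-- a root which is not regular -/
private lemma locu_pole (hc : c' ≠ 0) (hD : ord v (c' * r ^ (m * W.e)) = 0) {t : K}
    (ht : t ∉ v.ring) (ω : K) (g : Pt W k → V) :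
    ctr g v (Φ.p (r * t) 1) ω (c' * (r * t) ^ (m * W.e)) = 0 := by
  have ht0 : t ≠ 0 := by
    rintro rfl
    exact ht v.ring.zero_mem
  have hto : ord v t < 0 := by
    rw [mem_iff_ord hK ht0] at ht
    omega
  refine locu_not hK hr hc hD ht0 (fun l hl h => ?_) ω g
  rw [vanishes_iff_ord hK (mul_ne_zero hl ht0), ord_mul hK v hl ht0] at h
  rw [mul_one, vanishes_iff_ord hK hl]
  omega

omit [IsAlgClosed k] [CharZero k] [NeZero m] hK in
private lemma locu_coord {t : K} {T : k} (ht : v.At t T) (i : Fin (W.n + 1)) :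
    v.At (1 * Φ.p (r * t) 1 i) (Ψ.p T 1 i) := by
  rw [one_mul]
  exact (hr.hev ht (locu_one v)).1 i

omit [Module k V] [NeZero m] in
/-- a root which is a unit -/
private lemma locu_unit (hc : c' ≠ 0) (hD : ord v (c' * r ^ (m * W.e)) = 0) {t : K} {T : k}
    (ht : v.At t T) (hT : T ≠ 0) (ω : K) (g : Pt W k → V) :
    ctr g v (Φ.p (r * t) 1) ω (c' * (r * t) ^ (m * W.e)) = 0 := by
  have ht0 : t ≠ 0 := by
    rintro rfl
    exact hT (ht.unique at_zero_zero)
  apply ctr_zero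
  refine not_spec hK (l := 1) (ξ := Ψ.p T 1) (locu_coord hr ht) (Ψ.p_ne one_ne_zero)
    (Or.inr ?_)
  rw [locu_ord hK v one_ne_zero hc hr.r_ne ht0, hD, ord_of_at hK ht hT,
    ord_of_at hK (locu_one v) one_ne_zero]
  simp

omit [Module k V] in
/-- a root which vanishes -/
private lemma locu_spec (hc : c' ≠ 0) (hD : ord v (c' * r ^ (m * W.e)) = 0) {t : K}
    (ht : v.Vanishes t) (ht0 : t ≠ 0) {ω : K} {q : Pt W k} (hx : q.x = Ψ.p 0 1)
    (hw : v.At ω q.w) (hq : q.w ≠ 0) {g : Pt W k → V} (hg : Inv g) :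
    ctr g v (Φ.p (r * t) 1) ω (c' * (r * t) ^ (m * W.e)) =
      (((m * W.e : ℕ) : ℤ) * ord v t) • g q := by
  have hN : (0 : ℤ) < (m * W.e : ℕ) := by
    exact_mod_cast Nat.pos_of_ne_zero (mul_ne_zero (NeZero.ne m) W.pos.ne')
  have ht1 : 0 < ord v t := (vanishes_iff_ord hK ht0).1 ht
  refine ctr_eq hK hg ⟨1, fun i => ?_, ?_, hq, mul_pos hN ht1, ?_⟩
  · rw [hx]
    exact locu_coord hr (Place.at_zero_iff.2 ht) i
  · rw [one_pow, one_mul]
    exact hw
  · rw [locu_ord hK v one_ne_zero hc hr.r_ne ht0, hD,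
      ord_of_at hK (locu_one v) one_ne_zero, zero_add, zero_add]

end one

theorem loc_unit {z : Pt W k} (hz : z.w ≠ 0) {K : Type} [Field K] [Algebra k K] (hK : IsCurve k K)
    {v : Place k K} {Φ : Fam W j ν z K} {c' : K} (hc' : c' ≠ 0) {r : K} {Ψ : Fam W j ν z k}
    (hr : IsRed v r Φ Ψ) (hu : ord v (c' * r ^ (m * W.e)) = 0) {κ θ : K} {κ₀ θ₀ : k}
    (hκ₀ : v.At κ κ₀) (hθ₀ : v.At θ θ₀) (hQ : Ψ.Q κ₀ ≠ 0) (hQ0 : (Φ.Q κ).coeff 0 ≠ 0)
    (hs : (Φ.Q κ).roots.card = (Φ.Q κ).natDegree) {η : Mu k m}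
    (hη : v.Vanishes ((Φ.Q κ).coeff 0) → θ₀ * Ψ.A.coeff 0 = mu k η * z.w) (z' : Pt W' k) :
    ctv G Φ κ θ c' z' v = (m * W.e * ord v ((Φ.Q κ).coeff 0)) • G.F (z.tw η) z' := by
  classical
  have hr0 := hr.r_ne
  have hcast : ((m * W.e : ℕ) : ℤ) = m * W.e := by push_cast; rfl
  have hred : Red v ((Φ.Q κ).comp (C r * X)) (Ψ.Q κ₀) := hr.q hκ₀
  have hroots := locu_roots (Q := Φ.Q κ) hr0
  have hdeg := locu_deg (Q := Φ.Q κ) hr0
  have hco := locu_coeff (Φ.Q κ) r
  have hctv : ctv G Φ κ θ c' z' v = (((Φ.Q κ).comp (C r * X)).roots.map fun t =>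
      ctr (fun q => G.F q z') v (Φ.p (r * t) 1) (θ * Φ.a (r * t) 1)
        (c' * (r * t) ^ (m * W.e))).sum := by
    unfold ctv
    rw [locu_inf hK hr hc' hu, smul_zero, add_zero]
    conv_lhs => rw [← hroots, Multiset.map_map]
    rfl
  generalize hQt : (Φ.Q κ).comp (C r * X) = Qt at hctv hred hroots hdeg hco
  have hcard : Qt.roots.card = Qt.natDegree := by
    rw [hdeg, ← hs, ← hroots, Multiset.card_map]
  have hQtne : Qt ≠ 0 := by
    intro h
    apply hQ0
    rw [← hco, h, coeff_zero]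
  have ht0 : ∀ t ∈ Qt.roots, t ≠ 0 := by
    rintro t ht rfl
    rw [mem_roots hQtne, IsRoot.def, ← coeff_zero_eq_eval_zero, hco] at ht
    exact hQ0 ht
  have hvan : ∀ t ∈ Qt.roots, v.Vanishes t → v.Vanishes ((Φ.Q κ).coeff 0) := by
    intro t ht hv
    have h1 := hred.eval (Place.at_zero_iff.2 hv)
    rw [(mem_roots hQtne).1 ht] at h1
    have h2 := h1.unique at_zero_zero
    have h3 := hred 0
    rw [hco, coeff_zero_eq_eval_zero (Ψ.Q κ₀), h2] at h3
    exact Place.at_zero_iff.1 h3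
  have hx0 : (z.tw η).x = Ψ.p 0 1 := by
    funext i
    show z.x i = algebraMap k k (z.x i) * 1 + Ψ.x1 i * 0
    rw [mul_one, mul_zero, add_zero, Algebra.algebraMap_self, RingHom.id_apply]
  have hord := ord_roots hK hred hQ hcard (by rw [hco]; exact hQ0)
  rw [hco] at hord
  rw [hctv, ← hord, ← hcast, ← locu_sum]
  congr 1
  apply Multiset.map_congr rfl
  intro t ht
  by_cases hv : v.Vanishes t
  · rw [if_pos hv]
    have hw : v.At (θ * Φ.a (r * t) 1) (z.tw η).w := by
      have h1 := hθ₀.mul (hr.hev (Place.at_zero_iff.2 hv) (locu_one v)).2.1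
      have h2 : θ₀ * Ψ.a 0 1 = (z.tw η).w := by
        have h3 : Ψ.a 0 1 = Ψ.A.coeff 0 := by
          show hev Ψ.A W.e 0 1 = _
          rw [hev_s_zero, one_pow, mul_one]
        rw [h3]
        exact hη (hvan t ht hv)
      rwa [h2] at h1
    exact locu_spec hK hr hc' hu hv (ht0 t ht) hx0 hw (mul_ne_zero (mu_ne k η) hz)
      (fun b hb q => G.scale1 b hb q z')
  · rw [if_neg hv, mul_zero, zero_smul]
    by_cases hreg : t ∈ v.ring
    · obtain ⟨T, hT⟩ := exists_at hK v hreg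
      refine locu_unit hK hr hc' hu hT ?_ _ _
      rintro rfl
      exact hv (Place.at_zero_iff.1 hT)
    · exact locu_pole hK hr hc' hu hreg _ _

end Pool.Agent.CYU
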