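import Pool.Agent.CYU.CtrA
import Pool.Agent.GT.Val

/-!
# The relation of the functions `a w - ω`

Proof of `rel_a`. For `a ∈ Mu k m` let `P_a = (X, a w)`, a point of `W` over `K`, and `g_a = a w - ω`; `∏ g_a =
± (w ^ m - ω ^ m) = ± c ≠ 0`. Sum the relations `G.rel` for `P_a`, `P'`, `g_a` over `a`. Let `p v` be a value of `(X, w)`
at `v` (`exists_val`, `choose`), so `(p v).tw a` is a value of `P_a`; we get
`∑ v, ∑ a, ord v (g_a) • G.F ((p v).tw a) (p' v) = 0`, so it is enough to show
`∑ a, ord v (g_a) • G.F ((p v).tw a) (p' v) = ctr (fun q => G.F q (p' v)) v X ω c` for all `v`.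
Let `l` be the factor for `p v`, `o a = ord v (l ^ e g_a)`, `κ = ∑ a, o a = ord v (l ^ (m e) c)`,
`w' = l ^ e w` (value `(p v).w`), `ω' = l ^ e ω`. By `sum_chi` and `eq1` we may replace `ord v (g_a)` by `o a`.
* `(p v).w = 0`: all terms are zero (`Bi.zero1`), and `v` is not special: a factor `l'` for `Spec` differs
  from `l` by a unit, so `q.w ^ m = f(q.x) = 0`.
* `(p v).w ≠ 0`, `κ ≤ 0`: all `o a` are equal. If `ω'` is not regular: `o a = ord ω'`. If it is regular:
  `o a ≥ 0`, so all are zero. The sum is zero by `sum_chi`; `v` is not special, because `d = κ` in `Spec`.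
* `(p v).w ≠ 0`, `κ > 0`: `ω' ^ m = w' ^ m - l ^ (m e) c` is a unit with the value `(p v).w ^ m`, so `ω'` has the
  value `b (p v).w` for exactly one `b : Mu k m`, `o b = κ`, and `o a = 0` for `a ≠ b`. So the sum is
  `κ • G.F ((p v).tw b) (p' v)`, and `Spec v X ω c κ ((p v).tw b)`; `ctr_eq` with `Bi.scale1`.
The sum over `v` has finite support, because all but finitely many `ord v (g_a)` are zero.
-/

set_option autoImplicit false

noncomputable section

namespace Pool.Agent.CYU

open Pool.Agent.ZCyc Pool.Agent.Dess Pool.Agent.TInc Polynomial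

variable {k : Type} [Field k] [IsAlgClosed k] [CharZero k] {m m' : ℕ} [NeZero m] [NeZero m'] {V : Type}
  [AddCommGroup V] [Module k V] {χ : Mu k m →* kˣ} {χ' : Mu k m' →* kˣ}
  {W : Cov k m} {W' : Cov k m'} (G : Bi χ χ' W W' V)

omit [IsAlgClosed k] [CharZero k] [NeZero m] in
private lemma rela_mu_inj {K : Type} [Field K] [Algebra k K] :
    Function.Injective fun a : Mu k m => mu K a := by
  intro a b h
  have h1 : ((a : kˣ) : k) = ((b : kˣ) : k) := (algebraMap k K).injective h
  exact Subtype.ext (Units.ext h1)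

/-- the product of the factors -/
private lemma rela_prod {K : Type} [Field K] [Algebra k K] (x y : K) :
    ∏ a : Mu k m, (x - mu K a * y) = x ^ m - y ^ m := by
  obtain ⟨ζ, hζ⟩ := HasEnoughRootsOfUnity.exists_primitiveRoot k m
  have hζ' : IsPrimitiveRoot (algebraMap k K ζ) m :=
    hζ.map_of_injective (algebraMap k K).injective
  have hm0 : 0 < m := Nat.pos_of_ne_zero (NeZero.ne m)
  rw [hζ'.pow_sub_pow_eq_prod_sub_mul x y hm0]
  have hmaps : Set.MapsTo (fun a : Mu k m => mu K a) (Finset.univ : Finset (Mu k m))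
      (nthRootsFinset m (1 : K)) := by
    intro a _
    rw [Finset.mem_coe, mem_nthRootsFinset hm0]
    exact mu_pow K a
  have hinj : Set.InjOn (fun a : Mu k m => mu K a) (Finset.univ : Finset (Mu k m)) :=
    rela_mu_inj.injOn
  refine Finset.prod_nbij (fun a => mu K a) (fun a ha => hmaps ha) hinj ?_ fun a _ => rfl
  apply Finset.surjOn_of_injOn_of_card_le _ hmaps hinj
  rw [hζ'.card_nthRootsFinset, Finset.card_univ, card_mu]

omit [IsAlgClosed k] [CharZero k] in
private lemma rela_mu_ne {K : Type} [Field K] [Algebra k K] (a : Mu k m) : mu K a ≠ 0 := by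
  intro h
  have h1 := mu_pow K a
  rw [h, zero_pow (NeZero.ne m)] at h1
  exact zero_ne_one h1

private lemma rela_sum_ord {K : Type} [Field K] [Algebra k K] (hK : IsCurve k K) (v : Place k K)
    {Y Ω C : K} (hC : C ≠ 0) (h : Y ^ m = Ω ^ m + C) :
    ∑ a : Mu k m, ord v (mu K a * Y - Ω) = ord v C := by
  have hne : ∀ a : Mu k m, Ω - mu K a * Y ≠ 0 := by
    intro a h0
    have h1 : Ω = mu K a * Y := sub_eq_zero.1 h0
    rw [h1, mul_pow, mu_pow, one_mul] at h
    exact hC (by linear_combination -h)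
  have h1 : ∑ a : Mu k m, ord v (mu K a * Y - Ω) = ∑ a : Mu k m, ord v (Ω - mu K a * Y) := by
    refine Finset.sum_congr rfl fun a _ => ?_
    rw [← ord_neg hK, neg_sub]
  rw [h1, ← ord_prod hK v _ _ fun a _ => hne a, rela_prod, h]
  have h2 : Ω ^ m - (Ω ^ m + C) = -C := by ring
  rw [h2, ord_neg hK]

/-- the relation at one place -/
private lemma rela_loc (hm : 2 ≤ m) (hχ : Function.Injective χ) {K : Type} [Field K]
    [Algebra k K] (hK : IsCurve k K) (v : Place k K) (q' : Pt W' k) {X : Fin (W.n + 1) → K}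
    {w ω c : K} {hX : X ≠ 0} {hw : w ^ m = MvPolynomial.aeval X W.f} (h : w ^ m = ω ^ m + c)
    (hc : c ≠ 0) {p : Pt W k} (hp : IsVal v (⟨X, w, hX, hw⟩ : Pt W K) p) :
    ∑ a : Mu k m, ord v (mu K a * w - ω) • G.F (p.tw a) q' =
      ctr (fun q => G.F q q') v X ω c := by
  obtain ⟨l, hl1, hl2⟩ := hp
  have hl1 : ∀ i, v.At (l * X i) (p.x i) := hl1
  have hl2 : v.At (l ^ W.e * w) p.w := hl2
  have hl : l ≠ 0 := by
    rintro rfl
    apply p.ne
    funext i
    have h1 := hl1 i
    rw [zero_mul] at h1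
    have h2 := Place.at_const (v := v) (0 : k)
    rw [_root_.map_zero] at h2
    exact h1.unique h2
  have hinv : Inv fun q => G.F q q' := fun b hb q => G.scale1 b hb q q'
  set Y := l ^ W.e * w with hY
  set Ω := l ^ W.e * ω with hΩ
  set C := l ^ (m * W.e) * c with hCdef
  have hC : C ≠ 0 := mul_ne_zero (pow_ne_zero _ hl) hc
  have hYC : Y ^ m = Ω ^ m + C := by
    rw [hY, hΩ, hCdef, mul_pow, mul_pow, ← pow_mul, mul_comm W.e m, h]
    ring
  have hne : ∀ a : Mu k m, mu K a * Y - Ω ≠ 0 := by
    intro a h0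
    have h1 : Ω = mu K a * Y := (sub_eq_zero.1 h0).symm
    have h2 : Ω ^ m = Y ^ m := by
      rw [h1, mul_pow (mu K a) Y, mu_pow, one_mul]
    exact hC (by linear_combination -hYC - h2)
  have hne' : ∀ a : Mu k m, mu K a * w - ω ≠ 0 := by
    intro a h0
    apply hne a
    rw [hY, hΩ]
    linear_combination l ^ W.e * h0
  have hord : ∀ a : Mu k m, ord v (mu K a * Y - Ω) = W.e * ord v l + ord v (mu K a * w - ω) := by
    intro a
    have e : mu K a * Y - Ω = l ^ W.e * (mu K a * w - ω) := by
      rw [hY, hΩ]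
      ring
    rw [e, ord_mul hK v (pow_ne_zero _ hl) (hne' a), ord_pow hK]
  have hsumχ := sum_chi hm hχ
  have hleft : ∑ a : Mu k m, ord v (mu K a * w - ω) • G.F (p.tw a) q' =
      ∑ a : Mu k m, (ord v (mu K a * Y - Ω)) • G.F (p.tw a) q' := by
    have h1 : ∀ a : Mu k m, ord v (mu K a * Y - Ω) • G.F (p.tw a) q' =
        (W.e * ord v l : ℤ) • (((χ a : kˣ) : k) • G.F p q') +
          ord v (mu K a * w - ω) • G.F (p.tw a) q' := by
      intro a
      rw [hord, add_smul, G.eq1]
    rw [Finset.sum_congr rfl fun a _ => h1 a, Finset.sum_add_distrib, ← Finset.smul_sum,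
      ← Finset.sum_smul, hsumχ, zero_smul, smul_zero, zero_add]
  rw [hleft]
  by_cases hp0 : p.w = 0
  · -- the value is a branch point
    rw [Finset.sum_eq_zero fun a _ => by
      rw [Pt.tw_of_zero a hp0, G.zero1 hm hχ hp0, smul_zero]]
    symm
    apply ctr_zero
    rintro d q ⟨l', h1, h2, h3, -, -⟩
    obtain ⟨b, hb, hbq⟩ := GT.scale_unique p.ne q.ne hl1 h1
    apply h3
    have h4 := q.on
    rw [hbq, aeval_hom W.hom, ← p.on, hp0, zero_pow (NeZero.ne m), mul_zero] at h4
    exact pow_eq_zero_iff (NeZero.ne m) |>.1 h4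
  · by_cases hκ : 0 < ord v C
    · -- one factor vanishes
      have hCv : v.Vanishes C := (vanishes_iff_ord hK hC).2 hκ
      have hΩm : v.At (Ω ^ m) (p.w ^ m) := by
        have e : Ω ^ m = Y ^ m - C := by
          rw [hYC]
          ring
        rw [e]
        have h1 := (hl2.pow m).sub (Place.at_zero_iff.2 hCv)
        rwa [sub_zero] at h1
      obtain ⟨ζ, hζ⟩ := HasEnoughRootsOfUnity.exists_primitiveRoot k m
      obtain ⟨j, -, hj⟩ := Place.exists_root_at hζ (Nat.pos_of_ne_zero (NeZero.ne m)) hΩm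
      obtain ⟨b, hb⟩ : ∃ b : Mu k m, ((b : kˣ) : k) = ζ ^ j := by
        have h1 : (ζ ^ j) ^ m = 1 := by
          rw [← pow_mul, mul_comm, pow_mul, hζ.pow_eq_one, one_pow]
        exact ⟨rootsOfUnity.mkOfPowEq _ h1, rootsOfUnity.coe_mkOfPowEq h1⟩
      rw [← hb] at hj
      have hother : ∀ a : Mu k m, a ≠ b → ord v (mu K a * Y - Ω) = 0 := by
        intro a hab
        have h1 : v.At (mu K a * Y - Ω) (((a : kˣ) : k) * p.w - ((b : kˣ) : k) * p.w) :=
          ((Place.at_const _).mul hl2).sub hj
        refine ord_of_at hK h1 ?_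
        rw [← sub_mul]
        refine mul_ne_zero ?_ hp0
        rw [sub_ne_zero]
        intro h2
        exact hab (Subtype.ext (Units.ext h2))
      have htot := rela_sum_ord hK v hC hYC
      rw [Finset.sum_eq_single b (fun a _ hab => hother a hab)
        (fun h => absurd (Finset.mem_univ b) h)] at htot
      rw [Finset.sum_eq_single b (fun a _ hab => by rw [hother a hab, zero_smul])
        (fun h => absurd (Finset.mem_univ b) h), htot]
      have hspec : Spec v X ω c (ord v C) (p.tw b) := by
        refine ⟨l, hl1, ?_, ?_, hκ, rfl⟩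
        · exact hj
        · exact mul_ne_zero (rela_mu_ne b) hp0
      rw [ctr_eq hK hinv hspec]
    · -- all orders are equal
      have hall : ∀ a : Mu k m, ord v (mu K a * Y - Ω) = ord v (mu K (1 : Mu k m) * Y - Ω) := by
        by_cases hreg : Ω ∈ v.ring
        · have h0 : ∀ a : Mu k m, 0 ≤ ord v (mu K a * Y - Ω) := by
            intro a
            exact (mem_iff_ord hK (hne a)).1 (sub_mem
              (mul_mem (v.const_mem ((a : kˣ) : k)) hl2.mem) hreg)
          have htot := rela_sum_ord hK v hC hYC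
          have h1 : ∀ a ∈ (Finset.univ : Finset (Mu k m)), ord v (mu K a * Y - Ω) = 0 :=
            (Finset.sum_eq_zero_iff_of_nonneg fun a _ => h0 a).1
              (le_antisymm (by rw [htot]; exact not_lt.1 hκ) (Finset.sum_nonneg fun a _ => h0 a))
          intro a
          rw [h1 a (Finset.mem_univ a), h1 1 (Finset.mem_univ _)]
        · have hΩ0 : Ω ≠ 0 := by
            intro h0
            exact hreg (h0 ▸ zero_mem _)
          have hneg : ord v Ω < 0 := by
            by_contra hcon
            exact hreg ((mem_iff_ord hK hΩ0).2 (not_lt.1 hcon))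
          have h1 : ∀ a : Mu k m, ord v (mu K a * Y - Ω) = ord v Ω := by
            intro a
            have h2 := (ord_add_eq hK (v := v) (f := -Ω) (g := mu K a * Y)
              (neg_ne_zero.2 hΩ0) (fun hg => by
                rw [ord_neg hK]
                have h3 := (mem_iff_ord hK hg).1 (mul_mem (v.const_mem ((a : kˣ) : k)) hl2.mem)
                omega)).2
            rw [ord_neg hK] at h2
            rw [← h2]
            congr 1
            ring
          intro a
          rw [h1 a, h1 1]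
      have hzero : ∑ a : Mu k m, ord v (mu K a * Y - Ω) • G.F (p.tw a) q' = 0 := by
        have h1 : ∀ a : Mu k m, ord v (mu K a * Y - Ω) • G.F (p.tw a) q' =
            ord v (mu K (1 : Mu k m) * Y - Ω) • (((χ a : kˣ) : k) • G.F p q') := by
          intro a
          rw [hall a, G.eq1]
        rw [Finset.sum_congr rfl fun a _ => h1 a, ← Finset.smul_sum, ← Finset.sum_smul, hsumχ,
          zero_smul, smul_zero]
      rw [hzero]
      symm
      exact ctr_zero (not_spec hK hl1 p.ne (Or.inr (not_lt.1 hκ)))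

theorem rel_a (hm : 2 ≤ m) (hχ : Function.Injective χ) {K : Type} [Field K] [Algebra k K]
    (hK : IsCurve k K) {P' : Pt W' K}
    {p' : Place k K → Pt W' k} (hp' : ∀ v, IsVal v P' (p' v)) {X : Fin (W.n + 1) → K}
    (hX : X ≠ 0) {w ω c : K} (hw : w ^ m = MvPolynomial.aeval X W.f) (h : w ^ m = ω ^ m + c)
    (hc : c ≠ 0) :
    (Function.support fun v => ctr (fun q => G.F q (p' v)) v X ω c).Finite ∧
      ∑ᶠ v, ctr (fun q => G.F q (p' v)) v X ω c = 0 := by
  classical
  set P : Pt W K := ⟨X, w, hX, hw⟩ with hP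
  have hval : ∀ v, ∃ p, IsVal v P p := fun v => exists_val hK v P
  choose p hp using hval
  have hne : ∀ a : Mu k m, mu K a * w - ω ≠ 0 := by
    intro a h0
    have h1 : ω = mu K a * w := (sub_eq_zero.1 h0).symm
    rw [h1, mul_pow, mu_pow, one_mul] at h
    exact hc (by linear_combination -h)
  have hloc : ∀ v, ∑ a : Mu k m, ord v (mu K a * w - ω) • G.F ((p v).tw a) (p' v) =
      ctr (fun q => G.F q (p' v)) v X ω c := fun v => rela_loc G hm hχ hK v (p' v) h hc (hp v)
  set S : Finset (Place k K) :=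
    Finset.univ.biUnion fun a : Mu k m => (dv hK (mu K a * w - ω)).support with hS
  have hrel : ∀ a : Mu k m, ∑ v ∈ S, ord v (mu K a * w - ω) • G.F ((p v).tw a) (p' v) = 0 := by
    intro a
    have h1 := G.rel K hK (P.tw a) P' (fun v => (p v).tw a) p' (fun v => isVal_tw (hp v) a) hp'
      (mu K a * w - ω) (hne a)
    rw [Finsupp.sum] at h1
    rw [← h1]
    symm
    apply Finset.sum_subset (Finset.subset_biUnion_of_mem
      (fun a : Mu k m => (dv hK (mu K a * w - ω)).support) (Finset.mem_univ a))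
    intro v _ hv
    rw [Finsupp.notMem_support_iff] at hv
    rw [hv, zero_smul]
  have hsupp : (Function.support fun v => ctr (fun q => G.F q (p' v)) v X ω c) ⊆ S := by
    intro v hv
    by_contra hvS
    apply hv
    show ctr (fun q => G.F q (p' v)) v X ω c = 0
    rw [← hloc v]
    refine Finset.sum_eq_zero fun a _ => ?_
    have h1 : v ∉ (dv hK (mu K a * w - ω)).support := by
      intro h2
      apply hvS
      rw [hS, Finset.mem_coe, Finset.mem_biUnion]
      exact ⟨a, Finset.mem_univ a, h2⟩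
    rw [Finsupp.notMem_support_iff] at h1
    have hv' : ord v (mu K a * w - ω) = 0 := h1
    rw [hv', zero_smul]
  refine ⟨S.finite_toSet.subset hsupp, ?_⟩
  rw [finsum_eq_sum_of_support_subset _ hsupp]
  rw [← Finset.sum_congr rfl fun v _ => hloc v, Finset.sum_comm]
  exact Finset.sum_eq_zero fun a _ => hrel a

end Pool.Agent.CYU
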