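import Pool.Agent.TInc.Ord

/-!
# The roots of a polynomial and of its reduction

`Red v Q q`: the coefficients of `Q` are regular at `v` and have the values `q.coeff i`. Let
`q ≠ 0`. The roots of `q` are the values of the roots of `Q` which are regular at `v` (`red_roots`).
`ord_roots`: the sum of the orders of the roots which vanish at `v` is the order of `Q.coeff 0`.
Induction on the degree: divide by `X - s` if the root `s` is regular, by `1 - s⁻¹ X` if it is not.
-/

set_option autoImplicit false

noncomputable section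

namespace Pool.Agent.CYU

open Pool.Agent.ZCyc Pool.Agent.Dess Pool.Agent.TInc Polynomial

variable {k : Type} [Field k]

/-- `q` is the reduction of the polynomial `Q` at the place `v` -/
def Red {M : Type} [Field M] [Algebra k M] (v : Place k M) (Q : M[X]) (q : k[X]) : Prop :=
  ∀ i, v.At (Q.coeff i) (q.coeff i)

section red

variable {M : Type} [Field M] [Algebra k M] {v : Place k M}

theorem Red.add {P Q : M[X]} {p q : k[X]} (h : Red v P p) (h' : Red v Q q) :
    Red v (P + Q) (p + q) := by
  intro i
  rw [coeff_add, coeff_add]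
  exact (h i).add (h' i)

theorem Red.sub {P Q : M[X]} {p q : k[X]} (h : Red v P p) (h' : Red v Q q) :
    Red v (P - Q) (p - q) := by
  intro i
  rw [coeff_sub, coeff_sub]
  exact (h i).sub (h' i)

theorem Red.neg {P : M[X]} {p : k[X]} (h : Red v P p) : Red v (-P) (-p) := by
  intro i
  rw [coeff_neg, coeff_neg]
  exact (h i).neg

theorem Red.mul {P Q : M[X]} {p q : k[X]} (h : Red v P p) (h' : Red v Q q) :
    Red v (P * Q) (p * q) := by
  intro i
  rw [coeff_mul, coeff_mul]
  exact Place.At.sum fun x _ => (h x.1).mul (h' x.2)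

theorem at_zero_zero : v.At (0 : M) 0 := by
  rw [Place.at_zero_iff]
  exact v.vanishes_zero

theorem Red.C {a : M} {b : k} (h : v.At a b) : Red v (Polynomial.C a) (Polynomial.C b) := by
  intro i
  rw [coeff_C, coeff_C]
  split_ifs
  · exact h
  · exact at_zero_zero

theorem Red.X : Red v (X : M[X]) (Polynomial.X : k[X]) := by
  intro i
  rw [coeff_X, coeff_X]
  split_ifs
  · simpa using Place.at_const (v := v) (1 : k)
  · exact at_zero_zero

theorem Red.zero : Red v (0 : M[X]) (0 : k[X]) := by
  intro i
  rw [coeff_zero, coeff_zero]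
  exact at_zero_zero

theorem Red.one : Red v (1 : M[X]) (1 : k[X]) := by
  have h := Red.C (v := v) (a := (1 : M)) (b := 1) (by simpa using Place.at_const (v := v) (1 : k))
  simpa using h

theorem Red.pow {P : M[X]} {p : k[X]} (h : Red v P p) (n : ℕ) : Red v (P ^ n) (p ^ n) := by
  induction n with
  | zero => simpa using Red.one
  | succ n ih => rw [pow_succ, pow_succ]; exact ih.mul h

theorem Red.sum {ι : Type*} {s : Finset ι} {P : ι → M[X]} {p : ι → k[X]}
    (h : ∀ i ∈ s, Red v (P i) (p i)) : Red v (∑ i ∈ s, P i) (∑ i ∈ s, p i) := by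
  intro i
  rw [finsetSum_coeff, finsetSum_coeff]
  exact Place.At.sum fun j hj => h j hj i

theorem Red.eval {Q : M[X]} {q : k[X]} (h : Red v Q q) {s : M} {c : k} (hs : v.At s c) :
    v.At (Q.eval s) (q.eval c) := by
  have e1 : Q.eval s = ∑ i ∈ Finset.range (max Q.natDegree q.natDegree + 1),
      Q.coeff i * s ^ i :=
    eval_eq_sum_range' (lt_of_le_of_lt (le_max_left _ _) (Nat.lt_succ_self _)) s
  have e2 : q.eval c = ∑ i ∈ Finset.range (max Q.natDegree q.natDegree + 1),
      q.coeff i * c ^ i :=
    eval_eq_sum_range' (lt_of_le_of_lt (le_max_right _ _) (Nat.lt_succ_self _)) c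
  rw [e1, e2]
  exact Place.At.sum fun i _ => (h i).mul (hs.pow i)

theorem Red.unique {Q : M[X]} {q q' : k[X]} (h : Red v Q q) (h' : Red v Q q') : q = q' := by
  ext i
  exact (h i).unique (h' i)

theorem Red.mem {Q : M[X]} {q : k[X]} (h : Red v Q q) (i : ℕ) : Q.coeff i ∈ v.ring := (h i).mem

end red

variable [IsAlgClosed k] [CharZero k] {M : Type} [Field M] [Algebra k M]

theorem exists_red (hM : IsCurve k M) {v : Place k M} {Q : M[X]} (h : ∀ i, Q.coeff i ∈ v.ring) :
    ∃ q : k[X], Red v Q q ∧ q.natDegree ≤ Q.natDegree := by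
  refine ⟨∑ i ∈ Finset.range (Q.natDegree + 1), monomial i (val v (Q.coeff i)), ?_, ?_⟩
  · intro i
    rw [finsetSum_coeff]
    simp only [coeff_monomial]
    rw [Finset.sum_ite_eq']
    split_ifs with hi
    · exact at_val hM (h i)
    · have hi' : Q.natDegree < i := by
        rw [Finset.mem_range] at hi
        omega
      rw [coeff_eq_zero_of_natDegree_lt hi']
      exact at_zero_zero
  · refine natDegree_sum_le_of_forall_le _ _ fun i hi => ?_
    rw [Finset.mem_range] at hi
    exact (natDegree_monomial_le _).trans (by omega)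

omit [IsAlgClosed k] [CharZero k] in
/-- division by `X - s`, `s` regular -/
theorem mem_of_mul_X_sub {v : Place k M} {Q P : M[X]} {s : M} (hs : s ∈ v.ring)
    (hQ : ∀ i, Q.coeff i ∈ v.ring) (h : Q = (X - C s) * P) : ∀ i, P.coeff i ∈ v.ring := by
  have step : ∀ i, P.coeff i = Q.coeff (i + 1) + s * P.coeff (i + 1) := by
    intro i
    rw [h, sub_mul, coeff_sub, coeff_X_mul, coeff_C_mul]
    ring
  have key : ∀ n i, P.natDegree < i + n → P.coeff i ∈ v.ring := by
    intro n
    induction n with
    | zero =>
      intro i hi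
      rw [coeff_eq_zero_of_natDegree_lt (by simpa using hi)]
      exact v.ring.zero_mem
    | succ n ih =>
      intro i hi
      rw [step i]
      exact v.ring.add_mem _ _ (hQ _) (v.ring.mul_mem _ _ hs (ih (i + 1) (by omega)))
  intro i
  exact key (P.natDegree + 1) i (by omega)

omit [IsAlgClosed k] [CharZero k] in
/-- division by `1 - r X`, `r` regular -/
theorem mem_of_mul_one_sub {v : Place k M} {Q P : M[X]} {r : M} (hr : r ∈ v.ring)
    (hQ : ∀ i, Q.coeff i ∈ v.ring) (h : Q = (1 - C r * X) * P) : ∀ i, P.coeff i ∈ v.ring := by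
  intro i
  induction i with
  | zero =>
    have h0 : P.coeff 0 = Q.coeff 0 := by
      rw [h, sub_mul, coeff_sub, one_mul, mul_assoc, coeff_C_mul, coeff_X_mul_zero, mul_zero,
        sub_zero]
    rw [h0]
    exact hQ 0
  | succ i ih =>
    have h0 : P.coeff (i + 1) = Q.coeff (i + 1) + r * P.coeff i := by
      rw [h, sub_mul, coeff_sub, one_mul, mul_assoc, coeff_C_mul, coeff_X_mul]
      ring
    rw [h0]
    exact v.ring.add_mem _ _ (hQ _) (v.ring.mul_mem _ _ hr ih)

open Classical in
theorem red_ind (hM : IsCurve k M) {v : Place k M} : ∀ (n : ℕ) (Q : M[X]) (q : k[X]),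
    Red v Q q → q ≠ 0 → Q.natDegree = n → Q.roots.card = n →
    q.roots = (Q.roots.filter (· ∈ v.ring)).map (val v) ∧
    (Q.coeff 0 ≠ 0 → (Q.roots.map fun s => if v.Vanishes s then ord v s else 0).sum =
      ord v (Q.coeff 0)) := by
  intro n
  induction n with
  | zero =>
    intro Q q h hq hn hc
    have hQ : Q = C (Q.coeff 0) := eq_C_of_natDegree_eq_zero hn
    have hr : Q.roots = 0 := Multiset.card_eq_zero.1 hc
    have hq0 : q = C (q.coeff 0) := by
      refine Red.unique (v := v) h ?_
      have h1 := Red.C (h 0)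
      rwa [← hQ] at h1
    have hc0 : q.coeff 0 ≠ 0 := by
      intro h0
      rw [h0, C_0] at hq0
      exact hq hq0
    rw [hr]
    refine ⟨?_, fun _ => ?_⟩
    · rw [hq0]
      simp
    · rw [Multiset.map_zero, Multiset.sum_zero, ord_of_at hM (h 0) hc0]
  | succ n ih =>
    intro Q q h hq hn hc
    have hQ0 : Q ≠ 0 := by
      intro h0
      rw [h0, natDegree_zero] at hn
      omega
    obtain ⟨s, hs⟩ : ∃ s, s ∈ Q.roots := Multiset.card_pos_iff_exists_mem.1 (by omega)
    have hroot : IsRoot Q s := (mem_roots hQ0).1 hs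
    obtain ⟨P, hP⟩ : (X - C s) ∣ Q := dvd_iff_isRoot.2 hroot
    have hP0 : P ≠ 0 := by
      rintro rfl
      rw [mul_zero] at hP
      exact hQ0 hP
    have hdeg : P.natDegree = n := by
      have h1 := natDegree_mul (X_sub_C_ne_zero s) hP0
      rw [← hP, hn, natDegree_X_sub_C] at h1
      omega
    have hroots : Q.roots = s ::ₘ P.roots := by
      rw [hP, roots_mul (by rw [← hP]; exact hQ0), roots_X_sub_C, Multiset.singleton_add]
    have hcard : P.roots.card = n := by
      have h1 := hc
      rw [hroots, Multiset.card_cons] at h1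
      omega
    by_cases hsr : s ∈ v.ring
    · obtain ⟨p, hp, -⟩ := exists_red hM (mem_of_mul_X_sub hsr h.mem hP)
      have hsv : v.At s (val v s) := at_val hM hsr
      have hq' : q = (Polynomial.X - C (val v s)) * p := by
        refine Red.unique (v := v) h ?_
        rw [hP]
        exact (Red.X.sub (Red.C hsv)).mul hp
      have hp0 : p ≠ 0 := by
        rintro rfl
        rw [mul_zero] at hq'
        exact hq hq'
      obtain ⟨h1, h2⟩ := ih P p hp hp0 hdeg hcard
      refine ⟨?_, fun h0 => ?_⟩
      · rw [hq', roots_mul (by rw [← hq']; exact hq), roots_X_sub_C, Multiset.singleton_add, h1,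
          hroots, Multiset.filter_cons_of_pos _ hsr, Multiset.map_cons]
      · have e0 : Q.coeff 0 = -s * P.coeff 0 := by
          rw [hP, sub_mul, coeff_sub, coeff_X_mul_zero, coeff_C_mul]
          ring
        have hs0 : s ≠ 0 := by
          rintro rfl
          rw [neg_zero, zero_mul] at e0
          exact h0 e0
        have hPc : P.coeff 0 ≠ 0 := by
          intro h3
          rw [h3, mul_zero] at e0
          exact h0 e0
        rw [hroots, Multiset.map_cons, Multiset.sum_cons, h2 hPc, e0,
          ord_mul hM v (neg_ne_zero.2 hs0) hPc, ord_neg hM v s]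
        congr 1
        split_ifs with h3
        · rfl
        · rw [vanishes_iff_ord hM hs0] at h3
          have h4 := (mem_iff_ord hM hs0).1 hsr
          omega
    · have hs0 : s ≠ 0 := by
        rintro rfl
        exact hsr v.ring.zero_mem
      have hinv : v.Vanishes s⁻¹ := by
        rw [Place.vanishes_iff_or]
        right
        rwa [inv_inv]
      have hP' : Q = (1 - C s⁻¹ * X) * (C (-s) * P) := by
        rw [hP]
        have h1 : (C s : M[X]) * C s⁻¹ = 1 := by
          rw [← C_mul, mul_inv_cancel₀ hs0, C_1]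
        rw [C_neg]
        linear_combination (-(X : M[X]) * P) * h1
      obtain ⟨p, hp, -⟩ := exists_red hM (mem_of_mul_one_sub hinv.mem h.mem hP')
      have hq' : q = p := by
        have h1 : Red v ((1 - C s⁻¹ * X) * (C (-s) * P)) ((1 - C 0 * Polynomial.X) * p) :=
          (Red.one.sub ((Red.C (Place.at_zero_iff.2 hinv)).mul Red.X)).mul hp
        rw [← hP'] at h1
        have h2 := h.unique h1
        simpa using h2
      subst hq'
      have hsn : (-s) ≠ 0 := neg_ne_zero.2 hs0
      have hr' : (C (-s) * P).roots = P.roots := roots_C_mul P hsn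
      obtain ⟨h1, h2⟩ := ih (C (-s) * P) q hp hq
        (by rw [natDegree_C_mul hsn, hdeg]) (by rw [hr', hcard])
      rw [hr'] at h1 h2
      refine ⟨?_, fun h0 => ?_⟩
      · rw [h1, hroots, Multiset.filter_cons_of_neg _ hsr]
      · have e0 : Q.coeff 0 = (C (-s) * P).coeff 0 := by
          conv_lhs => rw [hP', mul_coeff_zero]
          have h5 : ((1 : M[X]) - C s⁻¹ * X).coeff 0 = 1 := by simp
          rw [h5, one_mul]
        have h3 : ¬ v.Vanishes s := fun h4 => hsr h4.mem
        rw [hroots, Multiset.map_cons, Multiset.sum_cons, if_neg h3, zero_add, h2 (by rwa [← e0]),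
          e0]

open Classical in
theorem red_roots_eq (hM : IsCurve k M) {v : Place k M} {Q : M[X]} {q : k[X]} (h : Red v Q q)
    (hq : q ≠ 0) (hs : Q.roots.card = Q.natDegree) :
    q.roots = (Q.roots.filter (· ∈ v.ring)).map (val v) :=
  (red_ind hM _ Q q h hq rfl hs).1

open Classical in
theorem red_roots (hM : IsCurve k M) {v : Place k M} {Q : M[X]} {q : k[X]} (h : Red v Q q)
    (hq : q ≠ 0) (hs : Q.roots.card = Q.natDegree) {V : Type} [AddCommGroup V] {f : M → V}
    {g : k → V} (hf : ∀ s ∈ Q.roots, ∀ c, v.At s c → f s = g c)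
    (hf' : ∀ s ∈ Q.roots, s ∉ v.ring → f s = 0) :
    (Q.roots.map f).sum = (q.roots.map g).sum := by
  rw [red_roots_eq hM h hq hs, Multiset.map_map,
    ← Multiset.filter_add_not (fun s : M => s ∈ v.ring) Q.roots, Multiset.map_add,
    Multiset.sum_add]
  have h1 : ((Q.roots.filter fun s => ¬ s ∈ v.ring).map f).sum = 0 := by
    apply Multiset.sum_eq_zero
    intro x hx
    rw [Multiset.mem_map] at hx
    obtain ⟨s, hs, rfl⟩ := hx
    rw [Multiset.mem_filter] at hs
    exact hf' s hs.1 hs.2
  rw [h1, add_zero]
  have h2 : (Q.roots.filter fun s => s ∈ v.ring).map f =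
      (Q.roots.filter fun s => s ∈ v.ring).map (g ∘ val v) := by
    apply Multiset.map_congr rfl
    intro s hs
    rw [Multiset.mem_filter] at hs
    exact hf s hs.1 _ (at_val hM hs.2)
  rw [h2]
  have h3 : (Q.roots.filter fun s => s ∈ v.ring) = (Multiset.filter (fun s => s ∈ v.ring)
      (Multiset.filter (fun s => s ∈ v.ring) Q.roots +
        Multiset.filter (fun s => ¬ s ∈ v.ring) Q.roots)) := by
    rw [Multiset.filter_add_not]
  rw [← h3]

open Classical in
theorem ord_roots (hM : IsCurve k M) {v : Place k M} {Q : M[X]} {q : k[X]} (h : Red v Q q)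
    (hq : q ≠ 0) (hs : Q.roots.card = Q.natDegree) (h0 : Q.coeff 0 ≠ 0) :
    (Q.roots.map fun s => if v.Vanishes s then ord v s else 0).sum = ord v (Q.coeff 0) :=
  (red_ind hM _ Q q h hq rfl hs).2 h0

open Classical in
theorem card_regular (hM : IsCurve k M) {v : Place k M} {Q : M[X]} {q : k[X]} (h : Red v Q q)
    (hq : q ≠ 0) (hs : Q.roots.card = Q.natDegree) :
    (Q.roots.filter (· ∈ v.ring)).card = q.natDegree := by
  rw [(IsAlgClosed.splits q).natDegree_eq_card_roots, red_roots_eq hM h hq hs, Multiset.card_map]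

theorem red_natDegree (hM : IsCurve k M) {v : Place k M} {Q : M[X]} {q : k[X]} (h : Red v Q q)
    (hq : q ≠ 0) (hs : Q.roots.card = Q.natDegree) : q.natDegree ≤ Q.natDegree := by
  classical
  rw [← card_regular hM h hq hs, ← hs]
  exact Multiset.card_le_card (Multiset.filter_le _ _)

open Classical in
/-- the roots in the projective line, `N - natDegree` of them are at infinity -/
theorem red_roots_hom (hM : IsCurve k M) {v : Place k M} {Q : M[X]} {q : k[X]} (h : Red v Q q)
    (hq : q ≠ 0) (hs : Q.roots.card = Q.natDegree) {N : ℕ} (hN : Q.natDegree ≤ N) {V : Type}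
    [AddCommGroup V] {f : M → V} {g : k → V} {a : V}
    (hf : ∀ s ∈ Q.roots, ∀ c, v.At s c → f s = g c)
    (hf' : ∀ s ∈ Q.roots, s ∉ v.ring → f s = a) :
    (Q.roots.map f).sum + (N - Q.natDegree) • a =
      (q.roots.map g).sum + (N - q.natDegree) • a := by
  have e0 : (Q.roots.map f).sum = ((Q.roots.filter fun s => s ∈ v.ring).map f).sum +
      ((Q.roots.filter fun s => ¬ s ∈ v.ring).map f).sum := by
    rw [← Multiset.sum_add, ← Multiset.map_add, Multiset.filter_add_not]
  have e1 : ((Q.roots.filter fun s => s ∈ v.ring).map f).sum = (q.roots.map g).sum := by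
    rw [red_roots_eq hM h hq hs, Multiset.map_map]
    congr 1
    apply Multiset.map_congr rfl
    intro s hs
    rw [Multiset.mem_filter] at hs
    exact hf s hs.1 _ (at_val hM hs.2)
  have e2 : ((Q.roots.filter fun s => ¬ s ∈ v.ring).map f).sum =
      (Q.natDegree - q.natDegree) • a := by
    have h1 : (Q.roots.filter fun s => ¬ s ∈ v.ring).map f =
        Multiset.replicate (Q.roots.filter fun s => ¬ s ∈ v.ring).card a := by
      rw [Multiset.eq_replicate]
      refine ⟨Multiset.card_map _ _, ?_⟩
      intro b hb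
      rw [Multiset.mem_map] at hb
      obtain ⟨s, hs, rfl⟩ := hb
      rw [Multiset.mem_filter] at hs
      exact hf' s hs.1 hs.2
    have h2 : (Q.roots.filter fun s => ¬ s ∈ v.ring).card = Q.natDegree - q.natDegree := by
      have h3 := congrArg Multiset.card
        (Multiset.filter_add_not (fun s : M => s ∈ v.ring) Q.roots)
      rw [Multiset.card_add, card_regular hM h hq hs, hs] at h3
      omega
    rw [h1, Multiset.sum_replicate, h2]
  have hle := red_natDegree hM h hq hs
  rw [e0, e1, e2, add_assoc, ← add_smul]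
  congr 2
  omega

end Pool.Agent.CYU
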