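import Pool.Agent.CYU.PtA

/-!
# The weights of the fixed points

`KT m t y κ θ`: `κ`, `θ` are the numbers of the translation by a torsion point on the curve `t ^ m
+ y ^ j = 1`; `m = 3`: `κ = -t`, `θ = y`; `m = 4`: `κ = ι y`, `θ = -ι t`, `ι ^ 2 = -1`. `δ = y - κ
t ^ ν`; `m = 3`: `δ = y + t ^ 2`; `m = 4`: `δ = y (1 - ι t ^ 2)`.

`kt_pow`: `m = 3`: `y ^ 3 = 1 - t ^ 3`; `m = 4`: `(-ι t) ^ 4 = t ^ 4 = 1 - y ^ 2`. `kt_inf`: `t`
has a pole at `v`: then `j ord y = m ord t`, `ord y = ν ord t`, `ord θ = ord t < 0`, `ord κ = ν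
ord t`. `delta_pole`: `m = 3`: `ord δ = 2 ord t`; `m = 4`: `ord δ = 2 ord t + 2 ord t`.
`delta_zero`: `v` with `t`, `y`, `κ`, `θ` regular, values `t₀, y₀, κ₀, θ₀`, and `y₀ = κ₀ t₀ ^ ν`.
`η₀ = θ₀ t₀` satisfies `η₀ ^ m = t₀ ^ m + κ₀ ^ j t₀ ^ m = t₀ ^ m + y₀ ^ j = 1` and `η₀ ≠ 1`; `m =
3`: `y₀ = -t₀ ^ 2`, `η₀ = -t₀ ^ 3`, and `t₀ ^ 3 - t₀ ^ 6 = 1`, so `η₀ = 1` would give `-1 - 1 =
1`; `m = 4`: `η₀ = -ι t₀ ^ 2`, and `y₀ = 0`, `t₀ ^ 2 = ± 1`, or `ι t₀ ^ 2 = 1`, `η₀ = -1`.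

Proof of `sum_ne`. `δ` has poles exactly where `t` has (`delta_pole`), so `ord δ ≥ 0` at the other
places. The finite sum is `S = ∑ n_η χ(η)`, `η ≠ 1`, where `n_η ≥ 0` is the sum of the orders `ord
v δ` at the places with `η_v = η`. `m = 3`: `χ(η)` is one of the two primitive third roots of
unity `ζ`, `ζ ^ 2 = -1 - ζ` in `k`; `n ζ + n' ζ ^ 2 = -n' + (n - n') ζ` is zero only if `n = n' =
0` (`ζ` is not rational), but `δ` has a pole, so it is not constant and has a zero (`deg_zeros'`).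
`m = 4`: `χ(-1) = -1` and `χ(± ι)` are `± ι` (in some order): `S = -n_(-1) + (n_ι - n_(-ι)) ι'` is
zero only if `n_(-1) = 0`; but there is a place where `t` has the value `τ`, `τ ^ 2 = -ι`, and `η
= -ι τ ^ 2 = -1` there, and `δ` vanishes.

-/

set_option autoImplicit false

noncomputable section

namespace Pool.Agent.CYU

open Pool.Agent.ZCyc Pool.Agent.Dess Pool.Agent.TInc

variable {k : Type} [Field k] [IsAlgClosed k] [CharZero k] {m j ν : ℕ} [NeZero m] {K : Type}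
  [Field K] [Algebra k K]

omit [IsAlgClosed k] [CharZero k] in
private theorem mem_pow {v : Place k K} {a : K} {n : ℕ} (hn : n ≠ 0) (h : a ^ n ∈ v.ring) :
    a ∈ v.ring := by
  rw [← v.ring.valuation_le_one_iff] at h ⊢
  rw [map_pow] at h
  exact (pow_le_one_iff hn).1 h

omit [IsAlgClosed k] [CharZero k] in
private theorem van_inv {v : Place k K} {a : K} (h : a ∉ v.ring) : v.Vanishes a⁻¹ := by
  rw [Place.vanishes_iff_or, inv_inv]
  exact Or.inr h

private theorem exists_pole (hK : IsCurve k K) {f : K} (hf : ∀ a : k, f ≠ algebraMap k K a) :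
    ∃ v : Place k K, f ∉ v.ring := by
  by_contra hcon
  push Not at hcon
  obtain ⟨a, ha⟩ := const_of_regular hK hcon
  exact hf a ha

private theorem exists_zero (hK : IsCurve k K) {f : K} (hf : ∀ a : k, f ≠ algebraMap k K a) :
    ∃ v : Place k K, v.Vanishes f := by
  obtain ⟨v, hv⟩ := exists_pole hK (f := f⁻¹) fun a ha => hf a⁻¹ (by
    rw [map_inv₀, ← ha, inv_inv])
  exact ⟨v, (Place.vanishes_iff_or v f).2 (Or.inr hv)⟩

omit [IsAlgClosed k] in
private theorem sum3 {α : Type} {S : Finset α} {n : α → ℤ} {c : α → k} {a : α} (ha : a ∈ S)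
    (hn : ∀ v ∈ S, 0 < n v) (hc : ∀ v ∈ S, c v ≠ 1) (hp : ∀ v ∈ S, c v ^ 3 = 1) :
    ∑ v ∈ S, (n v : k) * c v ≠ 0 := by
  classical
  have hq : ∀ v ∈ S, c v ^ 2 + c v + 1 = 0 := by
    intro v hv
    have h1 : (c v - 1) * (c v ^ 2 + c v + 1) = 0 := by linear_combination hp v hv
    exact (mul_eq_zero.1 h1).resolve_left (sub_ne_zero.2 (hc v hv))
  set ζ := c a with hζ
  have h1 := hq a ha
  have h2 : ∀ v ∈ S, c v ≠ ζ → c v = ζ ^ 2 := by
    intro v hv h3
    have h4 : (c v - ζ) * (c v + ζ + 1) = 0 := by linear_combination hq v hv - h1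
    have h5 := (mul_eq_zero.1 h4).resolve_left (sub_ne_zero.2 h3)
    linear_combination h5 - h1
  set A : ℤ := ∑ v ∈ S with c v = ζ, n v with hA
  set B : ℤ := ∑ v ∈ S with c v ≠ ζ, n v with hB
  have hsum : ∑ v ∈ S, (n v : k) * c v = A * ζ + B * ζ ^ 2 := by
    rw [← Finset.sum_filter_add_sum_filter_not S (fun v => c v = ζ), hA, hB, Int.cast_sum,
      Int.cast_sum, Finset.sum_mul, Finset.sum_mul]
    congr 1
    · refine Finset.sum_congr rfl fun v hv => ?_
      rw [(Finset.mem_filter.1 hv).2]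
    · refine Finset.sum_congr rfl fun v hv => ?_
      rw [h2 v (Finset.mem_filter.1 hv).1 (Finset.mem_filter.1 hv).2]
  have hApos : 0 < A := Finset.sum_pos (fun v hv => hn v (Finset.mem_filter.1 hv).1)
    ⟨a, Finset.mem_filter.2 ⟨ha, rfl⟩⟩
  intro h0
  rw [hsum] at h0
  have h3 : ((A ^ 2 - A * B + B ^ 2 : ℤ) : k) = 0 := by
    push_cast
    have h4 : ζ ^ 3 = 1 := hp a ha
    linear_combination (A * ζ ^ 2 + B * ζ) * h0 - (A ^ 2 + B ^ 2 + A * B * ζ) * h4 -
      A * B * h1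
  have h4 : A ^ 2 - A * B + B ^ 2 = 0 := by exact_mod_cast h3
  nlinarith [sq_nonneg (A - B), sq_nonneg (A + B), sq_nonneg (2 * B - A), mul_pos hApos hApos]

omit [IsAlgClosed k] in
private theorem sum4 {ι : k} (hι : ι ^ 2 = -1) {α : Type} {S : Finset α} {n : α → ℤ}
    {c : α → k} {a : α} (ha : a ∈ S) (hn : ∀ v ∈ S, 0 < n v) (hc : ∀ v ∈ S, c v ≠ 1)
    (hp : ∀ v ∈ S, c v ^ 4 = 1) (hca : c a = -1) : ∑ v ∈ S, (n v : k) * c v ≠ 0 := by
  classical
  have h2 : ∀ v ∈ S, c v ≠ -1 → c v = (if c v = ι then (1 : ℤ) else -1 : ℤ) * ι := by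
    intro v hv h3
    have h4 : (c v - 1) * ((c v + 1) * ((c v - ι) * (c v + ι))) = 0 := by
      linear_combination hp v hv - (c v ^ 2 - 1) * hι
    have h5 := (mul_eq_zero.1 h4).resolve_left (sub_ne_zero.2 (hc v hv))
    have h6 := (mul_eq_zero.1 h5).resolve_left fun h7 => h3 (eq_neg_of_add_eq_zero_left h7)
    split_ifs with h7
    · rw [h7]
      simp
    · have h8 := (mul_eq_zero.1 h6).resolve_left (sub_ne_zero.2 h7)
      rw [eq_neg_of_add_eq_zero_left h8]
      simp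
  set A : ℤ := ∑ v ∈ S with c v = -1, n v with hA
  set B : ℤ := ∑ v ∈ S with c v ≠ -1, n v * (if c v = ι then (1 : ℤ) else -1 : ℤ) with hB
  have hsum : ∑ v ∈ S, (n v : k) * c v = -A + B * ι := by
    rw [← Finset.sum_filter_add_sum_filter_not S (fun v => c v = -1), hA, hB, Int.cast_sum,
      Int.cast_sum, Finset.sum_mul, ← Finset.sum_neg_distrib]
    congr 1
    · refine Finset.sum_congr rfl fun v hv => ?_
      rw [(Finset.mem_filter.1 hv).2]
      ring
    · refine Finset.sum_congr rfl fun v hv => ?_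
      conv_lhs => rw [h2 v (Finset.mem_filter.1 hv).1 (Finset.mem_filter.1 hv).2]
      push_cast
      ring
  have hApos : 0 < A := Finset.sum_pos (fun v hv => hn v (Finset.mem_filter.1 hv).1)
    ⟨a, Finset.mem_filter.2 ⟨ha, hca⟩⟩
  intro h0
  rw [hsum] at h0
  have h3 : ((A ^ 2 + B ^ 2 : ℤ) : k) = 0 := by
    push_cast
    linear_combination (-A - B * ι) * h0 + B ^ 2 * hι
  have h4 : A ^ 2 + B ^ 2 = 0 := by exact_mod_cast h3
  nlinarith [sq_nonneg B, mul_pos hApos hApos]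

/-- the numbers of the translation -/
def KT (m : ℕ) (ι : k) (t y κ θ : K) : Prop := (m = 3 ∧ κ = -t ∧ θ = y) ∨
  (m = 4 ∧ ι ^ 2 = -1 ∧ κ = algebraMap k K ι * y ∧ θ = -(algebraMap k K ι * t))

omit [IsAlgClosed k] [CharZero k] [NeZero m] in
theorem kt_pow (hex : Ex m j ν) {ι : k} {t y κ θ : K} (h : t ^ m + y ^ j = 1)
    (hk : KT m ι t y κ θ) : θ ^ m = 1 + κ ^ j := by
  rcases hex with ⟨rfl, rfl, rfl⟩ | ⟨rfl, rfl, rfl⟩
  · rcases hk with ⟨-, rfl, rfl⟩ | ⟨h4, -⟩
    · linear_combination h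
    · omega
  · rcases hk with ⟨h3, -⟩ | ⟨-, hι, rfl, rfl⟩
    · omega
    · have h1 : algebraMap k K ι ^ 2 = -1 := by
        rw [← map_pow, hι, map_neg, map_one]
      linear_combination h + (t ^ 4 * (algebraMap k K ι ^ 2 - 1) - y ^ 2) * h1

omit [NeZero m] in
theorem kt_inf (hex : Ex m j ν) (hK : IsCurve k K) {ι : k} {t y κ θ : K} (h : t ^ m + y ^ j = 1)
    (hk : KT m ι t y κ θ) {v : Place k K} (hv : t ∉ v.ring) :
    v.Vanishes θ⁻¹ ∧ κ * θ⁻¹ ^ ν ∈ v.ring := by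
  have hu := van_inv hv
  have ht0 : t ≠ 0 := fun h0 => hv (h0 ▸ zero_mem _)
  rcases hex with ⟨rfl, rfl, rfl⟩ | ⟨rfl, rfl, rfl⟩
  · rcases hk with ⟨-, rfl, rfl⟩ | ⟨h4, -⟩
    · have hy : θ ∉ v.ring := by
        intro hy
        apply hv
        refine mem_pow (n := 3) (by norm_num) ?_
        have h1 : t ^ 3 = 1 - θ ^ 3 := by linear_combination h
        rw [h1]
        exact sub_mem (one_mem _) (pow_mem hy 3)
      have hy0 : θ ≠ 0 := fun h0 => hy (h0 ▸ zero_mem _)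
      refine ⟨van_inv hy, ?_⟩
      refine mem_pow (n := 3) (by norm_num) ?_
      have h1 : (-t * θ⁻¹ ^ 1) ^ 3 = 1 - θ⁻¹ ^ 3 := by
        field_simp
        linear_combination -h
      rw [h1]
      exact sub_mem (one_mem _) (pow_mem (van_inv hy).mem 3)
    · omega
  · rcases hk with ⟨h3, -⟩ | ⟨-, hι, rfl, rfl⟩
    · omega
    · have h1 : algebraMap k K ι ^ 2 = -1 := by
        rw [← map_pow, hι, map_neg, map_one]
      have h0 : algebraMap k K ι ≠ 0 := by
        intro h0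
        rw [h0] at h1
        norm_num at h1
      have h2 : (-(algebraMap k K ι * t))⁻¹ = t⁻¹ * algebraMap k K ι := by
        apply inv_eq_of_mul_eq_one_right
        have h3 : -(algebraMap k K ι * t) * (t⁻¹ * algebraMap k K ι) =
            -(algebraMap k K ι ^ 2) * (t * t⁻¹) := by ring
        rw [h3, h1, mul_inv_cancel₀ ht0]
        norm_num
      rw [h2]
      refine ⟨hu.mul v (v.const_mem _), ?_⟩
      refine mem_pow (n := 2) (by norm_num) ?_
      have h3 : (algebraMap k K ι * y * (t⁻¹ * algebraMap k K ι) ^ 2) ^ 2 =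
          1 - t⁻¹ ^ 4 := by
        have h4 : (algebraMap k K ι * y * (t⁻¹ * algebraMap k K ι) ^ 2) ^ 2 =
            (algebraMap k K ι ^ 2) ^ 3 * (y ^ 2 * t⁻¹ ^ 4) := by ring
        rw [h4, h1]
        have h5 : y ^ 2 = 1 - t ^ 4 := by linear_combination h
        rw [h5]
        field_simp
        ring
      rw [h3]
      exact sub_mem (one_mem _) (pow_mem hu.mem 4)

omit [NeZero m] in
theorem kt_fin (hex : Ex m j ν) (hK : IsCurve k K) {ι : k} {t y κ θ : K} (h : t ^ m + y ^ j = 1)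
    (hk : KT m ι t y κ θ) {v : Place k K} (hv : t ∈ v.ring) :
    y ∈ v.ring ∧ κ ∈ v.ring ∧ θ ∈ v.ring := by
  have hy : y ∈ v.ring := by
    refine mem_pow (n := j) (by have := hex.two_le; omega) ?_
    have h1 : y ^ j = 1 - t ^ m := by linear_combination h
    rw [h1]
    exact sub_mem (one_mem _) (pow_mem hv m)
  refine ⟨hy, ?_⟩
  rcases hk with ⟨-, rfl, rfl⟩ | ⟨-, hι, rfl, rfl⟩
  · exact ⟨neg_mem hv, hy⟩
  · exact ⟨mul_mem (v.const_mem _) hy, neg_mem (mul_mem (v.const_mem _) hv)⟩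

omit [NeZero m] in
theorem delta_pole (hex : Ex m j ν) (hK : IsCurve k K) {ι : k} {t y κ θ : K}
    (h : t ^ m + y ^ j = 1) (hk : KT m ι t y κ θ) {v : Place k K} (hv : t ∉ v.ring) :
    y - κ * t ^ ν ∉ v.ring := by
  have hu := Place.at_zero_iff.2 (van_inv hv)
  have ht0 : t ≠ 0 := fun h0 => hv (h0 ▸ zero_mem _)
  intro hδ
  rcases hex with ⟨rfl, rfl, rfl⟩ | ⟨rfl, rfl, rfl⟩
  · rcases hk with ⟨-, rfl, rfl⟩ | ⟨h4, -⟩
    · have h1 : v.At ((θ - -t * t ^ 1) * t⁻¹ ^ 2 - algebraMap k K 1) (0 - 1) := by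
        refine Place.At.sub (Place.at_zero_iff.2 ?_) (Place.at_const 1)
        exact ((van_inv hv).pow v two_ne_zero).mul' v hδ
      have h2 : (θ - -t * t ^ 1) * t⁻¹ ^ 2 - algebraMap k K 1 = θ * t⁻¹ ^ 2 := by
        rw [map_one]
        field_simp
        ring
      rw [h2] at h1
      have h3 : (θ * t⁻¹ ^ 2) ^ 3 = t⁻¹ ^ 6 - t⁻¹ ^ 3 := by
        have h4 : (θ * t⁻¹ ^ 2) ^ 3 = θ ^ 3 * t⁻¹ ^ 6 := by ring
        have h5 : θ ^ 3 = 1 - t ^ 3 := by linear_combination h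
        rw [h4, h5]
        field_simp
      have h4 := h1.pow 3
      rw [h3] at h4
      have h5 := Place.At.unique h4 ((hu.pow 6).sub (hu.pow 3))
      norm_num at h5
    · omega
  · rcases hk with ⟨h3, -⟩ | ⟨-, hι, rfl, rfl⟩
    · omega
    · have hi : algebraMap k K ι ^ 2 = -1 := by
        rw [← map_pow, hι, map_neg, map_one]
      have h1 : v.At (((y - algebraMap k K ι * y * t ^ 2) * t⁻¹ ^ 4) ^ 2) (0 ^ 2) := by
        refine Place.At.pow (Place.at_zero_iff.2 ?_) 2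
        exact ((van_inv hv).pow v four_ne_zero).mul' v hδ
      have h2 : ((y - algebraMap k K ι * y * t ^ 2) * t⁻¹ ^ 4) ^ 2 =
          (t⁻¹ ^ 4 - algebraMap k K 1) * (t⁻¹ ^ 2 - algebraMap k K ι) ^ 2 := by
        have h4 : ((y - algebraMap k K ι * y * t ^ 2) * t⁻¹ ^ 4) ^ 2 =
          (y ^ 2 * t⁻¹ ^ 4) * (t⁻¹ ^ 2 - algebraMap k K ι * (t * t⁻¹) ^ 2) ^ 2 := by ring
        have h5 : y ^ 2 = 1 - t ^ 4 := by linear_combination h
        rw [h4, h5, mul_inv_cancel₀ ht0, map_one]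
        congr 1
        · field_simp
        · ring
      rw [h2] at h1
      have h3 : v.At ((t⁻¹ ^ 4 - algebraMap k K 1) * (t⁻¹ ^ 2 - algebraMap k K ι) ^ 2)
          ((0 ^ 4 - 1) * (0 ^ 2 - ι) ^ 2) :=
        ((hu.pow 4).sub (Place.at_const 1)).mul (((hu.pow 2).sub (Place.at_const ι)).pow 2)
      have h5 := Place.At.unique h1 h3
      have h6 : (0 : k) = 1 := by linear_combination h5 - hι
      exact zero_ne_one h6

theorem delta_zero (hex : Ex m j ν) (hK : IsCurve k K) {ι : k} {t y κ θ : K}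
    (h : t ^ m + y ^ j = 1) (hk : KT m ι t y κ θ) {v : Place k K}
    (hv : v.Vanishes (y - κ * t ^ ν)) :
    ∃ η : Mu k m, η ≠ 1 ∧ v.At (θ * t) ((η : kˣ) : k) := by
  have htr : t ∈ v.ring := by
    by_contra h0
    exact delta_pole hex hK h hk h0 hv.mem
  obtain ⟨hy, hκ, hθ⟩ := kt_fin hex hK h hk htr
  obtain ⟨t₀, ht₀⟩ := exists_at hK v htr
  obtain ⟨y₀, hy₀⟩ := exists_at hK v hy
  obtain ⟨κ₀, hκ₀⟩ := exists_at hK v hκ
  obtain ⟨θ₀, hθ₀⟩ := exists_at hK v hθ
  have e1 : y₀ = κ₀ * t₀ ^ ν := by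
    have h1 := Place.At.unique (Place.at_zero_iff.2 hv) (hy₀.sub (hκ₀.mul (ht₀.pow ν)))
    exact (sub_eq_zero.1 h1.symm)
  have e2 : t₀ ^ m + y₀ ^ j = 1 := by
    have h1 := (ht₀.pow m).add (hy₀.pow j)
    rw [h] at h1
    have h2 := Place.at_const (v := v) (1 : k)
    rw [map_one] at h2
    exact Place.At.unique h1 h2
  have e3 : (θ₀ * t₀) ^ m = 1 := by
    have h1 := (hθ₀.pow m)
    rw [kt_pow hex h hk] at h1
    have h2 := Place.at_const (v := v) (1 : k)
    have h3 := Place.At.unique h1 (by simpa using h2.add (hκ₀.pow j))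
    rw [e1, mul_pow, ← pow_mul, mul_comm ν j, ← hex.mul] at e2
    rw [mul_pow, h3]
    linear_combination e2
  refine ⟨rootsOfUnity.mkOfPowEq (θ₀ * t₀) e3, ?_, ?_⟩
  · intro h1
    have h2 : θ₀ * t₀ = 1 := by
      have h3 := congrArg (fun a : Mu k m => ((a : kˣ) : k)) h1
      simpa using h3
    rcases hex with ⟨rfl, rfl, rfl⟩ | ⟨rfl, rfl, rfl⟩
    · rcases hk with ⟨-, rfl, rfl⟩ | ⟨h4, -⟩
      · have h3 : κ₀ = -t₀ := Place.At.unique hκ₀ ht₀.neg
        have h4 : θ₀ = y₀ := Place.At.unique hθ₀ hy₀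
        subst h3 h4
        rw [e1] at h2 e2
        have h5 : (3 : k) = 0 := by
          linear_combination -e2 - (2 - t₀ ^ 3) * h2
        norm_num at h5
      · omega
    · rcases hk with ⟨h3, -⟩ | ⟨-, hι, rfl, rfl⟩
      · omega
      · have h3 : κ₀ = ι * y₀ := Place.At.unique hκ₀ ((Place.at_const ι).mul hy₀)
        have h4 : θ₀ = -(ι * t₀) := Place.At.unique hθ₀ ((Place.at_const ι).mul ht₀).neg
        subst h3 h4
        have h5 : 2 * y₀ = 0 := by linear_combination e1 - y₀ * h2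
        have h6 : y₀ = 0 := by simpa using h5
        rw [h6] at e2
        have h7 : t₀ ^ 4 = -1 := by
          linear_combination t₀ ^ 4 * hι + (ι * t₀ ^ 2 - 1) * h2
        have h8 : (2 : k) = 0 := by linear_combination h7 - e2
        norm_num at h8
  · exact hθ₀.mul ht₀

/-- The sum over the places where `t` is regular of the orders of `δ` with the weights `χ(η_v)` is
not zero. -/
theorem sum_ne (hex : Ex m j ν) (hK : IsCurve k K) {ι : k} {t y κ θ : K}
    (ht : Transcendental k t) (h : t ^ m + y ^ j = 1) (hk : KT m ι t y κ θ)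
    {χ : Mu k m →* kˣ} (hχ : Function.Injective χ) {η : Place k K → Mu k m}
    (hη : ∀ v : Place k K, v.Vanishes (y - κ * t ^ ν) → v.At (θ * t) ((η v : kˣ) : k))
    {F : Place k K → k} (h1 : ∀ v : Place k K, t ∉ v.ring → F v = 0)
    (h2 : ∀ v : Place k K, t ∈ v.ring →
      F v = (ord v (y - κ * t ^ ν) : k) * ((χ (η v) : kˣ) : k)) : ∑ᶠ v, F v ≠ 0 := by
  classical
  set δ : K := y - κ * t ^ ν with hδ
  have htc : ∀ a : k, t ≠ algebraMap k K a := by
    rintro a rfl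
    exact ht (isAlgebraic_algebraMap a)
  obtain ⟨v₁, hv₁⟩ := exists_pole hK htc
  have hδc : ∀ a : k, δ ≠ algebraMap k K a := by
    intro a ha
    apply delta_pole hex hK h hk hv₁
    rw [← hδ, ha]
    exact v₁.const_mem a
  have hδ0 : δ ≠ 0 := by
    have := hδc 0
    rwa [map_zero] at this
  have hfin : {v : Place k K | v.Vanishes δ}.Finite := by
    refine (finite_ord hK δ).subset fun v hv => ?_
    have := (vanishes_iff_ord hK hδ0).1 hv
    exact this.ne'
  set S : Finset (Place k K) := hfin.toFinset with hS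
  have hmem : ∀ v, v ∈ S ↔ v.Vanishes δ := fun v => by rw [hS, Set.Finite.mem_toFinset]; rfl
  have htS : ∀ v ∈ S, t ∈ v.ring := by
    intro v hv
    by_contra h0
    exact delta_pole hex hK h hk h0 ((hmem v).1 hv).mem
  have hsum : ∑ᶠ v, F v = ∑ v ∈ S, (ord v δ : k) * ((χ (η v) : kˣ) : k) := by
    rw [finsum_eq_sum_of_support_subset F (s := S)]
    · exact Finset.sum_congr rfl fun v hv => h2 v (htS v hv)
    · intro v hv
      rw [Finset.mem_coe, hmem]
      by_cases h3 : t ∈ v.ring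
      · rw [Function.mem_support, h2 v h3] at hv
        have h4 : ord v δ ≠ 0 := by
          intro h5
          apply hv
          rw [h5]
          simp
        rw [vanishes_iff_ord hK hδ0]
        have h5 : δ ∈ v.ring := by
          obtain ⟨h6, h7, -⟩ := kt_fin hex hK h hk h3
          exact sub_mem h6 (mul_mem h7 (pow_mem h3 ν))
        rw [mem_iff_ord hK hδ0] at h5
        omega
      · exact absurd (h1 v h3) hv
  have hpos : ∀ v ∈ S, 0 < ord v δ := fun v hv => (vanishes_iff_ord hK hδ0).1 ((hmem v).1 hv)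
  have hne1 : ∀ v ∈ S, ((χ (η v) : kˣ) : k) ≠ 1 := by
    intro v hv h3
    obtain ⟨a, ha, ha'⟩ := delta_zero hex hK h hk ((hmem v).1 hv)
    have h4 := Place.At.unique ha' (hη v ((hmem v).1 hv))
    have h5 : a = η v := Subtype.ext (Units.ext h4)
    apply ha
    rw [h5]
    apply hχ
    rw [map_one]
    exact Units.ext h3
  have hpow : ∀ v, (((χ (η v) : kˣ) : k)) ^ m = 1 := by
    intro v
    have h3 : (η v) ^ m = 1 := by
      apply Subtype.ext
      exact (mem_rootsOfUnity m _).1 (η v).2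
    rw [← Units.val_pow_eq_pow_val, ← map_pow, h3, map_one]
    rfl
  rw [hsum]
  rcases hex with ⟨rfl, rfl, rfl⟩ | ⟨rfl, rfl, rfl⟩
  · obtain ⟨v₀, hv₀⟩ := exists_zero hK hδc
    exact sum3 (hmem v₀ |>.2 hv₀) hpos hne1 fun v _ => hpow v
  · rcases hk with ⟨h3, -⟩ | ⟨-, hι, rfl, rfl⟩
    · omega
    obtain ⟨τ, hτ⟩ := IsAlgClosed.exists_pow_nat_eq (-ι) (n := 2) (by norm_num)
    obtain ⟨v₀, hv₀⟩ := exists_zero hK (f := t - algebraMap k K τ) fun a ha => htc (a + τ) (by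
      rw [map_add, ← ha]
      ring)
    have ht0 : v₀.At t τ := hv₀
    have htr : t ∈ v₀.ring := ht0.mem
    obtain ⟨y₀, hy₀⟩ := exists_at hK v₀
      (kt_fin (Or.inr ⟨rfl, rfl, rfl⟩) hK h (Or.inr ⟨rfl, hι, rfl, rfl⟩) htr).1
    have hv1 : v₀.Vanishes δ := by
      have h3 := hy₀.sub (((Place.at_const ι).mul hy₀).mul (ht0.pow 2))
      have h4 : y₀ - ι * y₀ * τ ^ 2 = 0 := by
        rw [hτ]
        linear_combination y₀ * hι
      rw [h4] at h3
      exact Place.at_zero_iff.1 h3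
    refine sum4 hι (hmem v₀ |>.2 hv1) hpos hne1 (fun v _ => hpow v) ?_
    have h3 : ((η v₀ : kˣ) : k) = -1 := by
      have h4 := ((Place.at_const ι).mul ht0).neg.mul ht0
      have h5 := Place.At.unique (hη v₀ hv1) h4
      rw [h5]
      linear_combination -ι * hτ + hι
    have h4 : η v₀ ^ 2 = 1 := by
      apply Subtype.ext
      apply Units.ext
      simp [h3]
    have h5 : (((χ (η v₀) : kˣ) : k)) ^ 2 = 1 := by
      rw [← Units.val_pow_eq_pow_val, ← map_pow, h4, map_one]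
      rfl
    rcases sq_eq_one_iff.1 h5 with h6 | h6
    · exact absurd h6 (hne1 v₀ (hmem v₀ |>.2 hv1))
    · exact h6

end Pool.Agent.CYU
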